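import Mathlib

set_option autoImplicit false

/-!
# A lower bound for Euler's function: `4 k ≤ (φ(k) + 2)²` for `6 ∤ k`, `k ≠ 10`
-/

namespace Pool.Agent.V7H25.SSE

open Nat

lemma lemA (n : ℕ) : n.Coprime 6 → 1 < n →
    16 * n ≤ 5 * (φ n) ^ 2 ∧ (n = 5 ∨ n = 7 ∨ 8 * n ≤ (φ n) ^ 2) := by
  induction n using Nat.recOnPosPrimePosCoprime with
  | zero => intro h; simp at h
  | one => intro _ h; omega
  | prime_pow p n hp hn =>
    intro h6 _
    have h2 : p ≠ 2 := by
      rintro rfl
      have : (2 : ℕ) ∣ Nat.gcd (2 ^ n) 6 := Nat.dvd_gcd (dvd_pow_self 2 hn.ne') (by norm_num)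
      rw [h6] at this
      norm_num at this
    have h3 : p ≠ 3 := by
      rintro rfl
      have : (3 : ℕ) ∣ Nat.gcd (3 ^ n) 6 := Nat.dvd_gcd (dvd_pow_self 3 hn.ne') (by norm_num)
      rw [h6] at this
      norm_num at this
    have hp2 := hp.two_le
    have h4 : p ≠ 4 := by rintro rfl; exact absurd hp (by norm_num)
    obtain ⟨q, rfl⟩ : ∃ q, p = q + 1 := ⟨p - 1, by omega⟩
    have hq : 4 ≤ q := by omega
    obtain ⟨j, rfl⟩ : ∃ j, n = j + 1 := ⟨n - 1, by omega⟩
    rw [Nat.totient_prime_pow_succ hp, Nat.add_sub_cancel]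
    rcases j with _ | i
    · simp only [zero_add, pow_one, pow_zero, one_mul]
      refine ⟨by nlinarith, ?_⟩
      by_cases hq9 : 9 ≤ q
      · right; right; nlinarith
      · have : q = 4 ∨ q = 5 ∨ q = 6 ∨ q = 7 ∨ q = 8 := by omega
        rcases this with rfl | rfl | rfl | rfl | rfl
        · left; rfl
        · exact absurd hp (by norm_num)
        · right; left; rfl
        · exact absurd hp (by norm_num)
        · exact absurd hp (by norm_num)
    · have h1 : 1 ≤ (q + 1) ^ i := Nat.one_le_pow _ _ (by omega)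
      have e1 : (q + 1) ^ (i + 1 + 1) = (q + 1) ^ i * (q + 1) ^ 2 := by ring
      have e2 : ((q + 1) ^ (i + 1) * q) ^ 2 = ((q + 1) ^ i) ^ 2 * (q + 1) ^ 2 * q ^ 2 := by ring
      rw [e1, e2]
      set y := (q + 1) ^ i with hy
      have h5 : y ≤ y ^ 2 := by nlinarith
      have h6 : 16 ≤ q ^ 2 := by nlinarith
      have h7 : y * (q + 1) ^ 2 * 16 ≤ y ^ 2 * (q + 1) ^ 2 * q ^ 2 :=
        Nat.mul_le_mul (Nat.mul_le_mul_right _ h5) h6
      constructor
      · nlinarith
      · right; right; nlinarith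
  | coprime a b ha hb hab iha ihb =>
    intro h6 _
    have ha6 : a.Coprime 6 := Nat.Coprime.coprime_dvd_left (Dvd.intro b rfl) h6
    have hb6 : b.Coprime 6 := Nat.Coprime.coprime_dvd_left (Dvd.intro_left a rfl) h6
    obtain ⟨h1, _⟩ := iha ha6 ha
    obtain ⟨h2, _⟩ := ihb hb6 hb
    rw [Nat.totient_mul hab]
    have h3 : (16 * a) * (16 * b) ≤ (5 * (φ a) ^ 2) * (5 * (φ b) ^ 2) := Nat.mul_le_mul h1 h2
    have h4 : 256 * (a * b) ≤ 25 * (φ a * φ b) ^ 2 := by
      calc 256 * (a * b) = (16 * a) * (16 * b) := by ring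
        _ ≤ (5 * (φ a) ^ 2) * (5 * (φ b) ^ 2) := h3
        _ = 25 * (φ a * φ b) ^ 2 := by ring
    constructor
    · omega
    · right; right; omega

lemma cop6 (n : ℕ) (h2 : ¬ 2 ∣ n) (h3 : ¬ 3 ∣ n) : n.Coprime 6 := by
  have a := (Nat.prime_two.coprime_iff_not_dvd.mpr h2).symm
  have b := (Nat.prime_three.coprime_iff_not_dvd.mpr h3).symm
  exact Nat.Coprime.mul_right a b

lemma totient_bound (k : ℕ) (h6 : ¬ 6 ∣ k) (h10 : k ≠ 10) : 4 * k ≤ (φ k + 2) ^ 2 := by
  have hk0 : k ≠ 0 := by rintro rfl; simp at h6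
  by_cases h3 : 3 ∣ k
  · have h2 : ¬ 2 ∣ k := by
      intro h2
      exact h6 (Nat.Coprime.mul_dvd_of_dvd_of_dvd (by norm_num) h2 h3)
    obtain ⟨j, n, hn3, rfl⟩ := Nat.exists_eq_pow_mul_and_not_dvd hk0 3 (by norm_num)
    have hj : 0 < j := by
      rcases Nat.eq_zero_or_pos j with h | h
      · subst h; simp at h3; exact absurd h3 hn3
      · exact h
    have hn2 : ¬ 2 ∣ n := fun h => h2 (Dvd.dvd.mul_left h _)
    have hcop : (3 ^ j).Coprime n :=
      Nat.Coprime.pow_left j (Nat.prime_three.coprime_iff_not_dvd.mpr hn3)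
    obtain ⟨i, rfl⟩ : ∃ i, j = i + 1 := ⟨j - 1, by omega⟩
    rw [Nat.totient_mul hcop, Nat.totient_prime_pow_succ Nat.prime_three]
    have e1 : 3 ^ (i + 1) = 3 * 3 ^ i := by ring
    rw [e1]
    have hy : 1 ≤ 3 ^ i := Nat.one_le_pow _ _ (by omega)
    have hyi : i = 0 ∨ 3 ≤ 3 ^ i := by
      rcases Nat.eq_zero_or_pos i with h | h
      · left; exact h
      · right
        calc 3 = 3 ^ 1 := by norm_num
          _ ≤ 3 ^ i := Nat.pow_le_pow_right (by norm_num) h
    set y := 3 ^ i with hyd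
    have hn0 : n ≠ 0 := by rintro rfl; simp at hk0
    by_cases hn1 : n = 1
    · subst hn1
      simp only [Nat.totient_one, mul_one]
      rcases hyi with h | h
      · subst h; clear_value y; simp at hyd; subst hyd; norm_num
      · nlinarith
    · obtain ⟨h1, _⟩ := lemA n (cop6 n hn2 hn3) (by omega)
      set f := φ n
      have h2 : y ≤ y ^ 2 := by nlinarith
      have h4 : (y * (3 - 1) * f) ^ 2 = 4 * y ^ 2 * f ^ 2 := by norm_num; ring
      have h5 : 4 * (3 * y * n) ≤ (y * (3 - 1) * f) ^ 2 := by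
        rw [h4]
        have h6 : y * (16 * n) ≤ y ^ 2 * (5 * f ^ 2) := Nat.mul_le_mul h2 h1
        nlinarith
      exact h5.trans (Nat.pow_le_pow_left (Nat.le_add_right _ _) 2)
  · obtain ⟨j, n, hn2, rfl⟩ := Nat.exists_eq_pow_mul_and_not_dvd hk0 2 (by norm_num)
    have hn3 : ¬ 3 ∣ n := fun h => h3 (Dvd.dvd.mul_left h _)
    have hn0 : n ≠ 0 := by rintro rfl; simp at hk0
    rcases Nat.eq_zero_or_pos j with hj | hj
    · subst hj
      simp only [pow_zero, one_mul] at *
      by_cases hn1 : n = 1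
      · subst hn1; simp
      · obtain ⟨_, h | h | h⟩ := lemA n (cop6 n hn2 hn3) (by omega)
        · subst h; decide
        · subst h; decide
        · have := Nat.pow_le_pow_left (Nat.le_add_right (φ n) 2) 2
          omega
    · have hcop : (2 ^ j).Coprime n :=
        Nat.Coprime.pow_left j (Nat.prime_two.coprime_iff_not_dvd.mpr hn2)
      obtain ⟨i, rfl⟩ : ∃ i, j = i + 1 := ⟨j - 1, by omega⟩
      rw [Nat.totient_mul hcop, Nat.totient_prime_pow_succ Nat.prime_two]
      have e1 : 2 ^ (i + 1) = 2 * 2 ^ i := by ring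
      rw [e1] at h10 ⊢
      have hy : 1 ≤ 2 ^ i := Nat.one_le_pow _ _ (by omega)
      have hyi : i = 0 ∨ 2 ≤ 2 ^ i := by
        rcases Nat.eq_zero_or_pos i with h | h
        · left; exact h
        · right
          calc 2 = 2 ^ 1 := by norm_num
            _ ≤ 2 ^ i := Nat.pow_le_pow_right (by norm_num) h
      by_cases hn1 : n = 1
      · subst hn1
        simp only [Nat.totient_one, mul_one]
        set y := 2 ^ i with hyd
        norm_num
        zify
        nlinarith [sq_nonneg ((y : ℤ) - 2)]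
      · obtain ⟨_, h | h | h⟩ := lemA n (cop6 n hn2 hn3) (by omega)
        · subst h
          have h5 : φ 5 = 4 := by decide
          rw [h5]
          rcases hyi with h | h
          · subst h; simp at h10
          · set y := 2 ^ i with hyd
            nlinarith
        · subst h
          have h7 : φ 7 = 6 := by decide
          rw [h7]
          set y := 2 ^ i with hyd
          norm_num
          zify
          have : (1 : ℤ) ≤ y := by exact_mod_cast hy
          nlinarith
        · set f := φ n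
          set y := 2 ^ i with hyd
          have h2 : y ≤ y ^ 2 := by nlinarith
          have h4 : (y * (2 - 1) * f) ^ 2 = y ^ 2 * f ^ 2 := by norm_num; ring
          have h5 : 4 * (2 * y * n) ≤ (y * (2 - 1) * f) ^ 2 := by
            rw [h4]
            have h6 : y * (8 * n) ≤ y ^ 2 * (f ^ 2) := Nat.mul_le_mul h2 h
            nlinarith
          exact h5.trans (Nat.pow_le_pow_left (Nat.le_add_right _ _) 2)

end Pool.Agent.V7H25.SSE
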