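import Pool.Agent.V7H25.SSE.Fourier
import Pool.Agent.V7H25.SSE.Totient

set_option autoImplicit false
set_option linter.unusedSectionVars false

/-!
# The isoperimetric inequality for the unitary Cayley graph of `ZMod k`, `6 ∤ k`
-/

namespace Pool.Agent.V7H25.SSE

open Finset
open scoped Classical

noncomputable section

lemma moebius_le (m : ℕ) (h6 : ¬ 6 ∣ m) (hm : 1 < m) :
    ((ArithmeticFunction.moebius m : ℤ) : ℝ) ≤ (Nat.totient m : ℝ) / 4 := by
  have hle : ((ArithmeticFunction.moebius m : ℤ) : ℝ) ≤ 1 := by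
    have := (abs_le.mp (ArithmeticFunction.abs_moebius_le_one (n := m))).2
    exact_mod_cast this
  have hfour : 4 ≤ Nat.totient m → ((ArithmeticFunction.moebius m : ℤ) : ℝ)
      ≤ (Nat.totient m : ℝ) / 4 := by
    intro h
    have : (4 : ℝ) ≤ Nat.totient m := by exact_mod_cast h
    linarith
  by_cases h7 : 7 ≤ m
  · apply hfour
    by_cases h10 : m = 10
    · subst h10; decide
    · have h := totient_bound m h6 h10
      by_contra hcon
      have : Nat.totient m ≤ 3 := by omega
      nlinarith
  · have : m = 2 ∨ m = 3 ∨ m = 4 ∨ m = 5 ∨ m = 6 := by omega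
    rcases this with rfl | rfl | rfl | rfl | rfl
    · rw [ArithmeticFunction.moebius_apply_prime Nat.prime_two]
      have : (0 : ℝ) ≤ (Nat.totient 2 : ℝ) / 4 := by positivity
      push_cast
      linarith
    · rw [ArithmeticFunction.moebius_apply_prime Nat.prime_three]
      have : (0 : ℝ) ≤ (Nat.totient 3 : ℝ) / 4 := by positivity
      push_cast
      linarith
    · have h4 : ¬ Squarefree 4 := by
        intro h
        have := h 2 ⟨1, by norm_num⟩
        norm_num at this
      rw [ArithmeticFunction.moebius_eq_zero_of_not_squarefree h4]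
      push_cast
      positivity
    · apply hfour; decide
    · exact absurd (dvd_refl 6) h6

/-- Concavity of the logarithm. -/
lemma chord (a b x : ℝ) (ha : 0 < a) (hab : a < b) (hax : a ≤ x) (hxb : x ≤ b) :
    (b - x) * Real.log a + (x - a) * Real.log b ≤ (b - a) * Real.log x := by
  have hba : 0 < b - a := by linarith
  have h := strictConcaveOn_log_Ioi.concaveOn.2 (Set.mem_Ioi.mpr ha)
    (Set.mem_Ioi.mpr (lt_trans ha hab))
    (div_nonneg (sub_nonneg.mpr hxb) hba.le) (div_nonneg (sub_nonneg.mpr hax) hba.le)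
    (by field_simp; ring)
  simp only [smul_eq_mul] at h
  have hx : (b - x) / (b - a) * a + (x - a) / (b - a) * b = x := by field_simp; ring
  rw [hx] at h
  calc (b - x) * Real.log a + (x - a) * Real.log b
      = (b - a) * ((b - x) / (b - a) * Real.log a + (x - a) / (b - a) * Real.log b) := by
        field_simp
    _ ≤ (b - a) * Real.log x := mul_le_mul_of_nonneg_left h hba.le

lemma log_cmp (p q k b : ℕ) (hk : 0 < k) (hb : 0 < b) (h : k ^ p ≤ b ^ q) :
    (p : ℝ) * Real.log k ≤ q * Real.log b := by
  rw [← Real.log_pow, ← Real.log_pow]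
  refine Real.log_le_log (by positivity) ?_
  exact_mod_cast h

/-- The numerical alternative. -/
lemma num (k b : ℕ) (hk : 2 ≤ k) (h6 : ¬ 6 ∣ k) (h4 : k ≠ 4) (hb : 1 ≤ b) (hbk : b ≤ k) :
    ((b : ℝ) - 1) * Real.log k ≤ (Nat.totient k : ℝ) * Real.log b ∨
      ((b : ℝ) / k + (1 - (b : ℝ) / k) / 4) * Real.log k ≤ Real.log b := by
  have hk0 : (0 : ℝ) < k := by exact_mod_cast (by omega : 0 < k)
  have hb1 : (1 : ℝ) ≤ b := by exact_mod_cast hb
  have hbk' : (b : ℝ) ≤ k := by exact_mod_cast hbk
  have hlogb : 0 ≤ Real.log b := Real.log_nonneg hb1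
  -- the second alternative from an inequality of integers
  have hsec : k ^ (k + 3 * b) ≤ b ^ (4 * k) →
      ((b : ℝ) / k + (1 - (b : ℝ) / k) / 4) * Real.log k ≤ Real.log b := by
    intro h
    have h1 := log_cmp (k + 3 * b) (4 * k) k b (by omega) (by omega) h
    push_cast at h1
    have h2 : ((b : ℝ) / k + (1 - (b : ℝ) / k) / 4) * Real.log k
        = ((k : ℝ) + 3 * b) * Real.log k / (4 * k) := by
      field_simp; ring
    rw [h2, div_le_iff₀ (by positivity)]
    linarith
  by_cases hprime : k.Prime
  · left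
    rw [Nat.totient_prime hprime, Nat.cast_sub (by omega), Nat.cast_one]
    have := chord 1 k b one_pos (by exact_mod_cast (by omega : 1 < k)) hb1 hbk'
    rw [Real.log_one, mul_zero, zero_add] at this
    exact this
  by_cases h9 : 9 ≤ k ∧ k ≠ 10
  · obtain ⟨h9, h10⟩ := h9
    set r := Real.sqrt k with hr
    have hrr : r * r = k := Real.mul_self_sqrt hk0.le
    have hr3 : 3 ≤ r := by
      rw [hr]
      apply Real.le_sqrt_of_sq_le
      have : (9 : ℝ) ≤ k := by exact_mod_cast h9
      linarith
    have hlogk : Real.log k = 2 * Real.log r := by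
      rw [← hrr, Real.log_mul (by linarith) (by linarith)]; ring
    have hlogr : 0 ≤ Real.log r := Real.log_nonneg (by linarith)
    have hφ : 2 * (r - 1) ≤ Nat.totient k := by
      have h := totient_bound k h6 h10
      have h' : (4 : ℝ) * k ≤ ((Nat.totient k : ℝ) + 2) ^ 2 := by exact_mod_cast h
      rw [← hrr] at h'
      have h2 : (2 * r) ^ 2 ≤ ((Nat.totient k : ℝ) + 2) ^ 2 := by linarith
      have h3 := abs_le_of_sq_le_sq h2 (by positivity)
      have h5 := (abs_le.mp h3).2
      linarith
    rcases le_total (b : ℝ) r with hbr | hbr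
    · left
      have h := chord 1 r b one_pos (by linarith) hb1 hbr
      rw [Real.log_one, mul_zero, zero_add] at h
      rw [hlogk]
      have h2 : 2 * (r - 1) * Real.log b ≤ (Nat.totient k : ℝ) * Real.log b :=
        mul_le_mul_of_nonneg_right hφ hlogb
      linarith
    · right
      have hrk : r < k := by nlinarith
      have h := chord r k b (by linarith) hrk hbr hbk'
      rw [hlogk] at h ⊢
      have hkr : 0 < (k : ℝ) - r := by linarith
      have hr0 : 0 < r := by linarith
      have hcoef : ((k : ℝ) - r) * (((b : ℝ) / k + (1 - (b : ℝ) / k) / 4) * 2)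
          ≤ (k - b) + 2 * (b - r) := by
        have e : (k - b) + 2 * (b - r) - ((k : ℝ) - r) * (((b : ℝ) / k + (1 - (b : ℝ) / k) / 4) * 2)
            = (1 / 2) * (r - 3) * (r * r - b) / r := by
          rw [← hrr]; field_simp; ring
        have h0 : 0 ≤ (1 / 2) * (r - 3) * (r * r - b) / r := by
          apply div_nonneg _ hr0.le
          apply mul_nonneg (by linarith)
          rw [hrr]; linarith
        linarith
      have h2 : ((k : ℝ) - r) * (((b : ℝ) / k + (1 - (b : ℝ) / k) / 4) * (2 * Real.log r))
          ≤ ((k : ℝ) - r) * Real.log b := by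
        calc ((k : ℝ) - r) * (((b : ℝ) / k + (1 - (b : ℝ) / k) / 4) * (2 * Real.log r))
            = (((k : ℝ) - r) * (((b : ℝ) / k + (1 - (b : ℝ) / k) / 4) * 2)) * Real.log r := by ring
          _ ≤ ((k - b) + 2 * (b - r)) * Real.log r := mul_le_mul_of_nonneg_right hcoef hlogr
          _ = (k - b) * Real.log r + (b - r) * (2 * Real.log r) := by ring
          _ ≤ _ := h
      exact le_of_mul_le_mul_left h2 hkr
  · have : k = 2 ∨ k = 3 ∨ k = 4 ∨ k = 5 ∨ k = 6 ∨ k = 7 ∨ k = 8 ∨ k = 10 := by
      by_contra hcon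
      apply h9
      omega
    rcases this with rfl | rfl | rfl | rfl | rfl | rfl | rfl | rfl
    · exact absurd Nat.prime_two hprime
    · exact absurd Nat.prime_three hprime
    · exact absurd rfl h4
    · exact absurd Nat.prime_five hprime
    · exact absurd (dvd_refl 6) h6
    · exact absurd (by norm_num) hprime
    · have hφ8 : Nat.totient 8 = 4 := by decide
      rw [hφ8]
      by_cases hb4 : 4 ≤ b
      · right
        apply hsec
        interval_cases b <;> norm_num
      · have : b = 1 ∨ b = 2 ∨ b = 3 := by omega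
        left
        rcases this with rfl | rfl | rfl
        · simp
        · have := log_cmp 1 4 8 2 (by norm_num) (by norm_num) (by norm_num)
          push_cast at this ⊢
          linarith
        · have := log_cmp 2 4 8 3 (by norm_num) (by norm_num) (by norm_num)
          push_cast at this ⊢
          linarith
    · have hφ10 : Nat.totient 10 = 4 := by decide
      rw [hφ10]
      by_cases hb3 : 3 ≤ b
      · right
        apply hsec
        interval_cases b <;> norm_num
      · have : b = 1 ∨ b = 2 := by omega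
        left
        rcases this with rfl | rfl
        · simp
        · have := log_cmp 1 4 10 2 (by norm_num) (by norm_num) (by norm_num)
          push_cast at this ⊢
          linarith

/-- The number of pairs, in `ZMod 4`. -/
def cnt4 (R : Finset (ZMod 4)) : ℕ :=
  (R.filter fun j => j + 1 ∈ R).card + (R.filter fun j => j + 3 ∈ R).card

lemma cnt4_le : ∀ R : Finset (ZMod 4), (R.card = 1 → cnt4 R = 0) ∧ (R.card = 2 → cnt4 R ≤ 2) ∧
    (R.card = 3 → cnt4 R ≤ 4) ∧ (R.card = 4 → cnt4 R ≤ 8) := by
  have h : ∀ R : Finset (ZMod 4),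
    (R.card = 1 → (R.filter fun j => j + 1 ∈ R).card + (R.filter fun j => j + 3 ∈ R).card = 0) ∧
    (R.card = 2 → (R.filter fun j => j + 1 ∈ R).card + (R.filter fun j => j + 3 ∈ R).card ≤ 2) ∧
    (R.card = 3 → (R.filter fun j => j + 1 ∈ R).card + (R.filter fun j => j + 3 ∈ R).card ≤ 4) ∧
    (R.card = 4 → (R.filter fun j => j + 1 ∈ R).card + (R.filter fun j => j + 3 ∈ R).card ≤ 8) := by
    decide +kernel
  intro R
  unfold cnt4
  convert h R

lemma star_four : Star 4 := by
  intro R hR
  have he : (∑ᶠ u : (ZMod 4)ˣ, ((R.filter fun j => j + (u : ZMod 4) ∈ R).card : ℝ)) = cnt4 R := by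
    rw [finsum_eq_sum_of_fintype]
    have hu : (univ : Finset (ZMod 4)ˣ) = {1, -1} := by decide +kernel
    rw [hu, Finset.sum_insert (by decide), Finset.sum_singleton]
    unfold cnt4
    have h3 : ((-1 : (ZMod 4)ˣ) : ZMod 4) = 3 := by decide
    rw [h3, Units.val_one]
    push_cast
    rfl
  rw [he]
  have hφ4 : Nat.totient 4 = 2 := by decide
  rw [hφ4]
  obtain ⟨h1, h2, h3, h4⟩ := cnt4_le R
  have hlog4 : Real.log (4 : ℕ) = 2 * Real.log 2 := by
    have : ((4 : ℕ) : ℝ) = 2 ^ 2 := by norm_num
    rw [this, Real.log_pow]; push_cast; ring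
  have hlog2 : 0 < Real.log 2 := Real.log_pos (by norm_num)
  have hcard : R.card ≤ 4 := by
    have := Finset.card_le_univ R
    rwa [ZMod.card] at this
  have hpos : 1 ≤ R.card := hR.card_pos
  have : R.card = 1 ∨ R.card = 2 ∨ R.card = 3 ∨ R.card = 4 := by omega
  rcases this with h | h | h | h
  · rw [h1 h, h]; simp
  · have hc : (cnt4 R : ℝ) ≤ 2 := by exact_mod_cast h2 h
    rw [h, hlog4]
    push_cast
    nlinarith
  · have hc : (cnt4 R : ℝ) ≤ 4 := by exact_mod_cast h3 h
    rw [h, hlog4]
    have h5 := log_cmp 8 6 2 3 (by norm_num) (by norm_num) (by norm_num)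
    push_cast at h5 ⊢
    nlinarith
  · have hc : (cnt4 R : ℝ) ≤ 8 := by exact_mod_cast h4 h
    rw [h, hlog4]
    push_cast
    nlinarith

/-- **The isoperimetric inequality for unitary Cayley graphs.** -/
theorem star (k : ℕ) (h6 : ¬ 6 ∣ k) : Star k := by
  have hk0 : k ≠ 0 := by rintro rfl; simp at h6
  have : NeZero k := ⟨hk0⟩
  by_cases h1 : k = 1
  · subst h1
    intro R _
    simp only [Nat.cast_one, Real.log_one, mul_zero]
    exact mul_nonneg (Nat.cast_nonneg _) (mul_nonneg (Nat.cast_nonneg _)
      (Real.log_natCast_nonneg _))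
  by_cases h4 : k = 4
  · subst h4; exact star_four
  intro R hR
  have hk2 : 2 ≤ k := by omega
  have hb1 : 1 ≤ R.card := hR.card_pos
  have hbk : R.card ≤ k := by
    have := Finset.card_le_univ R
    rwa [ZMod.card] at this
  have hkpos : (0 : ℝ) < k := by exact_mod_cast (by omega : 0 < k)
  have hbpos : (0 : ℝ) < R.card := by exact_mod_cast hR.card_pos
  have hlogk : (0 : ℝ) ≤ Real.log k := Real.log_natCast_nonneg k
  change epairs R * Real.log k ≤ (Nat.totient k : ℝ) * (R.card * Real.log R.card)
  rcases num k R.card hk2 h6 h4 hb1 hbk with h | h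
  · have ht := trivial_bound k hk2 R
    calc epairs R * Real.log k ≤ ((R.card : ℝ) * (R.card - 1)) * Real.log k :=
          mul_le_mul_of_nonneg_right ht hlogk
      _ = (R.card : ℝ) * (((R.card : ℝ) - 1) * Real.log k) := by ring
      _ ≤ (R.card : ℝ) * ((Nat.totient k : ℝ) * Real.log R.card) :=
          mul_le_mul_of_nonneg_left h hbpos.le
      _ = _ := by ring
  · have hs := spectral k R (fun m hm h1 => moebius_le m (fun h => h6 (h.trans hm)) h1)
    have hs2 : epairs R ≤ (Nat.totient k : ℝ) * R.card *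
        ((R.card : ℝ) / k + (1 - (R.card : ℝ) / k) / 4) := by
      have e : (k : ℝ) * ((Nat.totient k : ℝ) * R.card *
        ((R.card : ℝ) / k + (1 - (R.card : ℝ) / k) / 4)) = (Nat.totient k : ℝ) * (R.card : ℝ) ^ 2
      + (Nat.totient k : ℝ) / 4 * (k * R.card - (R.card : ℝ) ^ 2) := by field_simp
      rw [← e] at hs
      exact le_of_mul_le_mul_left hs hkpos
    calc epairs R * Real.log k ≤ ((Nat.totient k : ℝ) * R.card *
          ((R.card : ℝ) / k + (1 - (R.card : ℝ) / k) / 4)) * Real.log k :=
          mul_le_mul_of_nonneg_right hs2 hlogk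
      _ = (Nat.totient k : ℝ) * R.card *
          (((R.card : ℝ) / k + (1 - (R.card : ℝ) / k) / 4) * Real.log k) := by ring
      _ ≤ (Nat.totient k : ℝ) * R.card * Real.log R.card :=
          mul_le_mul_of_nonneg_left h (by positivity)
      _ = _ := by ring

end

end Pool.Agent.V7H25.SSE
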