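import Pool.Agent.V7H25.SSE.Iso
import Pool.Agent.V7H25.SSE.StarProof

set_option autoImplicit false
set_option linter.unusedSectionVars false

/-!
# Small-set expansion on finite abelian groups: definitions
-/

namespace Pool.Agent.V7H25.SSE

open Finset
open scoped Classical

noncomputable section

/-- The expansion of `A` for the weight `μ` on the translations. -/
def wexp {G : Type} [AddCommGroup G] [Fintype G] (μ : G → ℝ) (A : Finset G) : ℝ :=
  (∑ s, μ s * ((A.filter fun x => x + s ∉ A).card : ℝ)) / A.card

/-- The logarithm of the inverse density of `A`. -/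
def lsize {G : Type} [Fintype G] (A : Finset G) : ℝ :=
  Real.log ((Fintype.card G : ℝ) / A.card)

/-- The set of the elements of a subgroup. -/
def carrier {G : Type} [AddCommGroup G] [Fintype G] (W : AddSubgroup G) : Finset G :=
  univ.filter fun x => x ∈ W

/-- The weight `μ` depends only on the cyclic subgroup generated by the element:
`μ (n s) = μ s` whenever `n` is prime to the order of `s`. -/
def PowerClosed {G : Type} [AddCommGroup G] (μ : G → ℝ) : Prop :=
  ∀ (n : ℕ) (s : G), n.Coprime (addOrderOf s) → μ (n • s) = μ s

section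

variable {G : Type} [AddCommGroup G] [Fintype G]

lemma mem_carrier (W : AddSubgroup G) (x : G) : x ∈ carrier W ↔ x ∈ W := by
  simp [carrier]

lemma carrier_nonempty (W : AddSubgroup G) : (carrier W).Nonempty :=
  ⟨0, by rw [mem_carrier]; exact W.zero_mem⟩

lemma card_carrier (W : AddSubgroup G) : (carrier W).card = Nat.card W := by
  rw [Nat.card_eq_fintype_card, Fintype.card_subtype]
  rfl

lemma card_pos' : (0 : ℝ) < Fintype.card G := by exact_mod_cast Fintype.card_pos

lemma wexp_subgroup (μ : G → ℝ) (W : AddSubgroup G) :
    wexp μ (carrier W) = ∑ s ∈ univ.filter (fun s => s ∉ W), μ s := by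
  have hc : (0 : ℝ) < (carrier W).card := by exact_mod_cast (carrier_nonempty W).card_pos
  have h1 : ∀ s, μ s * (((carrier W).filter fun x => x + s ∉ carrier W).card : ℝ)
      = if s ∉ W then μ s * (carrier W).card else 0 := by
    intro s
    by_cases h : s ∈ W
    · have : ((carrier W).filter fun x => x + s ∉ carrier W) = ∅ := by
        rw [Finset.filter_eq_empty_iff]
        intro x hx
        rw [mem_carrier] at hx
        simp only [mem_carrier, not_not]
        exact W.add_mem hx h
      rw [this]; simp [h]
    · have : ((carrier W).filter fun x => x + s ∉ carrier W) = carrier W := by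
        rw [Finset.filter_eq_self]
        intro x hx
        rw [mem_carrier] at hx ⊢
        intro hc
        apply h
        have := W.sub_mem hc hx
        simpa using this
      rw [this]; simp [h]
  unfold wexp
  simp_rw [h1]
  rw [← Finset.sum_filter, ← Finset.sum_mul, mul_div_assoc, div_self hc.ne', mul_one]

lemma lsize_eq (A : Finset G) (hA : A.Nonempty) :
    lsize A = Real.log (Fintype.card G) - Real.log A.card := by
  have hA0 : (0 : ℝ) < A.card := by exact_mod_cast hA.card_pos
  unfold lsize
  rw [Real.log_div card_pos'.ne' hA0.ne']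

lemma lsize_carrier (W : AddSubgroup G) : lsize (carrier W) = cod W := by
  rw [lsize_eq _ (carrier_nonempty W), card_carrier]
  rfl

lemma lsize_index (W : AddSubgroup G) : lsize (carrier W) = Real.log W.index := by
  unfold lsize
  rw [card_carrier]
  have h : (Nat.card W : ℝ) * W.index = Fintype.card G := by
    rw [← Nat.card_eq_fintype_card]
    exact_mod_cast W.card_mul_index
  have hW : (0 : ℝ) < Nat.card W := by exact_mod_cast Nat.card_pos
  congr 1
  rw [← h]; field_simp

lemma lsize_nonneg (A : Finset G) (hA : A.Nonempty) : 0 ≤ lsize A := by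
  have hA0 : (0 : ℝ) < A.card := by exact_mod_cast hA.card_pos
  unfold lsize
  refine Real.log_nonneg ?_
  rw [le_div_iff₀ hA0, one_mul]
  exact_mod_cast Finset.card_le_univ A

lemma lsize_pos (A : Finset G) (hA : A.Nonempty) (hA' : A ≠ univ) : 0 < lsize A := by
  have hA0 : (0 : ℝ) < A.card := by exact_mod_cast hA.card_pos
  unfold lsize
  refine Real.log_pos ?_
  rw [lt_div_iff₀ hA0, one_mul]
  have : A.card < Fintype.card G := (Finset.card_lt_iff_ne_univ A).mpr hA'
  exact_mod_cast this

lemma carrier_ne_univ {W : AddSubgroup G} (h : W ≠ ⊤) : carrier W ≠ univ := by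
  intro hc
  apply h
  rw [AddSubgroup.eq_top_iff']
  intro x
  rw [← mem_carrier, hc]
  exact Finset.mem_univ x

lemma wexp_nonneg (μ : G → ℝ) (hμ : ∀ s, 0 ≤ μ s) (A : Finset G) : 0 ≤ wexp μ A := by
  unfold wexp
  refine div_nonneg (Finset.sum_nonneg fun s _ => mul_nonneg (hμ s) (Nat.cast_nonneg _))
    (Nat.cast_nonneg _)

lemma wexp_eq (μ : G → ℝ) (A : Finset G) (hA : A.Nonempty) :
    wexp μ A = ∑ s, μ s * (1 - (stay A s : ℝ) / A.card) := by
  have hA0 : (0 : ℝ) < A.card := by exact_mod_cast hA.card_pos
  unfold wexp
  rw [Finset.sum_div]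
  refine Finset.sum_congr rfl fun s _ => ?_
  rw [mul_div_assoc]
  congr 1
  have h : ((A.filter fun x => x + s ∉ A).card : ℝ) = A.card - stay A s := by
    unfold stay
    have := Finset.card_filter_add_card_filter_not (s := A) (fun x => x + s ∈ A)
    have h2 : ((A.filter fun x => x + s ∈ A).card : ℝ) + ((A.filter fun x => x + s ∉ A).card : ℝ)
        = A.card := by exact_mod_cast this
    linarith
  rw [h]; field_simp

end

end

end Pool.Agent.V7H25.SSE
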