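import Pool.Agent.V7H25.SSE.Key

set_option autoImplicit false
set_option linter.unusedSectionVars false

/-!
# The unitary Cayley graph of `ZMod k`: spectral bound for `6 ∤ k`
-/

namespace Pool.Agent.V7H25.SSE

open Finset Polynomial
open scoped Classical ComplexConjugate

noncomputable section

/-- The sum of the `n`-th roots of unity. -/
lemma sum_nthRoots (n : ℕ) (hn : 1 < n) : ∑ z ∈ nthRootsFinset n (1 : ℂ), z = 0 := by
  have hn0 : n ≠ 0 := by omega
  have hζ := Complex.isPrimitiveRoot_exp n hn0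
  set ζ := Complex.exp (2 * Real.pi * Complex.I / n) with hζd
  have hζ1 : ζ ≠ 1 := hζ.ne_one hn
  have h0 : ζ ≠ 0 := hζ.ne_zero hn0
  have hmem : ∀ z, z ∈ nthRootsFinset n (1 : ℂ) ↔ z ^ n = 1 := fun z =>
    mem_nthRootsFinset (by omega) 1
  have h1 : ∑ z ∈ nthRootsFinset n (1 : ℂ), z = ∑ z ∈ nthRootsFinset n (1 : ℂ), ζ * z := by
    symm
    refine Finset.sum_bij (fun z _ => ζ * z) ?_ ?_ ?_ ?_
    · intro z hz
      rw [hmem] at hz ⊢
      rw [mul_pow, hz, hζ.pow_eq_one, one_mul]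
    · intro a _ b _ h
      exact mul_left_cancel₀ h0 h
    · intro z hz
      refine ⟨ζ⁻¹ * z, ?_, ?_⟩
      · rw [hmem] at hz ⊢
        rw [mul_pow, hz, inv_pow, hζ.pow_eq_one]; simp
      · field_simp
    · intro z _; rfl
  rw [← Finset.mul_sum] at h1
  have h2 : (1 - ζ) * ∑ z ∈ nthRootsFinset n (1 : ℂ), z = 0 := by
    rw [sub_mul, one_mul, ← h1, sub_self]
  rcases mul_eq_zero.mp h2 with h | h
  · exact absurd (sub_eq_zero.mp h).symm hζ1
  · exact h

/-- The sum of the primitive `n`-th roots of unity is `μ(n)`. -/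
lemma sum_primitiveRoots (n : ℕ) (hn : 0 < n) :
    ∑ z ∈ primitiveRoots n ℂ, z = ((ArithmeticFunction.moebius n : ℤ) : ℂ) := by
  have h : ∀ n > 0, ∑ i ∈ n.divisors, (∑ z ∈ primitiveRoots i ℂ, z)
      = (if n = 1 then 1 else 0 : ℂ) := by
    intro n hn
    have h1 : ∑ i ∈ n.divisors, (∑ z ∈ primitiveRoots i ℂ, z)
        = ∑ z ∈ nthRootsFinset n (1 : ℂ), z := by
      rw [IsPrimitiveRoot.nthRoots_one_eq_biUnion_primitiveRoots, Finset.sum_biUnion]
      intro i _ j _ hij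
      exact IsPrimitiveRoot.disjoint hij
    rw [h1]
    split_ifs with h
    · subst h
      have : nthRootsFinset 1 (1 : ℂ) = {1} := by
        ext z
        rw [mem_nthRootsFinset one_pos]
        simp
      rw [this]; simp
    · exact sum_nthRoots n (by omega)
  have h2 := (ArithmeticFunction.sum_eq_iff_sum_mul_moebius_eq
    (f := fun i => ∑ z ∈ primitiveRoots i ℂ, z)
    (g := fun n => (if n = 1 then 1 else 0 : ℂ))).mp h n hn
  simp only [mul_ite, mul_one, mul_zero] at h2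
  rw [← h2, Finset.sum_eq_single (n, 1)]
  · simp
  · rintro ⟨a, b⟩ hab hne
    rw [Nat.mem_divisorsAntidiagonal] at hab
    rw [if_neg]
    rintro rfl
    apply hne
    simp only [mul_one] at hab
    rw [hab.1]
  · intro h
    exfalso
    apply h
    rw [Nat.mem_divisorsAntidiagonal]
    exact ⟨by simp, by omega⟩

/-- The sum of `ζ ^ u` over the units `u`. -/
lemma sum_units_pow (m : ℕ) [NeZero m] (ζ : ℂ) (hζ : IsPrimitiveRoot ζ m) :
    ∑ w : (ZMod m)ˣ, ζ ^ (w : ZMod m).val = ((ArithmeticFunction.moebius m : ℤ) : ℂ) := by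
  have hm : 0 < m := Nat.pos_of_ne_zero (NeZero.ne m)
  rw [← sum_primitiveRoots m hm]
  refine Finset.sum_bij (fun w _ => ζ ^ (w : ZMod m).val) ?_ ?_ ?_ ?_
  · intro w _
    rw [mem_primitiveRoots hm]
    exact hζ.pow_of_coprime _ (ZMod.val_coe_unit_coprime w)
  · intro a _ b _ h
    have := hζ.pow_inj (ZMod.val_lt _) (ZMod.val_lt _) h
    exact Units.ext (ZMod.val_injective m this)
  · intro z hz
    rw [mem_primitiveRoots hm, hζ.isPrimitiveRoot_iff] at hz
    obtain ⟨i, hi, hc, rfl⟩ := hz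
    refine ⟨ZMod.unitOfCoprime i hc, Finset.mem_univ _, ?_⟩
    rw [ZMod.coe_unitOfCoprime, ZMod.val_natCast, Nat.mod_eq_of_lt hi]
  · intro w _; rfl

/-- The sum of a nontrivial character over the units. -/
lemma re_sum_units (k : ℕ) [NeZero k] (ψ : AddChar (ZMod k) ℂ) (hψ : ψ ≠ 0)
    (hφ : ∀ m, m ∣ k → 1 < m →
      ((ArithmeticFunction.moebius m : ℤ) : ℝ) ≤ (Nat.totient m : ℝ) / 4) :
    (∑ u : (ZMod k)ˣ, ψ (u : ZMod k)).re ≤ (Nat.totient k : ℝ) / 4 := by
  set z := ψ 1 with hz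
  have hψz : ∀ x : ZMod k, ψ x = z ^ x.val := by
    intro x
    have : x = x.val • (1 : ZMod k) := by rw [nsmul_eq_mul, mul_one, ZMod.natCast_zmod_val]
    conv_lhs => rw [this]
    rw [AddChar.map_nsmul_eq_pow]
  have hzk : z ^ k = 1 := by
    rw [hz, ← AddChar.map_nsmul_eq_pow]
    have : k • (1 : ZMod k) = 0 := by rw [nsmul_eq_mul, mul_one, ZMod.natCast_self]
    rw [this, AddChar.map_zero_eq_one]
  set m := orderOf z with hm
  have hmk : m ∣ k := orderOf_dvd_of_pow_eq_one hzk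
  have hm0 : 0 < m := Nat.pos_of_dvd_of_pos hmk (Nat.pos_of_ne_zero (NeZero.ne k))
  have hm1 : 1 < m := by
    rcases Nat.lt_or_ge 1 m with h | h
    · exact h
    · exfalso
      have h1 : m = 1 := by omega
      rw [hm, orderOf_eq_one_iff] at h1
      apply hψ
      ext x
      rw [hψz, h1]; simp
  have : NeZero m := ⟨hm0.ne'⟩
  have hprim : IsPrimitiveRoot z m := IsPrimitiveRoot.orderOf z
  let F : (ZMod m)ˣ → ℝ := fun w => (z ^ (w : ZMod m).val).re
  have h1 : ∀ u : (ZMod k)ˣ, (ψ (u : ZMod k)).re = F (ZMod.unitsMap hmk u) := by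
    intro u
    simp only [F]
    rw [hψz]
    congr 1
    have hp : ∀ n : ℕ, z ^ n = z ^ (n % m) := fun n => (pow_mod_orderOf z n).symm
    rw [hp ((u : ZMod k).val)]
    rw [ZMod.unitsMap_val]
    congr 1
    have : (((u : ZMod k).val : ZMod m)).val = (u : ZMod k).val % m := ZMod.val_natCast _ _
    rw [← this, ZMod.natCast_val]
  have h2 := units_avg k m hmk F
  have h3 : ∑ w : (ZMod m)ˣ, F w = ((ArithmeticFunction.moebius m : ℤ) : ℝ) := by
    have := congrArg Complex.re (sum_units_pow m z hprim)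
    rw [Complex.re_sum] at this
    rw [show ((((ArithmeticFunction.moebius m : ℤ) : ℂ))).re
      = ((ArithmeticFunction.moebius m : ℤ) : ℝ) from Complex.intCast_re _] at this
    exact this
  have hφm : (0 : ℝ) < Nat.totient m := by exact_mod_cast Nat.totient_pos.mpr hm0
  rw [Complex.re_sum]
  simp_rw [h1]
  rw [h3] at h2
  have h4 := hφ m hmk hm1
  have h5 : (Nat.totient m : ℝ) * ∑ u : (ZMod k)ˣ, F (ZMod.unitsMap hmk u)
      ≤ (Nat.totient m : ℝ) * ((Nat.totient k : ℝ) / 4) := by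
    rw [h2]
    calc (Nat.totient k : ℝ) * ((ArithmeticFunction.moebius m : ℤ) : ℝ)
        ≤ (Nat.totient k : ℝ) * ((Nat.totient m : ℝ) / 4) :=
          mul_le_mul_of_nonneg_left h4 (Nat.cast_nonneg _)
      _ = (Nat.totient m : ℝ) * ((Nat.totient k : ℝ) / 4) := by ring
  exact le_of_mul_le_mul_left h5 hφm

/-- The character sum over `R`. -/
def Sh {k : ℕ} (R : Finset (ZMod k)) (ψ : AddChar (ZMod k) ℂ) : ℂ := ∑ x ∈ R, ψ x

lemma parseval_gen (k : ℕ) [NeZero k] (R : Finset (ZMod k)) (c : ZMod k) :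
    ∑ ψ : AddChar (ZMod k) ℂ, Sh R ψ * conj (Sh R ψ) * ψ c
      = (k : ℂ) * ((R.filter fun j => j + c ∈ R).card : ℂ) := by
  unfold Sh
  have h1 : ∀ ψ : AddChar (ZMod k) ℂ, (∑ x ∈ R, ψ x) * conj (∑ x ∈ R, ψ x) * ψ c
      = ∑ x ∈ R, ∑ y ∈ R, ψ (x - y + c) := by
    intro ψ
    rw [map_sum, Finset.sum_mul_sum, Finset.sum_mul]
    refine Finset.sum_congr rfl fun x _ => ?_
    rw [Finset.sum_mul]
    refine Finset.sum_congr rfl fun y _ => ?_
    rw [← AddChar.map_neg_eq_conj, AddChar.map_add_eq_mul, sub_eq_add_neg,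
      AddChar.map_add_eq_mul]
  simp_rw [h1]
  rw [Finset.sum_comm]
  have h2 : ∀ x ∈ R, ∑ ψ : AddChar (ZMod k) ℂ, ∑ y ∈ R, ψ (x - y + c)
      = (k : ℂ) * (if x + c ∈ R then 1 else 0) := by
    intro x _
    rw [Finset.sum_comm]
    have h3 : ∀ y ∈ R, ∑ ψ : AddChar (ZMod k) ℂ, ψ (x - y + c)
        = if x + c = y then (k : ℂ) else 0 := by
      intro y _
      rw [AddChar.sum_apply_eq_ite, ZMod.card]
      congr 1
      rw [sub_add_eq_add_sub, sub_eq_zero]
    rw [Finset.sum_congr rfl h3, Finset.sum_ite_eq]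
    simp
  rw [Finset.sum_congr rfl h2, ← Finset.mul_sum]
  congr 1
  rw [Finset.card_filter]
  push_cast
  rfl

/-- The number of the pairs in `R` whose difference is a unit. -/
def epairs {k : ℕ} (R : Finset (ZMod k)) : ℝ :=
  ∑ᶠ u : (ZMod k)ˣ, ((R.filter fun j => j + (u : ZMod k) ∈ R).card : ℝ)

/-- **Spectral bound.** -/
lemma spectral (k : ℕ) [NeZero k] (R : Finset (ZMod k))
    (hφ : ∀ m, m ∣ k → 1 < m →
      ((ArithmeticFunction.moebius m : ℤ) : ℝ) ≤ (Nat.totient m : ℝ) / 4) :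
    (k : ℝ) * epairs R ≤ (Nat.totient k : ℝ) * (R.card : ℝ) ^ 2
      + (Nat.totient k : ℝ) / 4 * (k * R.card - (R.card : ℝ) ^ 2) := by
  unfold epairs
  rw [finsum_eq_sum_of_fintype]
  have hS : ∀ ψ : AddChar (ZMod k) ℂ, Sh R ψ * conj (Sh R ψ) = ((‖Sh R ψ‖ ^ 2 : ℝ) : ℂ) := by
    intro ψ
    rw [Complex.mul_conj, Complex.normSq_eq_norm_sq]
  have h1 : (k : ℂ) * ∑ u : (ZMod k)ˣ, ((R.filter fun j => j + (u : ZMod k) ∈ R).card : ℂ)
      = ∑ ψ : AddChar (ZMod k) ℂ, ((‖Sh R ψ‖ ^ 2 : ℝ) : ℂ) * ∑ u : (ZMod k)ˣ, ψ (u : ZMod k) := by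
    rw [Finset.mul_sum]
    simp_rw [← parseval_gen, Finset.mul_sum]
    rw [Finset.sum_comm]
    simp_rw [hS]
  have h2 : (k : ℝ) * ∑ u : (ZMod k)ˣ, ((R.filter fun j => j + (u : ZMod k) ∈ R).card : ℝ)
      = ∑ ψ : AddChar (ZMod k) ℂ, ‖Sh R ψ‖ ^ 2 * (∑ u : (ZMod k)ˣ, ψ (u : ZMod k)).re := by
    have := congrArg Complex.re h1
    rw [Complex.re_sum] at this
    simp_rw [Complex.re_ofReal_mul] at this
    rw [← this]
    have e : (k : ℂ) * ∑ u : (ZMod k)ˣ, ((R.filter fun j => j + (u : ZMod k) ∈ R).card : ℂ)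
        = (((k : ℝ) * ∑ u : (ZMod k)ˣ, ((R.filter fun j => j + (u : ZMod k) ∈ R).card : ℝ) : ℝ) : ℂ)
        := by push_cast; rfl
    rw [e, Complex.ofReal_re]
  have h3 : ∑ ψ : AddChar (ZMod k) ℂ, ‖Sh R ψ‖ ^ 2 = (k : ℝ) * R.card := by
    have h := parseval_gen k R 0
    simp only [AddChar.map_zero_eq_one, mul_one, add_zero] at h
    simp_rw [hS] at h
    have e : (R.filter fun j => j ∈ R) = R := by ext; simp
    rw [e] at h
    have := congrArg Complex.re h
    rw [Complex.re_sum] at this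
    simp_rw [Complex.ofReal_re] at this
    rw [this]
    have e2 : (k : ℂ) * (R.card : ℂ) = (((k : ℝ) * R.card : ℝ) : ℂ) := by push_cast; rfl
    rw [e2, Complex.ofReal_re]
  have h4 : ‖Sh R (0 : AddChar (ZMod k) ℂ)‖ ^ 2 = (R.card : ℝ) ^ 2 := by
    unfold Sh
    simp
  have h5 : (∑ u : (ZMod k)ˣ, (0 : AddChar (ZMod k) ℂ) (u : ZMod k)).re = Nat.totient k := by
    simp [ZMod.card_units_eq_totient]
  rw [h2, ← Finset.add_sum_erase _ _ (Finset.mem_univ (0 : AddChar (ZMod k) ℂ)), h4, h5]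
  rw [← Finset.add_sum_erase _ _ (Finset.mem_univ (0 : AddChar (ZMod k) ℂ)), h4] at h3
  have h6 : ∑ ψ ∈ (univ : Finset (AddChar (ZMod k) ℂ)).erase 0,
      ‖Sh R ψ‖ ^ 2 * (∑ u : (ZMod k)ˣ, ψ (u : ZMod k)).re
      ≤ ∑ ψ ∈ (univ : Finset (AddChar (ZMod k) ℂ)).erase 0,
        ‖Sh R ψ‖ ^ 2 * ((Nat.totient k : ℝ) / 4) := by
    refine Finset.sum_le_sum fun ψ hψ => ?_
    refine mul_le_mul_of_nonneg_left ?_ (by positivity)
    exact re_sum_units k ψ (Finset.ne_of_mem_erase hψ) hφ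
  rw [← Finset.sum_mul] at h6
  have h7 : ∑ ψ ∈ (univ : Finset (AddChar (ZMod k) ℂ)).erase 0, ‖Sh R ψ‖ ^ 2
      = k * R.card - (R.card : ℝ) ^ 2 := by linarith
  rw [h7] at h6
  nlinarith [h6]

/-- **Trivial bound.** -/
lemma trivial_bound (k : ℕ) [NeZero k] (hk : 2 ≤ k) (R : Finset (ZMod k)) :
    epairs R ≤ (R.card : ℝ) * (R.card - 1) := by
  unfold epairs
  rw [finsum_eq_sum_of_fintype]
  have : Fact (1 < k) := ⟨by omega⟩
  have h1 : ∀ u : (ZMod k)ˣ, ((R.filter fun j => j + (u : ZMod k) ∈ R).card : ℝ)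
      = ∑ j ∈ R, if j + (u : ZMod k) ∈ R then (1 : ℝ) else 0 := by
    intro u
    rw [Finset.card_filter]; push_cast; rfl
  simp_rw [h1]
  rw [Finset.sum_comm]
  have h2 : ∀ j ∈ R, (∑ u : (ZMod k)ˣ, if j + (u : ZMod k) ∈ R then (1 : ℝ) else 0)
      ≤ (R.card : ℝ) - 1 := by
    intro j hj
    rw [← Finset.sum_filter, Finset.sum_const, nsmul_eq_mul, mul_one]
    have h3 : (univ.filter fun u : (ZMod k)ˣ => j + (u : ZMod k) ∈ R).card
        ≤ (R.erase j).card := by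
      refine Finset.card_le_card_of_injOn (fun u => j + (u : ZMod k)) ?_ ?_
      · intro u hu
        simp only [Finset.coe_filter, Finset.mem_univ, true_and, Set.mem_ofPred_eq] at hu
        rw [Finset.mem_coe, Finset.mem_erase]
        refine ⟨?_, hu⟩
        intro h
        simp at h
      · intro a _ b _ h
        have : (a : ZMod k) = b := by simpa using h
        exact Units.ext this
    rw [Finset.card_erase_of_mem hj] at h3
    have hpos : 1 ≤ R.card := Finset.card_pos.mpr ⟨j, hj⟩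
    have : (((univ.filter fun u : (ZMod k)ˣ => j + (u : ZMod k) ∈ R).card : ℕ) : ℝ)
        ≤ ((R.card - 1 : ℕ) : ℝ) := by exact_mod_cast h3
    rwa [Nat.cast_sub hpos, Nat.cast_one] at this
  refine (Finset.sum_le_sum h2).trans ?_
  rw [Finset.sum_const, nsmul_eq_mul]

end

end Pool.Agent.V7H25.SSE
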