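import Pool.Agent.V7H25.SSE.TestSteps
import Pool.Agent.Results.MP_8d8c46_lc.CayleyTest

set_option autoImplicit false
set_option linter.unusedSectionVars false

/-!
# Small-set expansion in integral Cayley graphs of finite abelian groups: a test by characters

Let `G` be a finite abelian group and `S` a connection set which is closed under the multiplication
of its elements `s` by the integers prime to the order of `s` (for abelian groups these are the
Cayley graphs with integral spectrum). If a set `A` with `|G| ≤ 2^{k+1} |A|` has expansion at most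
`η`, then the common kernel `W` of some `k` characters of `G` has at most `2 |A|` elements and
expansion at most `4 k η`. Conversely, a subgroup `W` with at most `2 δ |G|` elements which contains
more than `3 η |S|` elements of `S` shows that the graph is not a no instance of `SSE(η, δ)`. So
for `(4 k + 3) η < 1` and `2^{k+1} δ ≥ 1` the problem `SSE(η, δ)` on these graphs is decided by a
search through the `|G|^k` families of `k` characters.
-/

namespace Pool.Agent.V7H25.SSE.IntegralTest

open Finset Pool.Agent.V7H25.SSE
open scoped Classical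
open Pool.Agent.Results.MP_8d8c46_lc.CayleyTest (cay expansion SseYes SseNo)

noncomputable section

/-- The common kernel of `k` characters. -/
def commonKernel {G : Type} [AddCommGroup G] [Fintype G] {k : ℕ} (f : Fin k → AddChar G ℂ) :
    Finset G := univ.filter fun x => ∀ i, f i x = 1

/-- The test: there are `k` characters whose common kernel has at most `2 δ |G|` elements and
contains more than `3 η |S|` elements of `S`. -/
def Test {G : Type} [AddCommGroup G] [Fintype G] (S : Finset G) (k : ℕ) (eta del : ℝ) : Prop :=
  2 ≤ del * Fintype.card G ∧ ∃ f : Fin k → AddChar G ℂ,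
    ((commonKernel f).card : ℝ) ≤ 2 * (del * Fintype.card G) ∧
      3 * eta * S.card < ((S.filter fun s => s ∈ commonKernel f).card : ℝ)

section

variable {G : Type} [AddCommGroup G] [Fintype G]

lemma commonKernel_eq {k : ℕ} (f : Fin k → AddChar G ℂ) : commonKernel f = carrier (kers f) := by
  ext x
  rw [mem_carrier, mem_kers]
  simp [commonKernel]

/-- The uniform weight on `S`. -/
def unif (S : Finset G) (s : G) : ℝ := if s ∈ S then (1 : ℝ) / S.card else 0

lemma unif_nonneg (S : Finset G) (s : G) : 0 ≤ unif S s := by
  unfold unif; split_ifs <;> positivity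

lemma unif_sum (S : Finset G) (hne : S.Nonempty) : ∑ s, unif S s = 1 := by
  have hSc : (0 : ℝ) < S.card := by exact_mod_cast hne.card_pos
  unfold unif
  rw [← Finset.sum_filter, Finset.sum_const, nsmul_eq_mul]
  have h2 : (univ.filter fun s => s ∈ S) = S := by ext; simp
  rw [h2]; field_simp

lemma unif_closed (S : Finset G)
    (hcl : ∀ s ∈ S, ∀ n : ℕ, n.Coprime (addOrderOf s) → n • s ∈ S) : PowerClosed (unif S) := by
  have hmem : ∀ (n : ℕ) (s : G), n.Coprime (addOrderOf s) → (n • s ∈ S ↔ s ∈ S) := by
    intro n s hn
    constructor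
    · intro h
      obtain ⟨m, hm⟩ := exists_nsmul_eq_self_of_coprime hn
      have hc : m.Coprime (addOrderOf (n • s)) := by
        have ho : addOrderOf (n • s) = addOrderOf s := by
          have := hn.symm
          exact this.addOrderOf_nsmul
        rw [ho]
        have h1 : addOrderOf (m • (n • s)) = addOrderOf s := by rw [hm]
        by_contra hcon
        rw [smul_smul] at h1
        have h3 : addOrderOf ((m * n) • s) = addOrderOf s / Nat.gcd (addOrderOf s) (m * n) :=
          addOrderOf_nsmul s
        rw [h3] at h1
        have hpos : 0 < addOrderOf s := addOrderOf_pos s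
        have h4 : Nat.gcd (addOrderOf s) (m * n) = 1 := by
          have hg : 0 < Nat.gcd (addOrderOf s) (m * n) := Nat.gcd_pos_of_pos_left _ hpos
          have hd := Nat.div_mul_cancel (Nat.gcd_dvd_left (addOrderOf s) (m * n))
          rw [h1] at hd
          exact Nat.eq_of_mul_eq_mul_left hpos (by rw [hd, mul_one])
        have h5 : Nat.Coprime (addOrderOf s) m := Nat.Coprime.coprime_mul_right_right h4
        exact hcon h5.symm
      have := hcl _ h m hc
      rwa [hm] at this
    · intro h; exact hcl s h n hn
  intro n s hn
  simp only [unif, hmem n s hn]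

lemma expansion_eq (S : Finset G) (hS : ∀ s ∈ S, -s ∈ S) (h0 : (0 : G) ∉ S) (B : Finset G) :
    expansion (cay S hS h0) S.card B = wexp (unif S) B := by
  unfold Pool.Agent.Results.MP_8d8c46_lc.CayleyTest.expansion wexp
  rw [Pool.Agent.Results.MP_8d8c46_lc.CayleyTest.cut_cay, ← div_div, Finset.sum_div]
  congr 1
  refine Finset.sum_congr rfl fun s _ => ?_
  simp only [unif, H562R2.CayleyIso.outCount]
  by_cases h : s ∈ S <;> simp [h]
  ring

lemma mass_unif (S : Finset G) (W : AddSubgroup G) :
    mass (unif S) W = ((S.filter fun s => s ∈ carrier W).card : ℝ) / S.card := by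
  unfold mass unif
  rw [Finset.sum_ite, Finset.sum_const_zero, add_zero, Finset.sum_const, nsmul_eq_mul]
  have : (univ.filter (fun s => s ∈ W)).filter (fun s => s ∈ S)
      = S.filter (fun s => s ∈ carrier W) := by
    ext s; simp [mem_carrier, and_comm]
  rw [this]; ring

lemma wexp_carrier (S : Finset G) (hne : S.Nonempty) (W : AddSubgroup G) :
    wexp (unif S) (carrier W) = 1 - mass (unif S) W := by
  rw [wexp_subgroup, ← unif_sum S hne]
  unfold mass
  rw [← Finset.sum_filter_add_sum_filter_not univ (fun s => s ∈ W)]
  ring

lemma structure_part (S : Finset G) (hS : ∀ s ∈ S, -s ∈ S) (h0 : (0 : G) ∉ S) (hne : S.Nonempty)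
    (hcl : ∀ s ∈ S, ∀ n : ℕ, n.Coprime (addOrderOf s) → n • s ∈ S)
    (k : ℕ) (eta : ℝ) (heta : 0 ≤ eta) (A : Finset G) (hA : A.Nonempty)
    (hAk : Fintype.card G ≤ 2 ^ (k + 1) * A.card)
    (hexp : expansion (cay S hS h0) S.card A ≤ eta) :
    ∃ f : Fin k → AddChar G ℂ, (commonKernel f).card ≤ 2 * A.card ∧
      expansion (cay S hS h0) S.card (commonKernel f) ≤ 4 * k * eta := by
  rw [expansion_eq, wexp_eq _ _ hA] at hexp
  obtain ⟨f, hf, hcard⟩ := iterate (unif S) (unif_nonneg S) (unif_closed S hcl) A hA eta heta
    hexp k
  refine ⟨f, ?_, ?_⟩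
  · rw [commonKernel_eq, card_carrier]
    rcases hcard with h | h
    · exact h
    · have h1 : 2 ^ k * Nat.card (kers f) ≤ 2 ^ k * (2 * A.card) := by
        refine h.trans (hAk.trans (le_of_eq ?_))
        ring
      exact Nat.le_of_mul_le_mul_left h1 (by positivity)
  · rw [expansion_eq, commonKernel_eq, wexp_carrier S hne]
    rw [unif_sum S hne] at hf
    linarith

end

/-- **Result.** Let `G` be a finite abelian group, `S = -S` a nonempty subset of `G ∖ {0}` which is
closed under the multiplication of its elements `s` by the integers prime to the order of `s`, and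
let `k ≥ 0`, `η ≥ 0`.

1. If `Φ(A) ≤ η` in the graph `Cay(G, S)` for a nonempty set `A` with `|G| ≤ 2^{k+1} |A|`, then the
common kernel `W` of some `k` characters of `G` satisfies `|W| ≤ 2 |A|` and `Φ(W) ≤ 4 k η`.
2. Let `(4 k + 3) η < 1`, let `δ ≤ 1`, `2^{k+1} δ ≥ 1` and let `δ |G|` be an integer. Then `Test`
(some `k` characters have a common kernel `W` with `|W| ≤ 2 δ |G|` and `|S ∩ W| > 3 η |S|`, and
`δ |G| ≥ 2`) holds if `Cay(G, S)` is a yes instance of `SSE(η, δ)` and fails if it is a no instance.
3. There are `|G|^k` families of `k` characters. -/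
theorem integral_test (G : Type) [AddCommGroup G] [Fintype G] (S : Finset G) (hS : ∀ s ∈ S, -s ∈ S)
    (h0 : (0 : G) ∉ S) (hne : S.Nonempty)
    (hcl : ∀ s ∈ S, ∀ n : ℕ, n.Coprime (addOrderOf s) → n • s ∈ S)
    (k : ℕ) (eta : ℝ) (heta : 0 ≤ eta) :
    (∀ A : Finset G, A.Nonempty → Fintype.card G ≤ 2 ^ (k + 1) * A.card →
      expansion (cay S hS h0) S.card A ≤ eta →
      ∃ f : Fin k → AddChar G ℂ, (commonKernel f).card ≤ 2 * A.card ∧
        expansion (cay S hS h0) S.card (commonKernel f) ≤ 4 * k * eta) ∧
    ((4 * k + 3) * eta < 1 → ∀ (del : ℝ) (D : ℕ), del ≤ 1 → 1 ≤ 2 ^ (k + 1) * del →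
      (D : ℝ) = del * Fintype.card G →
      (SseYes (cay S hS h0) S.card eta del → Test S k eta del) ∧
      (SseNo (cay S hS h0) S.card eta del → ¬ Test S k eta del)) ∧
    Nat.card (Fin k → AddChar G ℂ) = Fintype.card G ^ k := by
  have hSc : (0 : ℝ) < S.card := by exact_mod_cast hne.card_pos
  have hG0 : (0 : ℝ) < Fintype.card G := by exact_mod_cast Fintype.card_pos
  refine ⟨fun A hA hAk hexp => structure_part S hS h0 hne hcl k eta heta A hA hAk hexp, ?_, ?_⟩
  · intro hk del D hdel1 hdel hD
    have heta1 : eta < 1 := by
      have : (0 : ℝ) ≤ k := Nat.cast_nonneg k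
      nlinarith
    constructor
    · rintro ⟨A, hA, hAc, hle⟩
      have hAD : A.card = D := by
        have : (A.card : ℝ) = D := by rw [hAc, hD]
        exact_mod_cast this
      have hAk : Fintype.card G ≤ 2 ^ (k + 1) * A.card := by
        have h1 : (Fintype.card G : ℝ) ≤ 2 ^ (k + 1) * A.card := by
          rw [hAc]
          have := mul_le_mul_of_nonneg_right hdel hG0.le
          linarith
        exact_mod_cast h1
      -- the set has at least two elements
      have hD2 : 2 ≤ A.card := by
        by_contra hcon
        have h1 : A.card = 1 := by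
          have := hA.card_pos
          omega
        obtain ⟨a, rfl⟩ := Finset.card_eq_one.mp h1
        rw [expansion_eq, wexp_eq _ _ hA] at hle
        have h2 : ∑ s, unif S s * (1 - (stay ({a} : Finset G) s : ℝ) / ({a} : Finset G).card)
            = ∑ s, unif S s := by
          refine Finset.sum_congr rfl fun s _ => ?_
          by_cases hs : s = 0
          · subst hs
            unfold unif
            rw [if_neg h0]; ring
          · have : stay ({a} : Finset G) s = 0 := by
              unfold stay
              rw [Finset.card_eq_zero, Finset.filter_eq_empty_iff]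
              intro x hx
              rw [Finset.mem_singleton] at hx ⊢
              subst hx
              simpa using hs
            rw [this]; simp
        rw [h2, unif_sum S hne] at hle
        linarith
      obtain ⟨f, hf1, hf2⟩ := structure_part S hS h0 hne hcl k eta heta A hA hAk hle
      refine ⟨?_, f, ?_, ?_⟩
      · rw [← hAc]; exact_mod_cast hD2
      · rw [← hAc]; exact_mod_cast hf1
      · rw [expansion_eq, commonKernel_eq, wexp_carrier S hne, mass_unif] at hf2
        rw [commonKernel_eq]
        have h1 : 3 * eta < ((S.filter fun s => s ∈ carrier (kers f)).card : ℝ) / S.card := by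
          nlinarith
        rwa [lt_div_iff₀ hSc] at h1
    · rintro hno ⟨hD2, f, hf1, hf2⟩
      have hD2' : 2 ≤ D := by
        rw [← hD] at hD2; exact_mod_cast hD2
      have hDG : D ≤ Fintype.card G := by
        have : (D : ℝ) ≤ Fintype.card G := by
          rw [hD]
          have := mul_le_mul_of_nonneg_right hdel1 hG0.le
          linarith
        exact_mod_cast this
      rw [commonKernel_eq, card_carrier, ← hD] at hf1
      have hW : Nat.card (kers f) ≤ 2 * D := by exact_mod_cast hf1
      have hz : unif S (0 : G) = 0 := by unfold unif; rw [if_neg h0]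
      obtain ⟨B, hBc, hB⟩ := many_pairs (unif S) (unif_nonneg S) hz (kers f) D hD2' hDG hW
      have hBne : B.Nonempty := by rw [← Finset.card_pos, hBc]; omega
      have h1 := hno B hBne (by rw [hBc, hD])
      rw [expansion_eq, wexp_eq _ _ hBne] at h1
      have hD0 : (0 : ℝ) < D := by exact_mod_cast (by omega : 0 < D)
      have h2 : ∑ s, unif S s * (1 - (stay B s : ℝ) / B.card)
          = 1 - (∑ s, unif S s * (stay B s : ℝ)) / D := by
        have e1 : ∀ s, unif S s * (1 - (stay B s : ℝ) / B.card)
            = unif S s - unif S s * (stay B s : ℝ) / D := by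
          intro s; rw [hBc]; ring
        rw [Finset.sum_congr rfl (fun s _ => e1 s), Finset.sum_sub_distrib, unif_sum S hne,
          Finset.sum_div]
      rw [h2] at h1
      have h3 : (∑ s, unif S s * (stay B s : ℝ)) / D ≤ eta := by linarith
      rw [div_le_iff₀ hD0] at h3
      rw [commonKernel_eq] at hf2
      have h4 : 3 * eta < mass (unif S) (kers f) := by
        rw [mass_unif, lt_div_iff₀ hSc]; exact hf2
      nlinarith
  · rw [Nat.card_fun, Nat.card_eq_fintype_card, Nat.card_eq_fintype_card, Fintype.card_fin,
      AddChar.card_eq]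

end

end Pool.Agent.V7H25.SSE.IntegralTest
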