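import Pool.Agent.V7H25.SSE.Key

set_option autoImplicit false
set_option linter.unusedSectionVars false

/-!
# Small-set expansion on finite abelian groups: the optimal sets are subgroups
-/

namespace Pool.Agent.V7H25.SSE

open Finset
open scoped Classical

noncomputable section

variable {G : Type} [AddCommGroup G] [Fintype G]

/-- The logarithm of the index. -/
def cod (U : AddSubgroup G) : ℝ := Real.log (Fintype.card G) - Real.log (Nat.card U)

/-- Average of the fraction of the points that leave `A`, over the translations by unit multiples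
of `s`. -/
def wbar (N : ℕ) (A : Finset G) (s : G) : ℝ :=
  (∑ᶠ u : (ZMod N)ˣ, (1 - (stay A ((u : ZMod N).val • s) : ℝ) / A.card)) / Nat.totient N

/-- The entropy deficit. -/
def L (A : Finset G) (U : AddSubgroup G) : ℝ :=
  cod U - (∑ x ∈ A, (Real.log A.card - Real.log (cnt A U x))) / A.card

/-- All divisors of the order of `s` satisfy the isoperimetric inequality. -/
def Good (s : G) : Prop := ∀ k, k ∣ addOrderOf s → Star k

lemma stay_le_card (A : Finset G) (s : G) : stay A s ≤ A.card := Finset.card_filter_le _ _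

lemma wbar_eq (N : ℕ) [NeZero N] (A : Finset G) (s : G) :
    wbar N A s = 1 - (∑ u : (ZMod N)ˣ, (stay A ((u : ZMod N).val • s) : ℝ)) /
      ((Nat.totient N : ℝ) * A.card) := by
  have hφN : (0 : ℝ) < Nat.totient N := by
    exact_mod_cast Nat.totient_pos.mpr (Nat.pos_of_ne_zero (NeZero.ne N))
  unfold wbar
  rw [finsum_eq_sum_of_fintype, Finset.sum_sub_distrib]
  rw [Finset.sum_const, nsmul_eq_mul, mul_one, Finset.card_univ, ZMod.card_units_eq_totient,
    sub_div, div_self hφN.ne', ← Finset.sum_div]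
  rw [div_div, mul_comm (A.card : ℝ)]

lemma wbar_nonneg (N : ℕ) [NeZero N] (A : Finset G) (s : G) : 0 ≤ wbar N A s := by
  unfold wbar
  rw [finsum_eq_sum_of_fintype]
  refine div_nonneg (Finset.sum_nonneg fun u _ => ?_) (Nat.cast_nonneg _)
  rw [sub_nonneg]
  exact div_le_one_of_le₀ (by exact_mod_cast stay_le_card A _) (Nat.cast_nonneg _)

lemma wbar_le_one (N : ℕ) [NeZero N] (A : Finset G) (s : G) : wbar N A s ≤ 1 := by
  rw [wbar_eq]
  have : 0 ≤ (∑ u : (ZMod N)ˣ, (stay A ((u : ZMod N).val • s) : ℝ)) /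
      ((Nat.totient N : ℝ) * A.card) :=
    div_nonneg (Finset.sum_nonneg fun _ _ => Nat.cast_nonneg _) (by positivity)
  linarith

lemma cnt_univ (U : AddSubgroup G) (x : G) : cnt (univ : Finset G) U x = Nat.card U := by
  unfold cnt
  rw [Nat.card_eq_fintype_card, Fintype.card_subtype]
  refine Finset.card_bij (fun y _ => y - x) ?_ ?_ ?_
  · intro y hy
    simp only [Finset.mem_filter, Finset.mem_univ, true_and] at hy ⊢
    exact hy
  · intro y _ y' _ h
    simpa using h
  · intro y hy
    simp only [Finset.mem_filter, Finset.mem_univ, true_and] at hy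
    exact ⟨y + x, by simpa using hy, by simp⟩

lemma card_sup (U : AddSubgroup G) (s : G) (k : ℕ) [NeZero k]
    (hk : ∀ n : ℤ, n • s ∈ U ↔ (k : ℤ) ∣ n) :
    (Nat.card (U ⊔ AddSubgroup.zmultiples s : AddSubgroup G) : ℝ) = k * Nat.card U := by
  have h := cnt_sup (univ : Finset G) U s k hk 0
  rw [cnt_univ] at h
  simp_rw [cnt_univ] at h
  rw [h, Finset.sum_const, nsmul_eq_mul, Finset.card_univ, ZMod.card]

/-- The order of `s` modulo `U`. -/
lemma exists_order (U : AddSubgroup G) (s : G) (hs : s ∉ U) :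
    ∃ k : ℕ, 2 ≤ k ∧ k ∣ addOrderOf s ∧ ∀ n : ℤ, n • s ∈ U ↔ (k : ℤ) ∣ n := by
  refine ⟨addOrderOf (QuotientAddGroup.mk' U s), ?_, ?_, ?_⟩
  · have h0 : 0 < addOrderOf (QuotientAddGroup.mk' U s) := addOrderOf_pos _
    have h1 : addOrderOf (QuotientAddGroup.mk' U s) ≠ 1 := by
      intro h
      rw [AddMonoid.addOrderOf_eq_one_iff] at h
      exact hs ((QuotientAddGroup.eq_zero_iff s).mp h)
    omega
  · exact addOrderOf_map_dvd _ _
  · intro n
    rw [addOrderOf_dvd_iff_zsmul_eq_zero, ← map_zsmul]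
    exact (QuotientAddGroup.eq_zero_iff _).symm

lemma L_le_cod (A : Finset G) (U : AddSubgroup G) : L A U ≤ cod U := by
  unfold L
  have : 0 ≤ (∑ x ∈ A, (Real.log A.card - Real.log (cnt A U x))) / A.card := by
    refine div_nonneg (Finset.sum_nonneg fun x hx => ?_) (Nat.cast_nonneg _)
    rw [sub_nonneg]
    refine Real.log_le_log ?_ (by exact_mod_cast cnt_le A U x)
    exact_mod_cast cnt_pos A U x hx
  linarith

lemma L_step (N : ℕ) [NeZero N] (A : Finset G) (hA : A.Nonempty) (U : AddSubgroup G) (s : G)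
    (k : ℕ) [NeZero k] (hN : k ∣ N) (hstar : Star k) (hk : ∀ n : ℤ, n • s ∈ U ↔ (k : ℤ) ∣ n) :
    L A U - L A (U ⊔ AddSubgroup.zmultiples s) ≤ wbar N A s * Real.log k ∧
      cod (U ⊔ AddSubgroup.zmultiples s) = cod U - Real.log k := by
  have hA0 : (0 : ℝ) < A.card := by exact_mod_cast hA.card_pos
  have hU0 : (0 : ℝ) < Nat.card U := by exact_mod_cast Nat.card_pos
  have hk0 : (0 : ℝ) < k := by exact_mod_cast Nat.pos_of_ne_zero (NeZero.ne k)
  have hφN : (0 : ℝ) < Nat.totient N := by
    exact_mod_cast Nat.totient_pos.mpr (Nat.pos_of_ne_zero (NeZero.ne N))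
  have hcod : cod (U ⊔ AddSubgroup.zmultiples s) = cod U - Real.log k := by
    unfold cod
    rw [card_sup U s k hk, Real.log_mul hk0.ne' hU0.ne']
    ring
  refine ⟨?_, hcod⟩
  have hkey := key A U s N k hN hstar hk
  unfold L
  rw [hcod, wbar_eq]
  set S := ∑ u : (ZMod N)ˣ, (stay A ((u : ZMod N).val • s) : ℝ) with hS
  have h1 : S / ((Nat.totient N : ℝ) * A.card) * Real.log k ≤
      (∑ a ∈ A, (Real.log (cnt A (U ⊔ AddSubgroup.zmultiples s) a)
        - Real.log (cnt A U a))) / A.card := by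
    rw [le_div_iff₀ hA0]
    have : S / ((Nat.totient N : ℝ) * A.card) * Real.log k * A.card
        = (S * Real.log k) / Nat.totient N := by field_simp
    rw [this, div_le_iff₀ hφN]
    linarith
  have h2 : (∑ a ∈ A, (Real.log (cnt A (U ⊔ AddSubgroup.zmultiples s) a)
        - Real.log (cnt A U a))) / A.card
      = (∑ x ∈ A, (Real.log A.card - Real.log (cnt A U x))) / A.card
        - (∑ x ∈ A, (Real.log A.card
          - Real.log (cnt A (U ⊔ AddSubgroup.zmultiples s) x))) / A.card := by
    rw [← sub_div, ← Finset.sum_sub_distrib]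
    congr 1
    refine Finset.sum_congr rfl fun x _ => by ring
  rw [h2] at h1
  have h3 : (1 - S / ((Nat.totient N : ℝ) * A.card)) * Real.log k
      = Real.log k - S / ((Nat.totient N : ℝ) * A.card) * Real.log k := by ring
  rw [h3]
  linarith

/-- The Lagrangian value of a subgroup -/
def g (μ : G → ℝ) (lam : ℝ) (W : AddSubgroup G) : ℝ :=
  (∑ s ∈ univ.filter (fun s => s ∉ W), μ s) - lam * cod W

lemma induct (N : ℕ) [NeZero N] (hN : ∀ s : G, addOrderOf s ∣ N) (μ : G → ℝ) (hμ : ∀ s, 0 ≤ μ s)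
    (hgood : ∀ s, μ s ≠ 0 → Good s) (lam : ℝ)
    (hlam : 0 ≤ lam) (m : ℝ) (hg : ∀ W : AddSubgroup G, m ≤ g μ lam W)
    (A : Finset G) (hA : A.Nonempty) :
    ∀ (n : ℕ) (U : AddSubgroup G), Nat.card G ≤ Nat.card U + n → ∀ t : ℝ, t ≤ 1 →
      (∀ s, s ∉ U → Good s → t ≤ wbar N A s) →
      (1 - t) * m + lam * (L A U - cod U * t) ≤
        ∑ s ∈ univ.filter (fun s => s ∉ U), μ s * (wbar N A s - t) := by
  intro n
  -- the case without good elements
  have hbase : ∀ (U : AddSubgroup G) (t : ℝ), t ≤ 1 → (∀ s, s ∉ U → ¬ Good s) →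
      (1 - t) * m + lam * (L A U - cod U * t) ≤
        ∑ s ∈ univ.filter (fun s => s ∉ U), μ s * (wbar N A s - t) := by
    intro U t ht hno
    have hz : ∀ s ∈ univ.filter (fun s => s ∉ U), μ s = 0 := by
      intro s hs
      simp only [Finset.mem_filter, Finset.mem_univ, true_and] at hs
      by_contra h
      exact hno s hs (hgood s h)
    have h1 : ∑ s ∈ univ.filter (fun s => s ∉ U), μ s * (wbar N A s - t) = 0 := by
      refine Finset.sum_eq_zero fun s hs => ?_
      rw [hz s hs, zero_mul]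
    have h2 : ∑ s ∈ univ.filter (fun s => s ∉ U), μ s = 0 := Finset.sum_eq_zero hz
    have h3 := hg U
    unfold g at h3
    rw [h2] at h3
    rw [h1]
    have h4 := L_le_cod A U
    have h5 : (1 - t) * m ≤ (1 - t) * (0 - lam * cod U) :=
      mul_le_mul_of_nonneg_left h3 (by linarith)
    have h6 : lam * (L A U - cod U * t) ≤ lam * (cod U - cod U * t) :=
      mul_le_mul_of_nonneg_left (by linarith) hlam
    nlinarith
  induction n with
  | zero =>
    intro U hU t ht _
    refine hbase U t ht ?_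
    intro s hs
    exfalso
    apply hs
    have hU' : U = ⊤ := by
      apply AddSubgroup.eq_top_of_card_eq
      have := AddSubgroup.card_le_card_addGroup U
      omega
    rw [hU']; trivial
  | succ n ih =>
    intro U hU t ht hw
    by_cases hex : ∃ s, s ∉ U ∧ Good s
    swap
    · push Not at hex
      exact hbase U t ht hex
    have hne : (univ.filter (fun s : G => s ∉ U ∧ Good s)).Nonempty := by
      obtain ⟨s, hs⟩ := hex
      exact ⟨s, by simpa using hs⟩
    obtain ⟨s, hs, hmin⟩ := Finset.exists_min_image _ (fun s => wbar N A s) hne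
    simp only [Finset.mem_filter, Finset.mem_univ, true_and] at hs hmin
    obtain ⟨hsU, hsg⟩ := hs
    obtain ⟨k, hk2, hkd, hk⟩ := exists_order U s hsU
    haveI : NeZero k := ⟨by omega⟩
    obtain ⟨hst, hcod⟩ := L_step N A hA U s k (hkd.trans (hN s)) (hsg k hkd) hk
    have hcard := card_sup U s k hk
    have hcard' : Nat.card (U ⊔ AddSubgroup.zmultiples s : AddSubgroup G) = k * Nat.card U := by
      exact_mod_cast hcard
    have hUpos : 0 < Nat.card U := Nat.card_pos
    have hIH := ih (U ⊔ AddSubgroup.zmultiples s) (by rw [hcard']; nlinarith) (wbar N A s)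
      (wbar_le_one N A s)
      (fun y hy hyg => hmin y ⟨fun h => hy (AddSubgroup.mem_sup_left h), hyg⟩)
    have hgU := hg U
    unfold g at hgU
    set t' := wbar N A s with ht'
    have htt' : t ≤ t' := hw s hsU hsg
    -- splitting
    have hsplit : ∑ y ∈ univ.filter (fun y => y ∉ U), μ y * (wbar N A y - t)
        = ∑ y ∈ univ.filter (fun y => y ∉ U), μ y * (wbar N A y - t')
          + (t' - t) * ∑ y ∈ univ.filter (fun y => y ∉ U), μ y := by
      rw [Finset.mul_sum, ← Finset.sum_add_distrib]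
      refine Finset.sum_congr rfl fun y _ => by ring
    have hmono : ∑ y ∈ univ.filter (fun y => y ∉ U ⊔ AddSubgroup.zmultiples s),
          μ y * (wbar N A y - t')
        ≤ ∑ y ∈ univ.filter (fun y => y ∉ U), μ y * (wbar N A y - t') := by
      refine Finset.sum_le_sum_of_subset_of_nonneg ?_ ?_
      · intro y hy
        simp only [Finset.mem_filter, Finset.mem_univ, true_and] at hy ⊢
        exact fun h => hy (AddSubgroup.mem_sup_left h)
      · intro y hy _
        simp only [Finset.mem_filter, Finset.mem_univ, true_and] at hy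
        by_cases hy0 : μ y = 0
        · rw [hy0, zero_mul]
        · exact mul_nonneg (hμ y) (sub_nonneg.mpr (hmin y ⟨hy, hgood y hy0⟩))
    rw [hsplit]
    rw [hcod] at hIH
    have h5 : (t' - t) * (m + lam * cod U) ≤
        (t' - t) * ∑ y ∈ univ.filter (fun y => y ∉ U), μ y := by
      apply mul_le_mul_of_nonneg_left _ (by linarith)
      linarith
    have h6 : lam * (L A U - L A (U ⊔ AddSubgroup.zmultiples s)) ≤ lam * (t' * Real.log k) :=
      mul_le_mul_of_nonneg_left hst hlam
    nlinarith [hIH, h5, h6, hmono]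

/-- averaging over unit multiples -/
lemma sum_wbar (N : ℕ) [NeZero N] (hN : ∀ s : G, addOrderOf s ∣ N) (μ : G → ℝ)
    (hinv : ∀ (n : ℕ) (s : G), n.Coprime (addOrderOf s) → μ (n • s) = μ s) (A : Finset G) :
    ∑ s, μ s * wbar N A s = ∑ s, μ s * (1 - (stay A s : ℝ) / A.card) := by
  have hφN : (0 : ℝ) < Nat.totient N := by
    exact_mod_cast Nat.totient_pos.mpr (Nat.pos_of_ne_zero (NeZero.ne N))
  unfold wbar
  simp_rw [finsum_eq_sum_of_fintype]
  have h1 : ∀ s, μ s * ((∑ u : (ZMod N)ˣ, (1 - (stay A ((u : ZMod N).val • s) : ℝ) / A.card))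
        / (Nat.totient N : ℝ))
      = (∑ u : (ZMod N)ˣ, μ s * (1 - (stay A ((u : ZMod N).val • s) : ℝ) / A.card))
        / (Nat.totient N : ℝ) := by
    intro s; rw [← Finset.mul_sum]; ring
  simp_rw [h1]
  rw [← Finset.sum_div, Finset.sum_comm]
  have h2 : ∀ u : (ZMod N)ˣ, ∑ s, μ s * (1 - (stay A ((u : ZMod N).val • s) : ℝ) / A.card)
      = ∑ s, μ s * (1 - (stay A s : ℝ) / A.card) := by
    intro u
    have hcop : (u : ZMod N).val.Coprime N := ZMod.val_coe_unit_coprime u
    have e1 : ∑ s, μ s * (1 - (stay A ((u : ZMod N).val • s) : ℝ) / A.card)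
        = ∑ s, μ ((u : ZMod N).val • s) * (1 - (stay A ((u : ZMod N).val • s) : ℝ) / A.card) :=
      Finset.sum_congr rfl fun s _ => by
        rw [hinv _ s (hcop.coprime_dvd_right (hN s))]
    rw [e1]
    have hinj : Function.Injective (fun s : G => (u : ZMod N).val • s) := by
      intro a b hab
      simp only at hab
      have hN0 : ∀ c : G, N • c = 0 := fun c => addOrderOf_dvd_iff_nsmul_eq_zero.mp (hN c)
      have h3 : (u : ZMod N).val • (a - b) = 0 := by rw [smul_sub, hab, sub_self]
      have h4 : addOrderOf (a - b) ∣ (u : ZMod N).val := addOrderOf_dvd_iff_nsmul_eq_zero.mpr h3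
      have h5 : addOrderOf (a - b) ∣ N := hN _
      have h6 : addOrderOf (a - b) = 1 := Nat.eq_one_of_dvd_coprimes hcop h4 h5
      rw [AddMonoid.addOrderOf_eq_one_iff] at h6
      exact sub_eq_zero.mp h6
    exact Fintype.sum_bijective _ (Finite.injective_iff_bijective.mp hinj) _ _ (fun s => rfl)
  simp_rw [h2]
  rw [Finset.sum_const, nsmul_eq_mul, Finset.card_univ, ZMod.card_units_eq_totient]
  field_simp

/-- **Main inequality.** -/
theorem main (μ : G → ℝ) (hμ : ∀ s, 0 ≤ μ s)
    (hinv : ∀ (n : ℕ) (s : G), n.Coprime (addOrderOf s) → μ (n • s) = μ s)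
    (hgood : ∀ s, μ s ≠ 0 → Good s) (lam : ℝ) (hlam : 0 ≤ lam) :
    ∃ W : AddSubgroup G, ∀ A : Finset G, A.Nonempty →
      g μ lam W ≤ ∑ s, μ s * (1 - (stay A s : ℝ) / A.card)
        - lam * (Real.log (Fintype.card G) - Real.log A.card) := by
  obtain ⟨W, hW⟩ := Finite.exists_min (fun W : AddSubgroup G => g μ lam W)
  refine ⟨W, fun A hA => ?_⟩
  have hA0 : (0 : ℝ) < A.card := by exact_mod_cast hA.card_pos
  haveI : NeZero (Fintype.card G) := ⟨Fintype.card_ne_zero⟩
  have hN : ∀ s : G, addOrderOf s ∣ Fintype.card G := fun s => addOrderOf_dvd_card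
  have h := induct (Fintype.card G) hN μ hμ hgood lam hlam (g μ lam W) hW A hA (Nat.card G)
    (⊥ : AddSubgroup G) (by omega) 0 zero_le_one (fun s _ _ => wbar_nonneg _ A s)
  have hL : L A (⊥ : AddSubgroup G) = Real.log (Fintype.card G) - Real.log A.card := by
    unfold L cod
    have : ∀ x ∈ A, (Real.log A.card
      - Real.log (cnt A (⊥ : AddSubgroup G) x)) = Real.log A.card := by
      intro x hx; rw [cnt_bot A x hx]; simp
    rw [Finset.sum_congr rfl this, Finset.sum_const, nsmul_eq_mul]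
    simp only [AddSubgroup.card_bot, Nat.cast_one, Real.log_one, sub_zero]
    field_simp
  rw [hL] at h
  simp only [sub_zero, one_mul, mul_zero] at h
  have h2 : ∑ s ∈ univ.filter (fun s => s ∉ (⊥ : AddSubgroup G)), μ s * wbar (Fintype.card G) A s
      ≤ ∑ s, μ s * wbar (Fintype.card G) A s :=
    Finset.sum_le_sum_of_subset_of_nonneg (Finset.filter_subset _ _)
      (fun s _ _ => mul_nonneg (hμ s) (wbar_nonneg _ A s))
  rw [sum_wbar _ hN μ hinv A] at h2
  linarith

end

end Pool.Agent.V7H25.SSE
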