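import Pool.Agent.V7H25.SSE.Layer

set_option autoImplicit false
set_option linter.unusedSectionVars false

/-!
# Small-set expansion on finite abelian groups: the key inequality
-/

namespace Pool.Agent.V7H25.SSE

open Finset
open scoped Classical

noncomputable section

/-- Averages over the units modulo `N` and modulo a divisor `k` of `N`. -/
lemma units_avg (N k : ℕ) [NeZero N] [NeZero k] (h : k ∣ N) (F : (ZMod k)ˣ → ℝ) :
    (Nat.totient k : ℝ) * ∑ u : (ZMod N)ˣ, F (ZMod.unitsMap h u)
      = (Nat.totient N : ℝ) * ∑ w : (ZMod k)ˣ, F w := by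
  have hs := ZMod.unitsMap_surjective h
  have h1 : ∀ w, ∑ u : (ZMod N)ˣ, F (ZMod.unitsMap h u * w)
      = ∑ u : (ZMod N)ˣ, F (ZMod.unitsMap h u) := by
    intro w
    obtain ⟨v, rfl⟩ := hs w
    simp_rw [← map_mul]
    exact Fintype.sum_equiv (Equiv.mulRight v) _ _ (fun u => rfl)
  have h2 : ∑ w : (ZMod k)ˣ, ∑ u : (ZMod N)ˣ, F (ZMod.unitsMap h u * w)
      = (Nat.totient k : ℝ) * ∑ u : (ZMod N)ˣ, F (ZMod.unitsMap h u) := by
    simp_rw [h1]
    rw [Finset.sum_const, nsmul_eq_mul, Finset.card_univ, ZMod.card_units_eq_totient]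
  have h3 : ∑ w : (ZMod k)ˣ, ∑ u : (ZMod N)ˣ, F (ZMod.unitsMap h u * w)
      = (Nat.totient N : ℝ) * ∑ w : (ZMod k)ˣ, F w := by
    rw [Finset.sum_comm]
    have : ∀ u : (ZMod N)ˣ, ∑ w : (ZMod k)ˣ, F (ZMod.unitsMap h u * w) = ∑ w : (ZMod k)ˣ, F w := by
      intro u
      exact Fintype.sum_equiv (Equiv.mulLeft (ZMod.unitsMap h u)) _ _ (fun u => rfl)
    simp_rw [this]
    rw [Finset.sum_const, nsmul_eq_mul, Finset.card_univ, ZMod.card_units_eq_totient]
  rw [← h2, h3]

variable {G : Type} [AddCommGroup G] [Fintype G]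

/-- number of points of `A` in the coset `x + U` -/
def cnt (A : Finset G) (U : AddSubgroup G) (x : G) : ℕ := (A.filter fun z => z - x ∈ U).card

/-- number of points of `A` that stay in `A` under translation by `s` -/
def stay (A : Finset G) (s : G) : ℕ := (A.filter fun x => x + s ∈ A).card

lemma cnt_eq_sum (A : Finset G) (U : AddSubgroup G) (x : G) :
    (cnt A U x : ℝ) = ∑ z ∈ A, if z - x ∈ U then (1 : ℝ) else 0 := by
  unfold cnt
  rw [Finset.card_filter]; push_cast; rfl

lemma cnt_pos (A : Finset G) (U : AddSubgroup G) (x : G) (hx : x ∈ A) : 1 ≤ cnt A U x := by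
  unfold cnt
  rw [Nat.one_le_iff_ne_zero]
  intro h
  rw [Finset.card_eq_zero, Finset.filter_eq_empty_iff] at h
  exact h hx (by simp [U.zero_mem])

lemma cnt_le (A : Finset G) (U : AddSubgroup G) (x : G) : cnt A U x ≤ A.card :=
  Finset.card_filter_le _ _

lemma cnt_top (A : Finset G) (x : G) : cnt A (⊤ : AddSubgroup G) x = A.card := by
  unfold cnt; simp

lemma cnt_bot (A : Finset G) (x : G) (hx : x ∈ A) : cnt A (⊥ : AddSubgroup G) x = 1 := by
  unfold cnt
  have : (A.filter fun z => z - x ∈ (⊥ : AddSubgroup G)) = {x} := by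
    ext z
    simp only [Finset.mem_filter, AddSubgroup.mem_bot, sub_eq_zero, Finset.mem_singleton]
    constructor
    · rintro ⟨_, h⟩; exact h
    · rintro rfl; exact ⟨hx, rfl⟩
  rw [this]; simp

lemma cnt_congr (A : Finset G) (U : AddSubgroup G) (x y : G) (h : x - y ∈ U) :
    cnt A U x = cnt A U y := by
  unfold cnt
  congr 1
  ext z
  simp only [Finset.mem_filter]
  constructor
  · rintro ⟨h1, h2⟩
    refine ⟨h1, ?_⟩
    have : z - y = (z - x) + (x - y) := by abel
    rw [this]; exact U.add_mem h2 h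
  · rintro ⟨h1, h2⟩
    refine ⟨h1, ?_⟩
    have : z - x = (z - y) - (x - y) := by abel
    rw [this]; exact U.sub_mem h2 h

lemma shift_mem (U : AddSubgroup G) (s : G) (k : ℕ)
    (hk : ∀ n : ℤ, n • s ∈ U ↔ (k : ℤ) ∣ n) (m n : ℕ) (h : (m : ZMod k) = (n : ZMod k)) :
    m • s - n • s ∈ U := by
  have : m • s - n • s = ((m : ℤ) - n) • s := by rw [sub_smul]; simp
  rw [this, hk]
  have h2 : (((m : ℤ) - n : ℤ) : ZMod k) = 0 := by push_cast; rw [h]; ring
  exact (ZMod.intCast_zmod_eq_zero_iff_dvd _ _).mp h2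

lemma cnt_shift (A : Finset G) (U : AddSubgroup G) (s : G) (k : ℕ)
    (hk : ∀ n : ℤ, n • s ∈ U ↔ (k : ℤ) ∣ n) (x : G) (m n : ℕ)
    (h : (m : ZMod k) = (n : ZMod k)) :
    cnt A U (x + m • s) = cnt A U (x + n • s) := by
  apply cnt_congr
  have : x + m • s - (x + n • s) = m • s - n • s := by abel
  rw [this]
  exact shift_mem U s k hk m n h

/-- The coset of the bigger group is the disjoint union of `k` cosets of the smaller one. -/
lemma cnt_sup (A : Finset G) (U : AddSubgroup G) (s : G) (k : ℕ) [NeZero k]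
    (hk : ∀ n : ℤ, n • s ∈ U ↔ (k : ℤ) ∣ n) (x : G) :
    (cnt A (U ⊔ AddSubgroup.zmultiples s) x : ℝ)
      = ∑ j : ZMod k, (cnt A U (x + j.val • s) : ℝ) := by
  rw [cnt_eq_sum]
  simp_rw [cnt_eq_sum]
  rw [Finset.sum_comm]
  refine Finset.sum_congr rfl fun z _ => ?_
  split_ifs with h
  · rw [AddSubgroup.mem_sup] at h
    obtain ⟨u, hu, y, hy, hyz⟩ := h
    rw [AddSubgroup.mem_zmultiples_iff] at hy
    obtain ⟨n, rfl⟩ := hy
    have h1 : ∀ j : ZMod k, (z - (x + j.val • s) ∈ U) ↔ j = (n : ZMod k) := by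
      intro j
      have e : z - (x + j.val • s) = u + (n - (j.val : ℤ)) • s := by
        have : z - (x + j.val • s) = (z - x) - j.val • s := by abel
        rw [this, ← hyz, sub_smul]
        simp only [natCast_zsmul]
        abel
      rw [e]
      have e2 : (u + (n - (j.val : ℤ)) • s ∈ U) ↔ ((n - (j.val : ℤ)) • s ∈ U) :=
        ⟨fun h => by simpa using U.sub_mem h hu, fun h => U.add_mem hu h⟩
      rw [e2, hk, ← ZMod.intCast_zmod_eq_zero_iff_dvd]
      push_cast
      rw [ZMod.natCast_zmod_val, sub_eq_zero]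
      exact eq_comm
    simp_rw [h1]
    rw [Finset.sum_ite_eq' univ]
    simp
  · symm
    apply Finset.sum_eq_zero
    intro j _
    rw [if_neg]
    intro h2
    apply h
    have : z - x = (z - (x + j.val • s)) + j.val • s := by abel
    rw [this]
    exact AddSubgroup.add_mem _ (AddSubgroup.mem_sup_left h2)
      (AddSubgroup.mem_sup_right (AddSubgroup.nsmul_mem _ (AddSubgroup.mem_zmultiples s) _))

/-- Translations and minima of the numbers of points in the cosets. -/
lemma stay_le (A : Finset G) (U : AddSubgroup G) (v : G) :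
    (Nat.card U : ℝ) * stay A v ≤ ∑ x : G, ((min (cnt A U x) (cnt A U (x + v)) : ℕ) : ℝ) := by
  have h1 : (Nat.card U : ℝ) * stay A v
      = ∑ x : G, (((A.filter fun a => a - x ∈ U ∧ a + v ∈ A).card : ℕ) : ℝ) := by
    simp_rw [Finset.card_filter]
    push_cast
    rw [Finset.sum_comm]
    unfold stay
    rw [Finset.card_filter]
    push_cast
    rw [Finset.mul_sum]
    refine Finset.sum_congr rfl fun a _ => ?_
    by_cases h : a + v ∈ A
    · simp only [h, and_true, if_true, mul_one]
      rw [← Finset.sum_filter, Finset.sum_const, nsmul_eq_mul, mul_one]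
      congr 1
      rw [Nat.card_eq_fintype_card, Fintype.card_subtype]
      refine Finset.card_bij (fun y _ => a - y) ?_ ?_ ?_
      · intro y hy
        simp only [Finset.mem_filter, Finset.mem_univ, true_and] at hy ⊢
        simpa using hy
      · intro y _ y' _ h
        simpa using h
      · intro y hy
        simp only [Finset.mem_filter, Finset.mem_univ, true_and] at hy
        exact ⟨a - y, by simpa using hy, by simp⟩
    · simp [h]
  rw [h1]
  refine Finset.sum_le_sum fun x _ => ?_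
  rw [Nat.cast_le, le_min_iff]
  constructor
  · unfold cnt
    refine Finset.card_le_card ?_
    intro a ha
    simp only [Finset.mem_filter] at ha ⊢
    exact ⟨ha.1, ha.2.1⟩
  · unfold cnt
    refine Finset.card_le_card_of_injOn (fun a => a + v) ?_ ?_
    · intro a ha
      simp only [Finset.coe_filter, Set.mem_ofPred_eq] at ha ⊢
      refine ⟨ha.2.2, ?_⟩
      have : a + v - (x + v) = a - x := by abel
      rw [this]; exact ha.2.1
    · intro a _ b _ h
      simpa using h

/-- **Key inequality.** -/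
lemma key (A : Finset G) (U : AddSubgroup G) (s : G) (N k : ℕ) [NeZero N] [NeZero k]
    (hN : k ∣ N) (hstar : Star k) (hk : ∀ n : ℤ, n • s ∈ U ↔ (k : ℤ) ∣ n) :
    (∑ u : (ZMod N)ˣ, (stay A ((u : ZMod N).val • s) : ℝ)) * Real.log k ≤
      (Nat.totient N : ℝ) * ∑ a ∈ A, (Real.log (cnt A (U ⊔ AddSubgroup.zmultiples s) a)
        - Real.log (cnt A U a)) := by
  have hklog : (0 : ℝ) ≤ Real.log k := Real.log_natCast_nonneg k
  have hU0 : (0 : ℝ) < Nat.card U := by exact_mod_cast Nat.card_pos
  have hk0 : (0 : ℝ) < k := by exact_mod_cast Nat.pos_of_ne_zero (NeZero.ne k)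
  have hφk : (0 : ℝ) < Nat.totient k := by
    exact_mod_cast Nat.totient_pos.mpr (Nat.pos_of_ne_zero (NeZero.ne k))
  have hφN : (0 : ℝ) < Nat.totient N := by
    exact_mod_cast Nat.totient_pos.mpr (Nat.pos_of_ne_zero (NeZero.ne N))
  set U' := U ⊔ AddSubgroup.zmultiples s with hU'
  let F : (ZMod k)ˣ → ℝ := fun w =>
    ∑ x : G, ((min (cnt A U x) (cnt A U (x + (w : ZMod k).val • s)) : ℕ) : ℝ)
  -- step 1 and 2
  have h1 : (Nat.card U : ℝ) * ∑ u : (ZMod N)ˣ, (stay A ((u : ZMod N).val • s) : ℝ)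
      ≤ ∑ u : (ZMod N)ˣ, F (ZMod.unitsMap hN u) := by
    rw [Finset.mul_sum]
    refine Finset.sum_le_sum fun u _ => ?_
    refine (stay_le A U _).trans (le_of_eq ?_)
    simp only [F]
    refine Finset.sum_congr rfl fun x _ => ?_
    rw [cnt_shift A U s k hk x (u : ZMod N).val ((ZMod.unitsMap hN u : (ZMod k)ˣ) : ZMod k).val]
    rw [ZMod.natCast_zmod_val, ZMod.unitsMap_val]
    rw [ZMod.natCast_val]
  have h2 := units_avg N k hN F
  -- step 3
  have h3 : (k : ℝ) * ∑ w : (ZMod k)ˣ, F w = ∑ x : G, ∑ w : (ZMod k)ˣ, ∑ j : ZMod k,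
      ((min (cnt A U (x + j.val • s)) (cnt A U (x + (j + (w : ZMod k)).val • s)) : ℕ) : ℝ) := by
    symm
    rw [Finset.sum_comm, Finset.mul_sum]
    refine Finset.sum_congr rfl fun w _ => ?_
    rw [Finset.sum_comm]
    have : ∀ j : ZMod k, ∑ x : G,
        ((min (cnt A U (x + j.val • s)) (cnt A U (x + (j + (w : ZMod k)).val • s)) : ℕ) : ℝ)
        = F w := by
      intro j
      simp only [F]
      refine Fintype.sum_equiv (Equiv.addRight (j.val • s)) _ _ fun x => ?_
      simp only [Equiv.coe_addRight]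
      congr 2
      have : x + j.val • s + (w : ZMod k).val • s = x + (j.val + (w : ZMod k).val) • s := by
        rw [add_smul]; abel
      rw [this]
      apply cnt_shift A U s k hk
      push_cast
      simp
    simp_rw [this]
    rw [Finset.sum_const, nsmul_eq_mul, Finset.card_univ, ZMod.card]
  -- step 4
  have h4 : ∀ x : G, (∑ w : (ZMod k)ˣ, ∑ j : ZMod k,
      ((min (cnt A U (x + j.val • s)) (cnt A U (x + (j + (w : ZMod k)).val • s)) : ℕ) : ℝ))
        * Real.log k ≤ (Nat.totient k : ℝ) * ∑ j : ZMod k, (cnt A U (x + j.val • s) : ℝ) *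
          (Real.log (cnt A U' x) - Real.log (cnt A U (x + j.val • s))) := by
    intro x
    have := layer k hstar (fun j => cnt A U (x + j.val • s))
    rw [← cnt_sup A U s k hk x] at this
    exact this
  -- step 5
  have h5 : ∑ x : G, ∑ j : ZMod k, (cnt A U (x + j.val • s) : ℝ) *
      (Real.log (cnt A U' x) - Real.log (cnt A U (x + j.val • s)))
      = (k : ℝ) * ((Nat.card U : ℝ) * ∑ a ∈ A, (Real.log (cnt A U' a) - Real.log (cnt A U a))) := by
    rw [Finset.sum_comm]
    have e1 : ∀ j : ZMod k, ∑ x : G, (cnt A U (x + j.val • s) : ℝ) *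
      (Real.log (cnt A U' x) - Real.log (cnt A U (x + j.val • s)))
      = ∑ x : G, (cnt A U x : ℝ) * (Real.log (cnt A U' x) - Real.log (cnt A U x)) := by
      intro j
      refine Fintype.sum_equiv (Equiv.addRight (j.val • s)) _ _ fun x => ?_
      simp only [Equiv.coe_addRight]
      rw [cnt_congr A U' (x + j.val • s) x]
      have : x + j.val • s - x = j.val • s := by abel
      rw [this]
      exact AddSubgroup.mem_sup_right (AddSubgroup.nsmul_mem _ (AddSubgroup.mem_zmultiples s) _)
    simp_rw [e1]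
    rw [Finset.sum_const, nsmul_eq_mul, Finset.card_univ, ZMod.card]
    congr 1
    -- sum over x of cnt
    have e2 : ∀ x : G, (cnt A U x : ℝ) * (Real.log (cnt A U' x) - Real.log (cnt A U x))
        = ∑ a ∈ A, if a - x ∈ U then (Real.log (cnt A U' a) - Real.log (cnt A U a)) else 0 := by
      intro x
      rw [cnt_eq_sum, Finset.sum_mul]
      refine Finset.sum_congr rfl fun a _ => ?_
      split_ifs with h
      · rw [one_mul, cnt_congr A U a x h, cnt_congr A U' a x (AddSubgroup.mem_sup_left h)]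
        rw [← cnt_eq_sum]
      · ring
    simp_rw [e2]
    rw [Finset.sum_comm, Finset.mul_sum]
    refine Finset.sum_congr rfl fun a _ => ?_
    rw [← Finset.sum_filter, Finset.sum_const, nsmul_eq_mul]
    congr 2
    rw [Nat.card_eq_fintype_card, Fintype.card_subtype]
    refine Finset.card_bij (fun y _ => a - y) ?_ ?_ ?_
    · intro y hy
      simp only [Finset.mem_filter, Finset.mem_univ, true_and] at hy ⊢
      exact hy
    · intro y _ y' _ h
      simpa using h
    · intro y hy
      simp only [Finset.mem_filter, Finset.mem_univ, true_and] at hy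
      exact ⟨a - y, by simpa using hy, by simp⟩
  -- combine
  have h6 : (k : ℝ) * (∑ w : (ZMod k)ˣ, F w) * Real.log k ≤ (Nat.totient k : ℝ) *
      ((k : ℝ) * ((Nat.card U : ℝ) * ∑ a ∈ A, (Real.log (cnt A U' a) - Real.log (cnt A U a)))) := by
    rw [h3, ← h5, Finset.sum_mul, Finset.mul_sum]
    exact Finset.sum_le_sum fun x _ => h4 x
  set E := ∑ a ∈ A, (Real.log (cnt A U' a) - Real.log (cnt A U a)) with hE
  set S := ∑ u : (ZMod N)ˣ, (stay A ((u : ZMod N).val • s) : ℝ) with hS
  set P := ∑ w : (ZMod k)ˣ, F w with hP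
  set Q := ∑ u : (ZMod N)ˣ, F (ZMod.unitsMap hN u) with hQ
  -- h1 : card U * S ≤ Q;  h2 : φ k * Q = φ N * P; h6 : k * P * log k ≤ φ k * (k * (card U * E))
  have h7 : P * Real.log k ≤ (Nat.totient k : ℝ) * ((Nat.card U : ℝ) * E) := by
    have : (k : ℝ) * (P * Real.log k) ≤ (k : ℝ) * ((Nat.totient k : ℝ) * ((Nat.card U : ℝ) * E)) := by
      nlinarith [h6]
    exact le_of_mul_le_mul_left this hk0
  have h8 : (Nat.totient k : ℝ) * (Nat.card U : ℝ) * (S * Real.log k)
      ≤ (Nat.totient k : ℝ) * (Nat.card U : ℝ) * ((Nat.totient N : ℝ) * E) := by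
    calc (Nat.totient k : ℝ) * (Nat.card U : ℝ) * (S * Real.log k)
        = ((Nat.totient k : ℝ) * Real.log k) * ((Nat.card U : ℝ) * S) := by ring
      _ ≤ ((Nat.totient k : ℝ) * Real.log k) * Q :=
          mul_le_mul_of_nonneg_left h1 (mul_nonneg hφk.le hklog)
      _ = (Nat.totient N : ℝ) * (P * Real.log k) := by
          have : (Nat.totient k : ℝ) * Real.log k * Q = ((Nat.totient k : ℝ) * Q) * Real.log k := by
            ring
          rw [this, h2]; ring
      _ ≤ (Nat.totient N : ℝ) * ((Nat.totient k : ℝ) * ((Nat.card U : ℝ) * E)) :=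
          mul_le_mul_of_nonneg_left h7 hφN.le
      _ = (Nat.totient k : ℝ) * (Nat.card U : ℝ) * ((Nat.totient N : ℝ) * E) := by ring
  exact le_of_mul_le_mul_left h8 (mul_pos hφk hU0)

end

end Pool.Agent.V7H25.SSE
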