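import Mathlib

set_option autoImplicit false
set_option linter.unusedSectionVars false

/-!
# Small-set expansion on finite abelian groups: the layer inequality
-/

namespace Pool.Agent.V7H25.SSE

open Finset
open scoped Classical

noncomputable section

/-- The isoperimetric inequality for the unitary Cayley graph of `ZMod k`:
the number of ordered pairs in `R` whose difference is a unit is at most
`φ(k) |R| log |R| / log k`. -/
def Star (k : ℕ) : Prop :=
  ∀ R : Finset (ZMod k), R.Nonempty →
    (∑ᶠ u : (ZMod k)ˣ, ((R.filter fun j => j + (u : ZMod k) ∈ R).card : ℝ)) * Real.log k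
      ≤ (Nat.totient k : ℝ) * (R.card * Real.log R.card)

lemma min_eq_sum (a b T : ℕ) (ha : a ≤ T) :
    ((min a b : ℕ) : ℝ) = ∑ t ∈ range T, if t < a ∧ t < b then (1 : ℝ) else 0 := by
  rw [← Finset.sum_filter, Finset.sum_const, nsmul_eq_mul, mul_one]
  congr 1
  have : (range T).filter (fun t => t < a ∧ t < b) = range (min a b) := by
    ext t
    simp only [Finset.mem_filter, Finset.mem_range, lt_min_iff]
    constructor
    · rintro ⟨_, h⟩; exact h
    · rintro ⟨h1, h2⟩; exact ⟨by omega, h1, h2⟩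
  rw [this, Finset.card_range]

lemma self_eq_sum (a T : ℕ) (ha : a ≤ T) :
    (a : ℝ) = ∑ t ∈ range T, if t < a then (1 : ℝ) else 0 := by
  have := min_eq_sum a a T ha
  simpa using this

/-- The layer inequality. -/
lemma layer (k : ℕ) [NeZero k] (h : Star k) (β : ZMod k → ℕ) :
    (∑ u : (ZMod k)ˣ, ∑ j, ((min (β j) (β (j + (u : ZMod k))) : ℕ) : ℝ)) * Real.log k ≤
      (Nat.totient k : ℝ) * ∑ j, (β j : ℝ) * (Real.log (∑ i, (β i : ℝ)) - Real.log (β j)) := by
  set T := ∑ i, β i with hT
  have hle : ∀ j, β j ≤ T := fun j => Finset.single_le_sum (fun i _ => Nat.zero_le _) (Finset.mem_univ j)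
  let R : ℕ → Finset (ZMod k) := fun t => univ.filter fun j => t < β j
  have hk : (0 : ℝ) ≤ Real.log k := Real.log_natCast_nonneg k
  -- the left side
  have h1 : (∑ u : (ZMod k)ˣ, ∑ j, ((min (β j) (β (j + (u : ZMod k))) : ℕ) : ℝ))
      = ∑ t ∈ range T, ∑ u : (ZMod k)ˣ, (((R t).filter fun j => j + (u : ZMod k) ∈ R t).card : ℝ) := by
    symm
    rw [Finset.sum_comm]
    refine Finset.sum_congr rfl fun u _ => ?_
    symm
    simp_rw [fun j => min_eq_sum (β j) (β (j + (u : ZMod k))) T (hle j)]
    rw [Finset.sum_comm]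
    refine Finset.sum_congr rfl fun t _ => ?_
    rw [← Finset.sum_filter, Finset.sum_const, nsmul_eq_mul, mul_one]
    congr 2
    ext j
    simp [R]
  rw [h1, Finset.sum_mul]
  have h2 : ∀ t ∈ range T,
      (∑ u : (ZMod k)ˣ, (((R t).filter fun j => j + (u : ZMod k) ∈ R t).card : ℝ)) * Real.log k
        ≤ (Nat.totient k : ℝ) * ((R t).card * Real.log (R t).card) := by
    intro t _
    rcases (R t).eq_empty_or_nonempty with he | hne
    · rw [he]; simp
    · have := h (R t) hne
      rwa [finsum_eq_sum_of_fintype] at this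
  refine (Finset.sum_le_sum h2).trans ?_
  rw [← Finset.mul_sum]
  refine mul_le_mul_of_nonneg_left ?_ (Nat.cast_nonneg _)
  have h3 : ∀ t, ((R t).card : ℝ) * Real.log (R t).card
      = ∑ j, if t < β j then Real.log (R t).card else 0 := by
    intro t
    rw [← Finset.sum_filter, Finset.sum_const, nsmul_eq_mul]
  simp_rw [h3]
  rw [Finset.sum_comm]
  refine Finset.sum_le_sum fun j _ => ?_
  rcases Nat.eq_zero_or_pos (β j) with h0 | hpos
  · simp [h0]
  have hsum : ∑ t ∈ range T, ((R t).card : ℝ) = ∑ i, (β i : ℝ) := by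
    have e1 : ∀ t, ((R t).card : ℝ) = ∑ i, if t < β i then (1 : ℝ) else 0 := by
      intro t
      rw [← Finset.sum_filter, Finset.sum_const, nsmul_eq_mul, mul_one]
    simp_rw [e1]
    rw [Finset.sum_comm]
    refine Finset.sum_congr rfl fun i _ => ?_
    exact (self_eq_sum (β i) T (hle i)).symm
  set B : ℝ := ∑ i, (β i : ℝ) with hB
  have hb : (0 : ℝ) < β j := by exact_mod_cast hpos
  have hBb : (β j : ℝ) ≤ B := by
    rw [hB]
    exact Finset.single_le_sum (fun i _ => Nat.cast_nonneg _) (Finset.mem_univ j)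
  have hB0 : 0 < B := lt_of_lt_of_le hb hBb
  have e2 : (∑ t ∈ range T, if t < β j then Real.log (R t).card else 0)
      = ∑ t ∈ range (β j), Real.log (R t).card := by
    rw [← Finset.sum_filter]
    congr 1
    ext t
    simp only [Finset.mem_filter, Finset.mem_range]
    exact ⟨fun h => h.2, fun h => ⟨lt_of_lt_of_le h (hle j), h⟩⟩
  rw [e2]
  have e3 : ∀ t ∈ range (β j), Real.log (R t).card
      ≤ (Real.log B - Real.log (β j)) + ((R t).card * (β j / B) - 1) := by
    intro t ht
    rw [Finset.mem_range] at ht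
    have hR : (0 : ℝ) < (R t).card := by
      have : j ∈ R t := by simp [R, ht]
      exact_mod_cast Finset.card_pos.mpr ⟨j, this⟩
    have hlog := Real.log_le_sub_one_of_pos (mul_pos hR (div_pos hb hB0))
    rw [Real.log_mul hR.ne' (div_pos hb hB0).ne', Real.log_div hb.ne' hB0.ne'] at hlog
    linarith
  refine (Finset.sum_le_sum e3).trans ?_
  rw [Finset.sum_add_distrib, Finset.sum_sub_distrib (fun x : ℕ => ((R x).card : ℝ) * (β j / B)),
    ← Finset.sum_mul]
  simp only [Finset.sum_const, Finset.card_range, nsmul_eq_mul, mul_one]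
  have e4 : ∑ t ∈ range (β j), ((R t).card : ℝ) ≤ B := by
    rw [← hsum]
    refine Finset.sum_le_sum_of_subset_of_nonneg ?_ (fun _ _ _ => Nat.cast_nonneg _)
    intro t ht
    rw [Finset.mem_range] at ht ⊢
    exact lt_of_lt_of_le ht (hle j)
  have e5 : (∑ t ∈ range (β j), ((R t).card : ℝ)) * (β j / B) ≤ β j := by
    calc (∑ t ∈ range (β j), ((R t).card : ℝ)) * (β j / B) ≤ B * (β j / B) :=
          mul_le_mul_of_nonneg_right e4 (div_pos hb hB0).le
      _ = β j := by field_simp
  linarith

end

end Pool.Agent.V7H25.SSE
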