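import Pool.Agent.V7H25.SSE.Defs

set_option autoImplicit false
set_option linter.unusedSectionVars false

/-!
# Groups with an element of order 6: subgroups are not always optimal
-/

namespace Pool.Agent.V7H25.SSE

open Finset
open scoped Classical

noncomputable section

variable {G : Type} [AddCommGroup G] [Fintype G]

/-- A character of order 6 with a value of order 6. -/
lemma exists_char6 (h6 : 6 ∣ Fintype.card G) :
    ∃ ψ : AddChar G ℂ, (∀ x, ψ x ^ 6 = 1) ∧ ∃ s, IsPrimitiveRoot (ψ s) 6 := by
  have hc : Fintype.card (AddChar G ℂ) = Fintype.card G := AddChar.card_eq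
  have : Fact (Nat.Prime 2) := ⟨Nat.prime_two⟩
  have : Fact (Nat.Prime 3) := ⟨Nat.prime_three⟩
  obtain ⟨ψ₁, h1⟩ := exists_prime_orderOf_dvd_card (G := AddChar G ℂ) 2
    (by rw [hc]; exact (by norm_num : (2 : ℕ) ∣ 6).trans h6)
  obtain ⟨ψ₂, h2⟩ := exists_prime_orderOf_dvd_card (G := AddChar G ℂ) 3
    (by rw [hc]; exact (by norm_num : (3 : ℕ) ∣ 6).trans h6)
  have e1 : ∀ x, ψ₁ x ^ 2 = 1 := by
    intro x
    have := pow_orderOf_eq_one ψ₁
    rw [h1] at this
    have h := congrArg (fun f : AddChar G ℂ => f x) this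
    simpa using h
  have e2 : ∀ x, ψ₂ x ^ 3 = 1 := by
    intro x
    have := pow_orderOf_eq_one ψ₂
    rw [h2] at this
    have h := congrArg (fun f : AddChar G ℂ => f x) this
    simpa using h
  have n1 : ∃ x, ψ₁ x ≠ 1 := by
    by_contra hcon
    push Not at hcon
    have : ψ₁ = 1 := by ext x; simpa using hcon x
    rw [this, orderOf_one] at h1
    norm_num at h1
  have n2 : ∃ x, ψ₂ x ≠ 1 := by
    by_contra hcon
    push Not at hcon
    have : ψ₂ = 1 := by ext x; simpa using hcon x
    rw [this, orderOf_one] at h2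
    norm_num at h2
  obtain ⟨x1, hx1⟩ := n1
  obtain ⟨x2, hx2⟩ := n2
  refine ⟨ψ₁ * ψ₂, ?_, 3 • x1 + 4 • x2, ?_⟩
  · intro x
    rw [AddChar.mul_apply, mul_pow]
    have a : ψ₁ x ^ 6 = 1 := by
      calc ψ₁ x ^ 6 = (ψ₁ x ^ 2) ^ 3 := by ring
        _ = 1 := by rw [e1]; norm_num
    have b : ψ₂ x ^ 6 = 1 := by
      calc ψ₂ x ^ 6 = (ψ₂ x ^ 3) ^ 2 := by ring
        _ = 1 := by rw [e2]; norm_num
    rw [a, b, one_mul]
  · have a : ψ₁ (3 • x1 + 4 • x2) = ψ₁ x1 := by
      rw [AddChar.map_add_eq_mul, AddChar.map_nsmul_eq_pow, AddChar.map_nsmul_eq_pow]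
      calc ψ₁ x1 ^ 3 * ψ₁ x2 ^ 4 = (ψ₁ x1 ^ 2) * ψ₁ x1 * (ψ₁ x2 ^ 2) ^ 2 := by ring
        _ = ψ₁ x1 := by rw [e1, e1]; ring
    have b : ψ₂ (3 • x1 + 4 • x2) = ψ₂ x2 := by
      rw [AddChar.map_add_eq_mul, AddChar.map_nsmul_eq_pow, AddChar.map_nsmul_eq_pow]
      calc ψ₂ x1 ^ 3 * ψ₂ x2 ^ 4 = (ψ₂ x1 ^ 3) * ψ₂ x2 * (ψ₂ x2 ^ 3) := by ring
        _ = ψ₂ x2 := by rw [e2, e2]; ring
    rw [AddChar.mul_apply, a, b]
    have o1 : orderOf (ψ₁ x1) = 2 := orderOf_eq_prime (e1 x1) hx1
    have o2 : orderOf (ψ₂ x2) = 3 := orderOf_eq_prime (e2 x2) hx2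
    have o : orderOf (ψ₁ x1 * ψ₂ x2) = 6 := by
      rw [(Commute.all _ _).orderOf_mul_eq_mul_orderOf_of_coprime (by rw [o1, o2]; norm_num),
        o1, o2]
    rw [← o]
    exact IsPrimitiveRoot.orderOf _

lemma char_ne_zero (ψ : AddChar G ℂ) (x : G) : ψ x ≠ 0 := by
  intro h
  have h1 : ψ (x + -x) = ψ x * ψ (-x) := AddChar.map_add_eq_mul ψ x (-x)
  rw [add_neg_cancel, AddChar.map_zero_eq_one, h, zero_mul] at h1
  exact one_ne_zero h1

/-- The weight. -/
def wt (ψ : AddChar G ℂ) (M : ℝ) (x : G) : ℝ :=
  if orderOf (ψ x) = 1 then M else if orderOf (ψ x) = 6 then 1 else 0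

lemma wt_powerClosed (ψ : AddChar G ℂ) (M : ℝ) : PowerClosed (wt ψ M) := by
  intro n s hn
  have hd : orderOf (ψ s) ∣ addOrderOf s := by
    rw [orderOf_dvd_iff_pow_eq_one, ← AddChar.map_nsmul_eq_pow, addOrderOf_nsmul_eq_zero,
      AddChar.map_zero_eq_one]
  have hc : (orderOf (ψ s)).Coprime n := (hn.coprime_dvd_right hd).symm
  have h : orderOf (ψ (n • s)) = orderOf (ψ s) := by
    rw [AddChar.map_nsmul_eq_pow]
    exact hc.orderOf_pow
  unfold wt
  rw [h]

lemma fiber_card (ψ : AddChar G ℂ) (s : G) :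
    (univ.filter fun x => ψ x = ψ s).card = (univ.filter fun x => ψ x = 1).card := by
  refine Finset.card_bij (fun x _ => x - s) ?_ ?_ ?_
  · intro x hx
    simp only [Finset.mem_filter, Finset.mem_univ, true_and] at hx ⊢
    rw [AddChar.map_sub_eq_div, hx]
    exact div_self (char_ne_zero ψ s)
  · intro x _ y _ h
    simpa using h
  · intro y hy
    simp only [Finset.mem_filter, Finset.mem_univ, true_and] at hy
    refine ⟨y + s, ?_, by simp⟩
    simp [AddChar.map_add_eq_mul, hy]

theorem sharp (h6 : 6 ∣ Fintype.card G) :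
    ∃ μ : G → ℝ, (∀ s, 0 ≤ μ s) ∧ PowerClosed μ ∧ ∃ A : Finset G, A.Nonempty ∧ A ≠ univ ∧
      ∀ W : AddSubgroup G, W ≠ ⊤ →
        wexp μ A / lsize A < wexp μ (carrier W) / lsize (carrier W) := by
  obtain ⟨ψ, hψ6, s, hs⟩ := exists_char6 h6
  set ζ := ψ s with hζ
  set K : Finset G := univ.filter fun x => ψ x = 1 with hK
  set κ : ℕ := K.card with hκ
  have hκ0 : 0 < κ := by
    rw [hκ, Finset.card_pos]
    exact ⟨0, by simp [hK]⟩
  have hκR : (0 : ℝ) < κ := by exact_mod_cast hκ0
  have hκ1 : (1 : ℝ) ≤ κ := by exact_mod_cast hκ0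
  -- all values are powers of ζ
  have hval : ∀ x, ∃ i < 6, ζ ^ i = ψ x := fun x => hs.eq_pow_of_pow_eq_one (hψ6 x)
  have hfib : ∀ i : ℕ, (univ.filter fun x => ψ x = ζ ^ i).card = κ := by
    intro i
    have := fiber_card ψ (i • s)
    rw [AddChar.map_nsmul_eq_pow] at this
    exact this
  have hinj : ∀ i < 6, ∀ j < 6, ζ ^ i = ζ ^ j → i = j := fun i hi j hj h => hs.pow_inj hi hj h
  -- the cardinality of G
  have hcard : Fintype.card G = 6 * κ := by
    have h1 : (univ : Finset G).card = ∑ i ∈ range 6, (univ.filter fun x => ψ x = ζ ^ i).card := by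
      rw [← Finset.card_biUnion]
      · congr 1
        ext x
        simp only [Finset.mem_univ, Finset.mem_biUnion, Finset.mem_range, Finset.mem_filter,
          true_and, true_iff]
        obtain ⟨i, hi, h⟩ := hval x
        exact ⟨i, hi, h.symm⟩
      · intro i hi j hj hij
        refine Finset.disjoint_left.mpr ?_
        intro x hx hx'
        simp only [Finset.mem_filter, Finset.mem_univ, true_and] at hx hx'
        exact hij (hinj i (Finset.mem_range.mp hi) j (Finset.mem_range.mp hj) (hx.symm.trans hx'))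
    rw [Finset.card_univ] at h1
    rw [h1, Finset.sum_congr rfl (fun i _ => hfib i)]
    simp
  have hcardR : (Fintype.card G : ℝ) = 6 * κ := by exact_mod_cast hcard
  set A : Finset G := univ.filter fun x => ψ x = 1 ∨ ψ x = ζ with hA
  have h1ζ : (1 : ℂ) ≠ ζ := by
    intro h
    have := hinj 0 (by norm_num) 1 (by norm_num) (by simpa using h)
    omega
  have hAK : A = K ∪ univ.filter fun x => ψ x = ζ := by
    ext x; simp [hA, hK]
  have hAcard : A.card = 2 * κ := by
    rw [hAK, Finset.card_union_of_disjoint]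
    · have := hfib 1
      rw [pow_one] at this
      rw [this]; omega
    · rw [Finset.disjoint_left]
      intro x hx hx'
      simp only [hK, Finset.mem_filter, Finset.mem_univ, true_and] at hx hx'
      exact h1ζ (hx.symm.trans hx')
  have hAne : A.Nonempty := ⟨0, by simp [hA]⟩
  have hAcardR : (A.card : ℝ) = 2 * κ := by exact_mod_cast hAcard
  have hAu : A ≠ univ := by
    intro h
    have := congrArg Finset.card h
    rw [Finset.card_univ, hAcard, hcard] at this
    omega
  have hls : lsize A = Real.log 3 := by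
    unfold lsize
    rw [hcardR, hAcardR]
    congr 1
    field_simp
    norm_num
  -- the elements of order 6
  have hord : ∀ x, orderOf (ψ x) = 6 → ψ x = ζ ∨ ψ x = ζ ^ 5 := by
    intro x hx
    have hp : IsPrimitiveRoot (ψ x) 6 := by rw [← hx]; exact IsPrimitiveRoot.orderOf _
    have : NeZero 6 := ⟨by norm_num⟩
    rw [hs.isPrimitiveRoot_iff] at hp
    obtain ⟨i, hi, hc, h⟩ := hp
    have hi' : i = 0 ∨ i = 1 ∨ i = 2 ∨ i = 3 ∨ i = 4 ∨ i = 5 := by omega
    rcases hi' with rfl | rfl | rfl | rfl | rfl | rfl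
    · norm_num at hc
    · left; rw [← h, pow_one]
    · norm_num at hc
    · norm_num at hc
    · norm_num at hc
    · right; exact h.symm
  have hordζ : orderOf ζ = 6 := hs.eq_orderOf.symm
  have hordζ5 : orderOf (ζ ^ 5) = 6 := by
    have : (orderOf ζ).Coprime 5 := by rw [hordζ]; norm_num
    rw [this.orderOf_pow, hordζ]
  have hSix : (univ.filter fun x => orderOf (ψ x) = 6).card = 2 * κ := by
    have : (univ.filter fun x => orderOf (ψ x) = 6)
        = (univ.filter fun x => ψ x = ζ ^ 1) ∪ univ.filter fun x => ψ x = ζ ^ 5 := by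
      ext x
      simp only [Finset.mem_filter, Finset.mem_univ, true_and, Finset.mem_union, pow_one]
      constructor
      · exact hord x
      · rintro (h | h)
        · rw [h, hordζ]
        · rw [h, hordζ5]
    rw [this, Finset.card_union_of_disjoint, hfib, hfib]
    · omega
    · rw [Finset.disjoint_left]
      intro x hx hx'
      simp only [Finset.mem_filter, Finset.mem_univ, true_and] at hx hx'
      have := hinj 1 (by norm_num) 5 (by norm_num) (hx.symm.trans hx')
      omega
  set M : ℝ := 2 * κ * Real.log (Fintype.card G) with hM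
  have hlogG : 0 < Real.log (Fintype.card G) := by
    apply Real.log_pos
    rw [hcardR]; linarith
  have hM0 : 0 ≤ M := by positivity
  have hμ0 : ∀ x, 0 ≤ wt ψ M x := by
    intro x
    unfold wt
    split_ifs <;> linarith
  refine ⟨wt ψ M, hμ0, wt_powerClosed ψ M, A, hAne, hAu, ?_⟩
  -- the expansion of A
  have hstay : ∀ x, orderOf (ψ x) = 6 → stay A x = κ := by
    intro x hx
    unfold stay
    rcases hord x hx with h | h
    · have : (A.filter fun y => y + x ∈ A) = K := by
        ext y
        simp only [hA, hK, Finset.mem_filter, Finset.mem_univ, true_and,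
          AddChar.map_add_eq_mul, h]
        constructor
        · rintro ⟨h1 | h1, h2⟩
          · exact h1
          · exfalso
            rw [h1] at h2
            rcases h2 with h2 | h2
            · have := hinj 2 (by norm_num) 0 (by norm_num) (by rw [pow_zero, ← h2]; ring)
              omega
            · have := hinj 2 (by norm_num) 1 (by norm_num) (by rw [pow_one]; rw [← sq] at h2; exact h2)
              omega
        · intro h1
          refine ⟨Or.inl h1, Or.inr ?_⟩
          rw [h1, one_mul]
      rw [this]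
    · have : (A.filter fun y => y + x ∈ A) = univ.filter fun y => ψ y = ζ ^ 1 := by
        ext y
        simp only [hA, Finset.mem_filter, Finset.mem_univ, true_and,
          AddChar.map_add_eq_mul, h, pow_one]
        have h66 : ζ * ζ ^ 5 = 1 := by
          rw [← pow_succ']; exact hs.pow_eq_one
        constructor
        · rintro ⟨h1 | h1, h2⟩
          · exfalso
            rw [h1, one_mul] at h2
            rcases h2 with h2 | h2
            · have := hinj 5 (by norm_num) 0 (by norm_num) (by rw [pow_zero, h2])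
              omega
            · have := hinj 5 (by norm_num) 1 (by norm_num) (by rw [pow_one, h2])
              omega
          · exact h1
        · intro h1
          refine ⟨Or.inr h1, Or.inl ?_⟩
          rw [h1, h66]
      rw [this, hfib]
  have hstay1 : ∀ x, orderOf (ψ x) = 1 → stay A x = A.card := by
    intro x hx
    rw [orderOf_eq_one_iff] at hx
    unfold stay
    congr 1
    rw [Finset.filter_eq_self]
    intro y hy
    simp only [hA, Finset.mem_filter, Finset.mem_univ, true_and, AddChar.map_add_eq_mul, hx,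
      mul_one] at hy ⊢
    exact hy
  have hwA : wexp (wt ψ M) A = κ := by
    rw [wexp_eq _ _ hAne]
    have h1 : ∀ x, wt ψ M x * (1 - (stay A x : ℝ) / A.card)
        = if orderOf (ψ x) = 6 then (1 / 2 : ℝ) else 0 := by
      intro x
      unfold wt
      by_cases h : orderOf (ψ x) = 1
      · rw [if_pos h, hstay1 x h, div_self (by rw [hAcardR]; positivity), if_neg (by rw [h]; norm_num)]
        ring
      · rw [if_neg h]
        by_cases h' : orderOf (ψ x) = 6
        · rw [if_pos h', if_pos h', hstay x h', hAcardR]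
          field_simp
          norm_num
        · rw [if_neg h', if_neg h', zero_mul]
    simp_rw [h1]
    rw [← Finset.sum_filter, Finset.sum_const, hSix, nsmul_eq_mul]
    push_cast; ring
  intro W hW
  have hlsW : 0 < lsize (carrier W) := lsize_pos _ (carrier_nonempty W) (carrier_ne_univ hW)
  have hlog3 : (1 : ℝ) < Real.log 3 := by
    have h1 := Real.exp_one_lt_d9
    rw [Real.lt_log_iff_exp_lt (by norm_num)]
    linarith
  rw [hwA, hls, wexp_subgroup]
  by_cases hKW : ∃ x, ψ x = 1 ∧ x ∉ W
  · obtain ⟨x, hx1, hxW⟩ := hKW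
    have h1 : M ≤ ∑ y ∈ univ.filter (fun y => y ∉ W), wt ψ M y := by
      have e : wt ψ M x = M := by
        unfold wt; rw [hx1, orderOf_one]; simp
      calc M = wt ψ M x := e.symm
        _ ≤ _ := Finset.single_le_sum (f := fun y => wt ψ M y) (fun y _ => hμ0 y)
          (by simpa using hxW)
    have h2 : lsize (carrier W) ≤ Real.log (Fintype.card G) := by
      rw [lsize_eq _ (carrier_nonempty W)]
      have := Real.log_natCast_nonneg (carrier W).card
      linarith
    have h3 : (2 : ℝ) * κ ≤ (∑ y ∈ univ.filter (fun y => y ∉ W), wt ψ M y) / lsize (carrier W) := by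
      rw [le_div_iff₀ hlsW]
      refine le_trans ?_ h1
      exact mul_le_mul_of_nonneg_left h2 (by positivity)
    have h4 : (κ : ℝ) / Real.log 3 < 2 * κ := by
      rw [div_lt_iff₀ (by linarith)]
      nlinarith
    linarith
  · push Not at hKW
    -- W contains the kernel
    have hno : ∀ x, orderOf (ψ x) = 6 → x ∉ W := by
      intro x hx hxW
      apply hW
      rw [AddSubgroup.eq_top_iff']
      intro y
      have hp : IsPrimitiveRoot (ψ x) 6 := by rw [← hx]; exact IsPrimitiveRoot.orderOf _
      have : NeZero 6 := ⟨by norm_num⟩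
      obtain ⟨i, _, hi⟩ := hp.eq_pow_of_pow_eq_one (hψ6 y)
      have h1 : ψ (y - i • x) = 1 := by
        rw [AddChar.map_sub_eq_div, AddChar.map_nsmul_eq_pow, hi]
        exact div_self (char_ne_zero ψ y)
      have h2 := hKW _ h1
      have h3 : y = (y - i • x) + i • x := by abel
      rw [h3]
      exact W.add_mem h2 (W.nsmul_mem hxW i)
    have h1 : (2 : ℝ) * κ ≤ ∑ y ∈ univ.filter (fun y => y ∉ W), wt ψ M y := by
      have e : (2 : ℝ) * κ = ∑ y ∈ univ.filter (fun y => orderOf (ψ y) = 6), wt ψ M y := by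
        have : ∀ y ∈ univ.filter (fun y => orderOf (ψ y) = 6), wt ψ M y = 1 := by
          intro y hy
          simp only [Finset.mem_filter, Finset.mem_univ, true_and] at hy
          unfold wt; rw [hy]; simp
        rw [Finset.sum_congr rfl this, Finset.sum_const, hSix, nsmul_eq_mul]
        push_cast; ring
      rw [e]
      refine Finset.sum_le_sum_of_subset_of_nonneg ?_ (fun y _ _ => hμ0 y)
      intro y hy
      simp only [Finset.mem_filter, Finset.mem_univ, true_and] at hy ⊢
      exact hno y hy
    have h2 : lsize (carrier W) ≤ Real.log 6 := by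
      unfold lsize
      have hc : (κ : ℝ) ≤ (carrier W).card := by
        rw [hκ]
        norm_cast
        refine Finset.card_le_card ?_
        intro x hx
        simp only [hK, Finset.mem_filter, Finset.mem_univ, true_and] at hx
        rw [mem_carrier]; exact hKW x hx
      have hcpos : (0 : ℝ) < (carrier W).card := by linarith
      refine Real.log_le_log (by rw [hcardR]; positivity) ?_
      rw [div_le_iff₀ hcpos, hcardR]
      linarith
    have hlog6 : Real.log 6 < 2 * Real.log 3 := by
      have : (2 : ℝ) * Real.log 3 = Real.log 9 := by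
        have h9 : (9 : ℝ) = 3 ^ 2 := by norm_num
        rw [h9, Real.log_pow]; push_cast; ring
      rw [this]
      exact Real.log_lt_log (by norm_num) (by norm_num)
    rw [div_lt_div_iff₀ (by linarith) hlsW]
    calc (κ : ℝ) * lsize (carrier W) ≤ κ * Real.log 6 := mul_le_mul_of_nonneg_left h2 hκR.le
      _ < κ * (2 * Real.log 3) := mul_lt_mul_of_pos_left hlog6 hκR
      _ = (2 * κ) * Real.log 3 := by ring
      _ ≤ (∑ y ∈ univ.filter (fun y => y ∉ W), wt ψ M y) * Real.log 3 :=
          mul_le_mul_of_nonneg_right h1 (by linarith)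

end

end Pool.Agent.V7H25.SSE
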