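import Pool.Agent.V7H25.SSE.Sharp
import Pool.Agent.Results.MP_8d8c46_lc.CayleyTest

set_option autoImplicit false
set_option linter.unusedSectionVars false

/-!
# Small-set expansion in Cayley graphs of finite abelian groups: when are subgroups optimal?

Let `G` be a finite abelian group and `μ ≥ 0` a weight on `G` which depends only on the cyclic
subgroup generated by the element (`PowerClosed`; for the uniform weight on a connection set these
are the Cayley graphs with integral spectrum; for groups of exponent 3 or 4 these are all symmetric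
weights). For a nonempty set `A` let `wexp μ A` be its expansion and `lsize A = log (|G| / |A|)`.

If `μ` vanishes on the elements whose order is divisible by 6 then for every `λ ≥ 0` the minimum of
`wexp μ A - λ lsize A` over the nonempty sets `A` is attained at a subgroup. All power-closed
weights on `G` have this property if and only if `6` does not divide `|G|`.

The heart is the isoperimetric inequality for the unitary Cayley graphs (`Star`, `star`): for
`6 ∤ k` a set `R` of residues modulo `k` has at most `φ(k) |R| log |R| / log k` ordered pairs whose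
difference is a unit (false for `k = 6`).
-/

namespace Pool.Agent.V7H25.SSE.SubgroupResult

open Finset Pool.Agent.V7H25.SSE
open scoped Classical
open Pool.Agent.Results.MP_8d8c46_lc.CayleyTest (cay expansion SseYes)

noncomputable section

section

variable {G : Type} [AddCommGroup G] [Fintype G]

lemma good_of (s : G) (h : ¬ 6 ∣ addOrderOf s) : Good s :=
  fun k hk => star k (fun h6 => h (h6.trans hk))

lemma part1 (μ : G → ℝ) (hμ : ∀ s, 0 ≤ μ s) (hinv : PowerClosed μ)
    (h6 : ∀ s, 6 ∣ addOrderOf s → μ s = 0) (lam : ℝ) (hlam : 0 ≤ lam) :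
    ∃ W : AddSubgroup G, ∀ A : Finset G, A.Nonempty →
      wexp μ (carrier W) - lam * lsize (carrier W) ≤ wexp μ A - lam * lsize A := by
  obtain ⟨W, hW⟩ := main μ hμ hinv (fun s hs => good_of s (fun h => hs (h6 s h))) lam hlam
  refine ⟨W, fun A hA => ?_⟩
  have h := hW A hA
  unfold g at h
  rw [wexp_subgroup, lsize_carrier, wexp_eq μ A hA, lsize_eq A hA]
  exact h

lemma part2 (μ : G → ℝ) (hμ : ∀ s, 0 ≤ μ s) (hinv : PowerClosed μ)
    (h6 : ∀ s, 6 ∣ addOrderOf s → μ s = 0) (c : ℝ) :
    (∀ A : Finset G, A.Nonempty → c * lsize A ≤ wexp μ A) ↔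
      ∀ W : AddSubgroup G, c * lsize (carrier W) ≤ wexp μ (carrier W) := by
  constructor
  · intro h W
    exact h (carrier W) (carrier_nonempty W)
  · intro h A hA
    rcases lt_or_ge c 0 with hc | hc
    · exact (mul_nonpos_of_nonpos_of_nonneg hc.le (lsize_nonneg A hA)).trans (wexp_nonneg μ hμ A)
    · obtain ⟨W, hW⟩ := part1 μ hμ hinv h6 c hc
      have h1 := hW A hA
      have h2 := h W
      linarith

lemma part3 (μ : G → ℝ) (hμ : ∀ s, 0 ≤ μ s) (hinv : PowerClosed μ)
    (h6 : ∀ s, 6 ∣ addOrderOf s → μ s = 0) [Nontrivial G] :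
    ∃ W : AddSubgroup G, W ≠ ⊤ ∧ ∀ A : Finset G, A.Nonempty → A ≠ univ →
      wexp μ (carrier W) / lsize (carrier W) ≤ wexp μ A / lsize A := by
  have hne : (Finset.univ.filter fun W : AddSubgroup G => W ≠ ⊤).Nonempty := by
    refine ⟨⊥, ?_⟩
    simp only [Finset.mem_filter, Finset.mem_univ, true_and]
    exact bot_ne_top
  obtain ⟨W, hW, hmin⟩ := Finset.exists_min_image _ (fun W : AddSubgroup G =>
    wexp μ (carrier W) / lsize (carrier W)) hne
  simp only [Finset.mem_filter, Finset.mem_univ, true_and] at hW hmin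
  refine ⟨W, hW, fun A hA hA' => ?_⟩
  rw [le_div_iff₀ (lsize_pos A hA hA')]
  refine (part2 μ hμ hinv h6 (wexp μ (carrier W) / lsize (carrier W))).mpr (fun U => ?_) A hA
  by_cases hU : U = ⊤
  · subst hU
    have : lsize (carrier (⊤ : AddSubgroup G)) = 0 := by
      rw [lsize_index, AddSubgroup.index_top]; simp
    rw [this, mul_zero]
    exact wexp_nonneg μ hμ _
  · have := hmin U hU
    rwa [le_div_iff₀ (lsize_pos _ (carrier_nonempty U) (carrier_ne_univ hU))] at this

lemma closed_of_small (S : Finset G) (hS : ∀ s ∈ S, -s ∈ S)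
    (h : ∀ s ∈ S, addOrderOf s ∣ 4 ∨ addOrderOf s ∣ 3) :
    (∀ s ∈ S, ∀ n : ℕ, n.Coprime (addOrderOf s) → n • s ∈ S) ∧
      ∀ s ∈ S, ¬ 6 ∣ addOrderOf s := by
  constructor
  · intro s hs n hn
    have hmod : ∀ m : ℕ, m % addOrderOf s = n % addOrderOf s → m • s = n • s := by
      intro m hm
      rw [← mod_addOrderOf_nsmul s m, ← mod_addOrderOf_nsmul s n, hm]
    have hfin : n • s = s ∨ n • s = -s := by
      have hpos : 0 < addOrderOf s := addOrderOf_pos s
      have hneg : ((addOrderOf s - 1 : ℕ)) • s = -s := by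
        rw [sub_nsmul s (by omega), addOrderOf_nsmul_eq_zero, one_nsmul, zero_add]
      have hcases : addOrderOf s = 1 ∨ addOrderOf s = 2 ∨ addOrderOf s = 3 ∨ addOrderOf s = 4 := by
        rcases h s hs with h | h
        · have h4 := Nat.le_of_dvd (by norm_num) h
          omega
        · have h3 := Nat.le_of_dvd (by norm_num) h
          omega
      rcases hcases with ho | ho | ho | ho
      · left
        have := hmod 1 (by rw [ho]; omega)
        rw [← this, one_nsmul]
      · left
        rw [ho] at hn
        have : n % 2 = 1 := by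
          rcases Nat.mod_two_eq_zero_or_one n with h0 | h0
          · exfalso
            have : 2 ∣ n := Nat.dvd_of_mod_eq_zero h0
            have := Nat.eq_one_of_dvd_coprimes hn this (dvd_refl 2)
            omega
          · exact h0
        have := hmod 1 (by rw [ho]; omega)
        rw [← this, one_nsmul]
      · rw [ho] at hn hneg
        have h0 : n % 3 ≠ 0 := by
          intro h0
          have : 3 ∣ n := Nat.dvd_of_mod_eq_zero h0
          have := Nat.eq_one_of_dvd_coprimes hn this (dvd_refl 3)
          omega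
        have h12 : n % 3 = 1 ∨ n % 3 = 2 := by omega
        rcases h12 with h1 | h1
        · left
          have := hmod 1 (by rw [ho]; omega)
          rw [← this, one_nsmul]
        · right
          have := hmod 2 (by rw [ho]; omega)
          rw [← this]; exact hneg
      · rw [ho] at hn hneg
        have h0 : n % 2 ≠ 0 := by
          intro h0
          have h2 : 2 ∣ n := Nat.dvd_of_mod_eq_zero h0
          have := Nat.eq_one_of_dvd_coprimes hn h2 (by norm_num)
          omega
        have h12 : n % 4 = 1 ∨ n % 4 = 3 := by omega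
        rcases h12 with h1 | h1
        · left
          have := hmod 1 (by rw [ho]; omega)
          rw [← this, one_nsmul]
        · right
          have := hmod 3 (by rw [ho]; omega)
          rw [← this]; exact hneg
    rcases hfin with h | h
    · rw [h]; exact hs
    · rw [h]; exact hS s hs
  · intro s hs h6
    have hpos : 0 < addOrderOf s := addOrderOf_pos s
    have := Nat.le_of_dvd hpos h6
    rcases h s hs with h | h
    · have h4 := Nat.le_of_dvd (by norm_num) h
      omega
    · have h3 := Nat.le_of_dvd (by norm_num) h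
      omega

lemma part4 (S : Finset G) (hS : ∀ s ∈ S, -s ∈ S) (h0 : (0 : G) ∉ S) (hne : S.Nonempty)
    (hcl : ∀ s ∈ S, ∀ n : ℕ, n.Coprime (addOrderOf s) → n • s ∈ S)
    (h6 : ∀ s ∈ S, ¬ 6 ∣ addOrderOf s) (eta del : ℝ) (hdel : del < 1)
    (hyes : SseYes (cay S hS h0) S.card eta del) :
    ∃ W : AddSubgroup G, W ≠ ⊤ ∧
      expansion (cay S hS h0) S.card (carrier W) ≤ eta / Real.log (1 / del) * Real.log W.index := by
  obtain ⟨A, hA, hAc, hle⟩ := hyes
  have hSc : (0 : ℝ) < S.card := by exact_mod_cast hne.card_pos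
  have hA0 : (0 : ℝ) < A.card := by exact_mod_cast hA.card_pos
  have hG0 : (0 : ℝ) < Fintype.card G := by exact_mod_cast Fintype.card_pos
  have hdel0 : 0 < del := by
    by_contra hcon
    push Not at hcon
    have : del * Fintype.card G ≤ 0 := mul_nonpos_of_nonpos_of_nonneg hcon hG0.le
    linarith
  obtain ⟨s0, hs0⟩ := hne
  have : Nontrivial G := ⟨s0, 0, fun h => h0 (h ▸ hs0)⟩
  let μ : G → ℝ := fun s => if s ∈ S then (1 : ℝ) / S.card else 0
  have hμ : ∀ s, 0 ≤ μ s := by
    intro s; simp only [μ]; split_ifs <;> positivity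
  have hmem : ∀ (n : ℕ) (s : G), n.Coprime (addOrderOf s) → (n • s ∈ S ↔ s ∈ S) := by
    intro n s hn
    constructor
    · intro h
      obtain ⟨m, hm⟩ := exists_nsmul_eq_self_of_coprime hn
      have hc : m.Coprime (addOrderOf (n • s)) := by
        have ho : addOrderOf (n • s) = addOrderOf s := by
          have := hn.symm
          exact this.addOrderOf_nsmul
        rw [ho]
        have h1 : addOrderOf (m • (n • s)) = addOrderOf s := by rw [hm]
        by_contra hcon
        rw [smul_smul] at h1
        have h3 : addOrderOf ((m * n) • s) = addOrderOf s / Nat.gcd (addOrderOf s) (m * n) :=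
          addOrderOf_nsmul s
        rw [h3] at h1
        have hpos : 0 < addOrderOf s := addOrderOf_pos s
        have h4 : Nat.gcd (addOrderOf s) (m * n) = 1 := by
          have hg : 0 < Nat.gcd (addOrderOf s) (m * n) := Nat.gcd_pos_of_pos_left _ hpos
          have hd := Nat.div_mul_cancel (Nat.gcd_dvd_left (addOrderOf s) (m * n))
          rw [h1] at hd
          exact Nat.eq_of_mul_eq_mul_left hpos (by rw [hd, mul_one])
        have h5 : Nat.Coprime (addOrderOf s) m := Nat.Coprime.coprime_mul_right_right h4
        exact hcon h5.symm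
      have := hcl _ h m hc
      rwa [hm] at this
    · intro h; exact hcl s h n hn
  have hμinv : PowerClosed μ := by
    intro n s hn
    simp only [μ, hmem n s hn]
  have hμ6 : ∀ s, 6 ∣ addOrderOf s → μ s = 0 := by
    intro s hs
    simp only [μ]
    rw [if_neg (fun h => h6 s h hs)]
  have hexp : ∀ B : Finset G, expansion (cay S hS h0) S.card B = wexp μ B := by
    intro B
    unfold Pool.Agent.Results.MP_8d8c46_lc.CayleyTest.expansion wexp
    rw [Pool.Agent.Results.MP_8d8c46_lc.CayleyTest.cut_cay, ← div_div, Finset.sum_div]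
    congr 1
    refine Finset.sum_congr rfl fun s _ => ?_
    simp only [μ, H562R2.CayleyIso.outCount]
    by_cases h : s ∈ S <;> simp [h]
    ring
  obtain ⟨W, hW, hmin⟩ := part3 μ hμ hμinv hμ6
  have hls : lsize A = Real.log (1 / del) := by
    unfold lsize
    rw [hAc]
    congr 1
    field_simp
  have hlog : 0 < Real.log (1 / del) := Real.log_pos (by rw [lt_div_iff₀ hdel0]; linarith)
  have hAu : A ≠ univ := by
    rintro rfl
    rw [← hls] at hlog
    unfold lsize at hlog
    rw [Finset.card_univ, div_self hG0.ne', Real.log_one] at hlog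
    exact lt_irrefl _ hlog
  refine ⟨W, hW, ?_⟩
  rw [hexp] at hle ⊢
  have h := hmin A hA hAu
  have hWpos := lsize_pos _ (carrier_nonempty W) (carrier_ne_univ hW)
  rw [hls, div_le_iff₀ hWpos, lsize_index] at h
  rw [lsize_index] at hWpos
  refine h.trans ?_
  exact mul_le_mul_of_nonneg_right (div_le_div_of_nonneg_right hle hlog.le) hWpos.le

end

/-- **Result.** Let `G` be a finite abelian group.

(a) Let `μ ≥ 0` be a power-closed weight on `G` which vanishes on the elements whose order is
divisible by 6. Then: for every `λ ≥ 0` there is a subgroup `W` such that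
`μ(G ∖ W) - λ log [G : W] ≤ wexp μ A - λ log (|G| / |A|)` for all nonempty sets `A`; for every real
`c`, all nonempty sets `A` satisfy `c log (|G| / |A|) ≤ wexp μ A` if and only if all subgroups `W`
satisfy `c log [G : W] ≤ μ(G ∖ W)`; if `G ≠ 0`, the minimum of `wexp μ A / log (|G| / |A|)` over the
nonempty sets `A ≠ G` is attained at a proper subgroup.

(b) For `G ≠ 0`, this minimum is attained at a proper subgroup for all power-closed weights
`μ ≥ 0` on `G` if and only if `6` does not divide `|G|`.

(c) Let `S` be a nonempty subset of `G ∖ {0}` with `S = -S`, and suppose that `S` is closed under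
the multiplication of its elements `s` by integers prime to their order and has no element of order
divisible by 6, or that all elements of `S` have order 2, 3 or 4. If the graph `Cay(G, S)` is a yes
instance of `SSE(η, δ)`, `δ < 1`, then `Φ(W) ≤ η log [G : W] / log (1 / δ)` for some proper
subgroup `W`. -/
theorem result :
    (∀ (G : Type) [AddCommGroup G] [Fintype G] (μ : G → ℝ), (∀ s, 0 ≤ μ s) → PowerClosed μ →
      (∀ s, 6 ∣ addOrderOf s → μ s = 0) →
      (∀ W : AddSubgroup G, wexp μ (carrier W) = ∑ s ∈ univ.filter (fun s => s ∉ W), μ s ∧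
        lsize (carrier W) = Real.log W.index) ∧
      (∀ lam : ℝ, 0 ≤ lam → ∃ W : AddSubgroup G, ∀ A : Finset G, A.Nonempty →
        wexp μ (carrier W) - lam * lsize (carrier W) ≤ wexp μ A - lam * lsize A) ∧
      (∀ c : ℝ, (∀ A : Finset G, A.Nonempty → c * lsize A ≤ wexp μ A) ↔
        ∀ W : AddSubgroup G, c * lsize (carrier W) ≤ wexp μ (carrier W)) ∧
      (Nontrivial G → ∃ W : AddSubgroup G, W ≠ ⊤ ∧ ∀ A : Finset G, A.Nonempty → A ≠ univ →
        wexp μ (carrier W) / lsize (carrier W) ≤ wexp μ A / lsize A)) ∧
    (∀ (G : Type) [AddCommGroup G] [Fintype G] [Nontrivial G],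
      (∀ μ : G → ℝ, (∀ s, 0 ≤ μ s) → PowerClosed μ →
        ∃ W : AddSubgroup G, W ≠ ⊤ ∧ ∀ A : Finset G, A.Nonempty → A ≠ univ →
          wexp μ (carrier W) / lsize (carrier W) ≤ wexp μ A / lsize A) ↔
        ¬ 6 ∣ Fintype.card G) ∧
    (∀ (G : Type) [AddCommGroup G] [Fintype G] (S : Finset G) (hS : ∀ s ∈ S, -s ∈ S)
      (h0 : (0 : G) ∉ S), S.Nonempty →
      (((∀ s ∈ S, ∀ n : ℕ, n.Coprime (addOrderOf s) → n • s ∈ S) ∧
        (∀ s ∈ S, ¬ 6 ∣ addOrderOf s)) ∨ (∀ s ∈ S, addOrderOf s ∣ 4 ∨ addOrderOf s ∣ 3)) →
      ∀ eta del : ℝ, del < 1 → SseYes (cay S hS h0) S.card eta del →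
        ∃ W : AddSubgroup G, W ≠ ⊤ ∧ expansion (cay S hS h0) S.card (carrier W) ≤
          eta / Real.log (1 / del) * Real.log W.index) := by
  refine ⟨?_, ?_, ?_⟩
  · intro G _ _ μ hμ hinv h6
    exact ⟨fun W => ⟨wexp_subgroup μ W, lsize_index W⟩, part1 μ hμ hinv h6,
      part2 μ hμ hinv h6, fun _ => part3 μ hμ hinv h6⟩
  · intro G _ _ _
    constructor
    · intro h h6
      obtain ⟨μ, hμ, hinv, A, hA, hAu, hlt⟩ := sharp h6
      obtain ⟨W, hW, hmin⟩ := h μ hμ hinv
      exact absurd (hmin A hA hAu) (not_le.mpr (hlt W hW))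
    · intro h6 μ hμ hinv
      refine part3 μ hμ hinv (fun s hs => ?_)
      exact absurd (hs.trans addOrderOf_dvd_card) h6
  · intro G _ _ S hS h0 hne h eta del hdel hyes
    have h' : (∀ s ∈ S, ∀ n : ℕ, n.Coprime (addOrderOf s) → n • s ∈ S) ∧
        (∀ s ∈ S, ¬ 6 ∣ addOrderOf s) := by
      rcases h with h | h
      · exact h
      · exact closed_of_small S hS h
    exact part4 S hS h0 hne h'.1 h'.2 eta del hdel hyes

end

end Pool.Agent.V7H25.SSE.SubgroupResult
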