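import Pool.Agent.V7H25.SSE.Defs

set_option autoImplicit false
set_option linter.unusedSectionVars false

/-!
# Testing small-set expansion by kernels of characters: the Fourier step
-/

namespace Pool.Agent.V7H25.SSE

open Finset
open scoped Classical ComplexConjugate

noncomputable section

/-- The average of the unit powers of a root of unity. -/
lemma re_sum_pow (N : ℕ) [NeZero N] (z : ℂ) (hz : z ^ N = 1) (hz1 : z ≠ 1) :
    (∑ u : (ZMod N)ˣ, (z ^ (u : ZMod N).val).re) ≤ (Nat.totient N : ℝ) / 2 := by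
  set m := orderOf z with hm
  have hmk : m ∣ N := orderOf_dvd_of_pow_eq_one hz
  have hm0 : 0 < m := Nat.pos_of_dvd_of_pos hmk (Nat.pos_of_ne_zero (NeZero.ne N))
  have hm1 : 1 < m := by
    rcases Nat.lt_or_ge 1 m with h | h
    · exact h
    · exfalso
      have h1 : m = 1 := by omega
      rw [hm, orderOf_eq_one_iff] at h1
      exact hz1 h1
  have : NeZero m := ⟨hm0.ne'⟩
  have hprim : IsPrimitiveRoot z m := IsPrimitiveRoot.orderOf z
  let F : (ZMod m)ˣ → ℝ := fun w => (z ^ (w : ZMod m).val).re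
  have h1 : ∀ u : (ZMod N)ˣ, (z ^ (u : ZMod N).val).re = F (ZMod.unitsMap hmk u) := by
    intro u
    simp only [F]
    congr 1
    have hp : ∀ n : ℕ, z ^ n = z ^ (n % m) := fun n => (pow_mod_orderOf z n).symm
    rw [hp ((u : ZMod N).val)]
    rw [ZMod.unitsMap_val]
    congr 1
    have : (((u : ZMod N).val : ZMod m)).val = (u : ZMod N).val % m := ZMod.val_natCast _ _
    rw [← this, ZMod.natCast_val]
  have h2 := units_avg N m hmk F
  have h3 : ∑ w : (ZMod m)ˣ, F w = ((ArithmeticFunction.moebius m : ℤ) : ℝ) := by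
    have := congrArg Complex.re (sum_units_pow m z hprim)
    rw [Complex.re_sum] at this
    rw [show ((((ArithmeticFunction.moebius m : ℤ) : ℂ))).re
      = ((ArithmeticFunction.moebius m : ℤ) : ℝ) from Complex.intCast_re _] at this
    exact this
  have hφm : (0 : ℝ) < Nat.totient m := by exact_mod_cast Nat.totient_pos.mpr hm0
  have h4 : ((ArithmeticFunction.moebius m : ℤ) : ℝ) ≤ (Nat.totient m : ℝ) / 2 := by
    by_cases hm2 : m = 2
    · rw [hm2, ArithmeticFunction.moebius_apply_prime Nat.prime_two]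
      have : (0 : ℝ) ≤ (Nat.totient 2 : ℝ) / 2 := by positivity
      push_cast
      linarith
    · have hle : ((ArithmeticFunction.moebius m : ℤ) : ℝ) ≤ 1 := by
        have := (abs_le.mp (ArithmeticFunction.abs_moebius_le_one (n := m))).2
        exact_mod_cast this
      have he : Even (Nat.totient m) := Nat.totient_even (by omega)
      have h2 : 2 ≤ Nat.totient m := by
        have : 0 < Nat.totient m := Nat.totient_pos.mpr hm0
        obtain ⟨r, hr⟩ := he
        omega
      have : (2 : ℝ) ≤ Nat.totient m := by exact_mod_cast h2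
      linarith
  simp_rw [h1]
  rw [h3] at h2
  have h5 : (Nat.totient m : ℝ) * ∑ u : (ZMod N)ˣ, F (ZMod.unitsMap hmk u)
      ≤ (Nat.totient m : ℝ) * ((Nat.totient N : ℝ) / 2) := by
    rw [h2]
    calc (Nat.totient N : ℝ) * ((ArithmeticFunction.moebius m : ℤ) : ℝ)
        ≤ (Nat.totient N : ℝ) * ((Nat.totient m : ℝ) / 2) :=
          mul_le_mul_of_nonneg_left h4 (Nat.cast_nonneg _)
      _ = (Nat.totient m : ℝ) * ((Nat.totient N : ℝ) / 2) := by ring
  exact le_of_mul_le_mul_left h5 hφm

variable {G : Type} [AddCommGroup G] [Fintype G]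

/-- The weight of a subgroup. -/
def mass (μ : G → ℝ) (V : AddSubgroup G) : ℝ := ∑ s ∈ univ.filter (fun s => s ∈ V), μ s

/-- The kernel of a character. -/
def ker (χ : AddChar G ℂ) : AddSubgroup G where
  carrier := {x | χ x = 1}
  zero_mem' := by simp
  add_mem' := by
    intro a b ha hb
    simp only [Set.mem_ofPred_eq] at ha hb ⊢
    rw [AddChar.map_add_eq_mul, ha, hb, one_mul]
  neg_mem' := by
    intro a ha
    simp only [Set.mem_ofPred_eq] at ha ⊢
    rw [AddChar.map_neg_eq_conj, ha, map_one]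

lemma mem_ker (χ : AddChar G ℂ) (x : G) : x ∈ ker χ ↔ χ x = 1 := Iff.rfl

/-- The Fourier transform of the weight on a subgroup. -/
def muhat (μ : G → ℝ) (V : AddSubgroup G) (χ : AddChar G ℂ) : ℝ :=
  ∑ s ∈ univ.filter (fun s => s ∈ V), μ s * (χ s).re

/-- For power-closed weights a large Fourier coefficient comes from the kernel. -/
lemma muhat_le (μ : G → ℝ) (hμ : ∀ s, 0 ≤ μ s) (hinv : PowerClosed μ) (V : AddSubgroup G)
    (χ : AddChar G ℂ) :
    muhat μ V χ ≤ mass μ (V ⊓ ker χ) + (mass μ V - mass μ (V ⊓ ker χ)) / 2 := by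
  set N := Fintype.card G with hN
  have : NeZero N := ⟨Fintype.card_ne_zero⟩
  have hφN : (0 : ℝ) < Nat.totient N := by
    exact_mod_cast Nat.totient_pos.mpr (Nat.pos_of_ne_zero (NeZero.ne N))
  have hord : ∀ s : G, addOrderOf s ∣ N := fun s => addOrderOf_dvd_card
  -- averaging
  have h1 : ∀ u : (ZMod N)ˣ, muhat μ V χ
      = ∑ s ∈ univ.filter (fun s => s ∈ V), μ s * (χ s ^ (u : ZMod N).val).re := by
    intro u
    have hcop : (u : ZMod N).val.Coprime N := ZMod.val_coe_unit_coprime u
    have hinj : Function.Injective (fun s : G => (u : ZMod N).val • s) := by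
      intro a b hab
      simp only at hab
      have h3 : (u : ZMod N).val • (a - b) = 0 := by rw [smul_sub, hab, sub_self]
      have h4 : addOrderOf (a - b) ∣ (u : ZMod N).val := addOrderOf_dvd_iff_nsmul_eq_zero.mpr h3
      have h6 : addOrderOf (a - b) = 1 := Nat.eq_one_of_dvd_coprimes hcop h4 (hord _)
      rw [AddMonoid.addOrderOf_eq_one_iff] at h6
      exact sub_eq_zero.mp h6
    have hmaps : ∀ s ∈ univ.filter (fun s => s ∈ V), (u : ZMod N).val • s
        ∈ univ.filter (fun s => s ∈ V) := by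
      intro s hs
      simp only [Finset.mem_filter, Finset.mem_univ, true_and] at hs ⊢
      exact V.nsmul_mem hs _
    unfold muhat
    symm
    refine Finset.sum_bij (fun s _ => (u : ZMod N).val • s) hmaps (fun a _ b _ h => hinj h) ?_ ?_
    · intro b hb
      have := Finset.surj_on_of_inj_on_of_card_le (fun s _ => (u : ZMod N).val • s) hmaps
        (fun a b _ _ h => hinj h) le_rfl b hb
      obtain ⟨a, ha, h⟩ := this
      exact ⟨a, ha, h.symm⟩
    · intro s _
      rw [hinv _ s (hcop.coprime_dvd_right (hord s)), AddChar.map_nsmul_eq_pow]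
  have h2 : (Nat.totient N : ℝ) * muhat μ V χ
      = ∑ s ∈ univ.filter (fun s => s ∈ V),
        μ s * ∑ u : (ZMod N)ˣ, (χ s ^ (u : ZMod N).val).re := by
    have : ∑ u : (ZMod N)ˣ, muhat μ V χ = (Nat.totient N : ℝ) * muhat μ V χ := by
      rw [Finset.sum_const, nsmul_eq_mul, Finset.card_univ, ZMod.card_units_eq_totient]
    rw [← this]
    rw [Finset.sum_congr rfl (fun u _ => h1 u), Finset.sum_comm]
    refine Finset.sum_congr rfl fun s _ => ?_
    rw [Finset.mul_sum]
  have h3 : ∀ s ∈ univ.filter (fun s => s ∈ V),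
      μ s * ∑ u : (ZMod N)ˣ, (χ s ^ (u : ZMod N).val).re
        ≤ (Nat.totient N : ℝ) * (μ s / 2 + (if s ∈ ker χ then μ s else 0) / 2) := by
    intro s _
    by_cases h : s ∈ ker χ
    · rw [if_pos h]
      rw [mem_ker] at h
      rw [h]
      simp only [one_pow, Complex.one_re, Finset.sum_const, nsmul_eq_mul, mul_one,
        Finset.card_univ, ZMod.card_units_eq_totient]
      linarith
    · rw [if_neg h]
      rw [mem_ker] at h
      have hzN : χ s ^ N = 1 := by
        rw [← AddChar.map_nsmul_eq_pow, hN, card_nsmul_eq_zero, AddChar.map_zero_eq_one]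
      have := re_sum_pow N (χ s) hzN h
      calc μ s * ∑ u : (ZMod N)ˣ, (χ s ^ (u : ZMod N).val).re
          ≤ μ s * ((Nat.totient N : ℝ) / 2) := mul_le_mul_of_nonneg_left this (hμ s)
        _ = _ := by ring
  have h4 := Finset.sum_le_sum h3
  rw [← h2, ← Finset.mul_sum] at h4
  have h5 := le_of_mul_le_mul_left h4 hφN
  refine h5.trans (le_of_eq ?_)
  rw [Finset.sum_add_distrib, ← Finset.sum_div, ← Finset.sum_div]
  have h6 : ∑ s ∈ univ.filter (fun s => s ∈ V), (if s ∈ ker χ then μ s else 0)
      = mass μ (V ⊓ ker χ) := by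
    unfold mass
    rw [← Finset.sum_filter]
    congr 1
    ext s
    simp [AddSubgroup.mem_inf]
  rw [h6]
  unfold mass
  ring

/-- The character sum over a set. -/
def Sg (B : Finset G) (χ : AddChar G ℂ) : ℂ := ∑ x ∈ B, χ x

lemma parseval_G (B : Finset G) (c : G) :
    ∑ χ : AddChar G ℂ, ‖Sg B χ‖ ^ 2 * (χ c).re = (Fintype.card G : ℝ) * stay B c := by
  have h0 : ∑ χ : AddChar G ℂ, ((‖Sg B χ‖ ^ 2 : ℝ) : ℂ) * χ c
      = (Fintype.card G : ℂ) * (stay B c : ℂ) := by
    have hS : ∀ χ : AddChar G ℂ, ((‖Sg B χ‖ ^ 2 : ℝ) : ℂ) = Sg B χ * conj (Sg B χ) := by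
      intro χ
      rw [Complex.mul_conj, Complex.normSq_eq_norm_sq]
    simp_rw [hS]
    unfold Sg
    have h1 : ∀ χ : AddChar G ℂ, (∑ x ∈ B, χ x) * conj (∑ x ∈ B, χ x) * χ c
        = ∑ x ∈ B, ∑ y ∈ B, χ (x - y + c) := by
      intro χ
      rw [map_sum, Finset.sum_mul_sum, Finset.sum_mul]
      refine Finset.sum_congr rfl fun x _ => ?_
      rw [Finset.sum_mul]
      refine Finset.sum_congr rfl fun y _ => ?_
      rw [← AddChar.map_neg_eq_conj, AddChar.map_add_eq_mul, sub_eq_add_neg,
        AddChar.map_add_eq_mul]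
    simp_rw [h1]
    rw [Finset.sum_comm]
    have h2 : ∀ x ∈ B, ∑ χ : AddChar G ℂ, ∑ y ∈ B, χ (x - y + c)
        = (Fintype.card G : ℂ) * (if x + c ∈ B then 1 else 0) := by
      intro x _
      rw [Finset.sum_comm]
      have h3 : ∀ y ∈ B, ∑ χ : AddChar G ℂ, χ (x - y + c)
          = if x + c = y then (Fintype.card G : ℂ) else 0 := by
        intro y _
        rw [AddChar.sum_apply_eq_ite]
        congr 1
        rw [sub_add_eq_add_sub, sub_eq_zero]
      rw [Finset.sum_congr rfl h3, Finset.sum_ite_eq]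
      simp
    rw [Finset.sum_congr rfl h2, ← Finset.mul_sum]
    congr 1
    unfold stay
    rw [Finset.card_filter]
    push_cast
    rfl
  have := congrArg Complex.re h0
  rw [Complex.re_sum] at this
  simp_rw [Complex.re_ofReal_mul] at this
  rw [this]
  have e2 : (Fintype.card G : ℂ) * (stay B c : ℂ) = (((Fintype.card G : ℝ) * stay B c : ℝ) : ℂ) := by
    push_cast; rfl
  rw [e2, Complex.ofReal_re]

lemma char_re_le (χ : AddChar G ℂ) (x : G) : (χ x).re ≤ 1 := by
  have h := Complex.re_le_norm (χ x)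
  have h2 : ‖χ x‖ = 1 := AddChar.norm_apply χ x
  linarith

/-- The total weight on the characters which are trivial on `V`. -/
lemma trivial_weight (B : Finset G) (V : AddSubgroup G) :
    (Nat.card V : ℝ) * ∑ χ ∈ univ.filter (fun χ : AddChar G ℂ => V ≤ ker χ), ‖Sg B χ‖ ^ 2
      ≤ (Fintype.card G : ℝ) * (B.card : ℝ) ^ 2 := by
  -- the sum of the real parts over V
  have h1 : ∀ χ : AddChar G ℂ, (∑ v ∈ univ.filter (fun v => v ∈ V), (χ v).re)
      = if V ≤ ker χ then (Nat.card V : ℝ) else 0 := by
    intro χ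
    split_ifs with h
    · have : ∀ v ∈ univ.filter (fun v => v ∈ V), (χ v).re = 1 := by
        intro v hv
        simp only [Finset.mem_filter, Finset.mem_univ, true_and] at hv
        have := h hv
        rw [mem_ker] at this
        rw [this, Complex.one_re]
      rw [Finset.sum_congr rfl this, Finset.sum_const, nsmul_eq_mul, mul_one,
        Nat.card_eq_fintype_card, Fintype.card_subtype]
    · -- a translation argument
      rw [SetLike.not_le_iff_exists] at h
      obtain ⟨w, hw, hwχ⟩ := h
      rw [mem_ker] at hwχ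
      have hc : (∑ v ∈ univ.filter (fun v => v ∈ V), χ v) = 0 := by
        have e : (∑ v ∈ univ.filter (fun v => v ∈ V), χ v)
            = χ w * ∑ v ∈ univ.filter (fun v => v ∈ V), χ v := by
          rw [Finset.mul_sum]
          symm
          refine Finset.sum_bij (fun v _ => w + v) ?_ ?_ ?_ ?_
          · intro v hv
            simp only [Finset.mem_filter, Finset.mem_univ, true_and] at hv ⊢
            exact V.add_mem hw hv
          · intro a _ b _ h
            exact add_left_cancel h
          · intro b hb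
            simp only [Finset.mem_filter, Finset.mem_univ, true_and] at hb
            exact ⟨-w + b, by simpa using V.add_mem (V.neg_mem hw) hb, by simp⟩
          · intro v _
            rw [AddChar.map_add_eq_mul]
        have e2 : (1 - χ w) * ∑ v ∈ univ.filter (fun v => v ∈ V), χ v = 0 := by
          rw [sub_mul, one_mul, ← e, sub_self]
        rcases mul_eq_zero.mp e2 with h | h
        · exact absurd (sub_eq_zero.mp h).symm hwχ
        · exact h
      have := congrArg Complex.re hc
      rw [Complex.re_sum] at this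
      simpa using this
  have h2 : (Nat.card V : ℝ) * ∑ χ ∈ univ.filter (fun χ : AddChar G ℂ => V ≤ ker χ), ‖Sg B χ‖ ^ 2
      = ∑ v ∈ univ.filter (fun v => v ∈ V), (Fintype.card G : ℝ) * stay B v := by
    have e : ∑ v ∈ univ.filter (fun v => v ∈ V), (Fintype.card G : ℝ) * stay B v
        = ∑ χ : AddChar G ℂ, ‖Sg B χ‖ ^ 2 * ∑ v ∈ univ.filter (fun v => v ∈ V), (χ v).re := by
      simp_rw [← parseval_G, Finset.mul_sum]
      rw [Finset.sum_comm]
    rw [e]
    simp_rw [h1]
    rw [Finset.mul_sum, Finset.sum_filter]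
    refine Finset.sum_congr rfl fun χ _ => ?_
    split_ifs <;> ring
  rw [h2, ← Finset.mul_sum]
  refine mul_le_mul_of_nonneg_left ?_ (Nat.cast_nonneg _)
  -- the sum of stay
  have h3 : ∑ v ∈ univ.filter (fun v => v ∈ V), (stay B v : ℝ) ≤ ∑ v : G, (stay B v : ℝ) :=
    Finset.sum_le_sum_of_subset_of_nonneg (Finset.filter_subset _ _)
      (fun _ _ _ => Nat.cast_nonneg _)
  refine h3.trans ?_
  have h4 : ∀ v : G, (stay B v : ℝ) = ∑ x ∈ B, if x + v ∈ B then (1 : ℝ) else 0 := by
    intro v
    unfold stay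
    rw [Finset.card_filter]; push_cast; rfl
  simp_rw [h4]
  rw [Finset.sum_comm]
  have h5 : ∀ x ∈ B, (∑ v : G, if x + v ∈ B then (1 : ℝ) else 0) = B.card := by
    intro x _
    rw [← Finset.sum_filter, Finset.sum_const, nsmul_eq_mul, mul_one]
    congr 1
    refine Finset.card_bij (fun v _ => x + v) ?_ ?_ ?_
    · intro v hv
      simpa using hv
    · intro a _ b _ h
      exact add_left_cancel h
    · intro b hb
      exact ⟨-x + b, by simpa using hb, by simp⟩
  rw [Finset.sum_congr rfl h5, Finset.sum_const, nsmul_eq_mul, sq]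

/-- **The Fourier step.** -/
lemma fourier_step (μ : G → ℝ) (V : AddSubgroup G) (B : Finset G)
    (hB : B.Nonempty) (eta : ℝ) (heta : 0 ≤ eta) (hsmall : 2 * B.card ≤ Nat.card V)
    (hexp : ∑ s ∈ univ.filter (fun s => s ∈ V), μ s * (1 - (stay B s : ℝ) / B.card) ≤ eta) :
    ∃ χ : AddChar G ℂ, ¬ V ≤ ker χ ∧ mass μ V - 2 * eta ≤ muhat μ V χ := by
  have hB0 : (0 : ℝ) < B.card := by exact_mod_cast hB.card_pos
  have hG0 : (0 : ℝ) < Fintype.card G := card_pos'
  have hV0 : (0 : ℝ) < Nat.card V := by exact_mod_cast Nat.card_pos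
  set m := mass μ V with hm
  set w : AddChar G ℂ → ℝ := fun χ => ‖Sg B χ‖ ^ 2 with hw
  have hw0 : ∀ χ, 0 ≤ w χ := fun χ => by positivity
  set τ := ∑ χ ∈ univ.filter (fun χ : AddChar G ℂ => V ≤ ker χ), w χ with hτ
  set T := ∑ χ ∈ univ.filter (fun χ : AddChar G ℂ => ¬ V ≤ ker χ), w χ with hT
  have hsum : τ + T = (Fintype.card G : ℝ) * B.card := by
    have h := parseval_G B (0 : G)
    simp only [AddChar.map_zero_eq_one, Complex.one_re, mul_one] at h
    have e : stay B (0 : G) = B.card := by
      unfold stay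
      congr 1
      rw [Finset.filter_eq_self]
      intro x hx
      simpa using hx
    rw [e] at h
    rw [← h, hτ, hT]
    exact Finset.sum_filter_add_sum_filter_not _ _ _
  have hτle : τ ≤ (Fintype.card G : ℝ) * B.card / 2 := by
    have h := trivial_weight B V
    have h2 : (2 : ℝ) * B.card ≤ Nat.card V := by exact_mod_cast hsmall
    have h3 : (Nat.card V : ℝ) * τ ≤ (Nat.card V : ℝ) * ((Fintype.card G : ℝ) * B.card / 2) := by
      refine h.trans ?_
      nlinarith [mul_pos hG0 hB0]
    exact le_of_mul_le_mul_left h3 hV0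
  have hTge : (Fintype.card G : ℝ) * B.card / 2 ≤ T := by linarith
  have hTpos : 0 < T := lt_of_lt_of_le (by positivity) hTge
  -- the main identity
  have hmain : (Fintype.card G : ℝ) * ∑ s ∈ univ.filter (fun s => s ∈ V), μ s * (stay B s : ℝ)
      = m * τ + ∑ χ ∈ univ.filter (fun χ : AddChar G ℂ => ¬ V ≤ ker χ), w χ * muhat μ V χ := by
    have e1 : (Fintype.card G : ℝ) * ∑ s ∈ univ.filter (fun s => s ∈ V), μ s * (stay B s : ℝ)
        = ∑ χ : AddChar G ℂ, w χ * muhat μ V χ := by
      rw [Finset.mul_sum]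
      have : ∀ s ∈ univ.filter (fun s => s ∈ V), (Fintype.card G : ℝ) * (μ s * (stay B s : ℝ))
          = ∑ χ : AddChar G ℂ, w χ * (μ s * (χ s).re) := by
        intro s _
        have h := parseval_G B s
        calc (Fintype.card G : ℝ) * (μ s * (stay B s : ℝ))
            = μ s * ((Fintype.card G : ℝ) * stay B s) := by ring
          _ = μ s * ∑ χ : AddChar G ℂ, ‖Sg B χ‖ ^ 2 * (χ s).re := by rw [h]
          _ = _ := by
            rw [Finset.mul_sum]
            refine Finset.sum_congr rfl fun χ _ => ?_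
            simp only [hw]; ring
      rw [Finset.sum_congr rfl this, Finset.sum_comm]
      refine Finset.sum_congr rfl fun χ _ => ?_
      unfold muhat
      rw [Finset.mul_sum]
    rw [e1, ← Finset.sum_filter_add_sum_filter_not univ (fun χ : AddChar G ℂ => V ≤ ker χ)]
    congr 1
    rw [hτ, Finset.mul_sum]
    refine Finset.sum_congr rfl fun χ hχ => ?_
    simp only [Finset.mem_filter, Finset.mem_univ, true_and] at hχ
    have : muhat μ V χ = m := by
      unfold muhat
      rw [hm]; unfold mass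
      refine Finset.sum_congr rfl fun s hs => ?_
      simp only [Finset.mem_filter, Finset.mem_univ, true_and] at hs
      have := hχ hs
      rw [mem_ker] at this
      rw [this, Complex.one_re, mul_one]
    rw [this]; ring
  -- the lower bound
  have hlow : (m - eta) * B.card ≤ ∑ s ∈ univ.filter (fun s => s ∈ V), μ s * (stay B s : ℝ) := by
    have e : ∑ s ∈ univ.filter (fun s => s ∈ V), μ s * (1 - (stay B s : ℝ) / B.card)
        = m - (∑ s ∈ univ.filter (fun s => s ∈ V), μ s * (stay B s : ℝ)) / B.card := by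
      rw [hm]; unfold mass
      rw [Finset.sum_div, ← Finset.sum_sub_distrib]
      refine Finset.sum_congr rfl fun s _ => by ring
    rw [e] at hexp
    have h2 : m - eta ≤ (∑ s ∈ univ.filter (fun s => s ∈ V), μ s * (stay B s : ℝ)) / B.card := by
      linarith
    rwa [le_div_iff₀ hB0] at h2
  by_contra hcon
  push Not at hcon
  have hneg : ∀ χ ∈ univ.filter (fun χ : AddChar G ℂ => ¬ V ≤ ker χ),
      w χ * (muhat μ V χ - (m - 2 * eta)) ≤ 0 := by
    intro χ hχ
    simp only [Finset.mem_filter, Finset.mem_univ, true_and] at hχ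
    have := hcon χ hχ
    exact mul_nonpos_of_nonneg_of_nonpos (hw0 χ) (by linarith)
  have hsumneg : 0 ≤ ∑ χ ∈ univ.filter (fun χ : AddChar G ℂ => ¬ V ≤ ker χ),
      w χ * (muhat μ V χ - (m - 2 * eta)) := by
    have e : ∑ χ ∈ univ.filter (fun χ : AddChar G ℂ => ¬ V ≤ ker χ),
        w χ * (muhat μ V χ - (m - 2 * eta))
        = (∑ χ ∈ univ.filter (fun χ : AddChar G ℂ => ¬ V ≤ ker χ), w χ * muhat μ V χ)
          - (m - 2 * eta) * T := by
      rw [hT, Finset.mul_sum, ← Finset.sum_sub_distrib]
      refine Finset.sum_congr rfl fun χ _ => by ring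
    rw [e]
    have h1 : (Fintype.card G : ℝ) * ((m - eta) * B.card) ≤ m * τ
        + ∑ χ ∈ univ.filter (fun χ : AddChar G ℂ => ¬ V ≤ ker χ), w χ * muhat μ V χ := by
      rw [← hmain]
      exact mul_le_mul_of_nonneg_left hlow hG0.le
    have h2 : m * τ = m * ((Fintype.card G : ℝ) * B.card) - m * T := by rw [← hsum]; ring
    rw [h2] at h1
    have h3 : eta * ((Fintype.card G : ℝ) * B.card) ≤ 2 * eta * T := by nlinarith
    nlinarith
  have hz := (Finset.sum_eq_zero_iff_of_nonpos hneg).mp (le_antisymm (Finset.sum_nonpos hneg) hsumneg)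
  have hT0 : T = 0 := by
    rw [hT]
    refine Finset.sum_eq_zero fun χ hχ => ?_
    have h1 := hz χ hχ
    simp only [Finset.mem_filter, Finset.mem_univ, true_and] at hχ
    have h2 := hcon χ hχ
    rcases mul_eq_zero.mp h1 with h | h
    · exact h
    · linarith
  linarith

end

end Pool.Agent.V7H25.SSE
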