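import Pool.Agent.V7H25.SSE.TestFourier

set_option autoImplicit false
set_option linter.unusedSectionVars false

/-!
# Testing small-set expansion by kernels of characters: the iteration and the converse
-/

namespace Pool.Agent.V7H25.SSE

open Finset
open scoped Classical

noncomputable section

variable {G : Type} [AddCommGroup G] [Fintype G]

/-- The common kernel of `k` characters. -/
def kers {k : ℕ} (f : Fin k → AddChar G ℂ) : AddSubgroup G := ⨅ i, ker (f i)

lemma mem_kers {k : ℕ} (f : Fin k → AddChar G ℂ) (x : G) : x ∈ kers f ↔ ∀ i, f i x = 1 := by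
  unfold kers
  rw [AddSubgroup.mem_iInf]
  rfl

/-- Some coset of `V` meets `A` in a set whose expansion inside `V` is small. -/
lemma coset_step (μ : G → ℝ) (hμ : ∀ s, 0 ≤ μ s) (A : Finset G) (hA : A.Nonempty) (eta : ℝ)
    (hexp : ∑ s, μ s * (1 - (stay A s : ℝ) / A.card) ≤ eta) (V : AddSubgroup G) :
    ∃ B : Finset G, B.Nonempty ∧ B ⊆ A ∧
      ∑ s ∈ univ.filter (fun s => s ∈ V), μ s * (1 - (stay B s : ℝ) / B.card) ≤ eta := by
  have hA0 : (0 : ℝ) < A.card := by exact_mod_cast hA.card_pos
  let Bx : G → Finset G := fun x => A.filter fun z => z - x ∈ V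
  have hBx : ∀ x ∈ A, (Bx x).Nonempty := fun x hx => ⟨x, by simp [Bx, hx, V.zero_mem]⟩
  by_contra hcon
  push Not at hcon
  have hall : ∀ x ∈ A, eta < ∑ s ∈ univ.filter (fun s => s ∈ V),
      μ s * (1 - (stay (Bx x) s : ℝ) / (Bx x).card) :=
    fun x hx => hcon (Bx x) (hBx x hx) (Finset.filter_subset _ _)
  have hsum : eta * A.card < ∑ x ∈ A, ∑ s ∈ univ.filter (fun s => s ∈ V),
      μ s * (1 - (stay (Bx x) s : ℝ) / (Bx x).card) := by
    calc eta * A.card = ∑ x ∈ A, eta := by rw [Finset.sum_const, nsmul_eq_mul]; ring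
      _ < _ := Finset.sum_lt_sum_of_nonempty hA hall
  -- the double sum
  have hdouble : ∑ x ∈ A, ∑ s ∈ univ.filter (fun s => s ∈ V),
      μ s * (1 - (stay (Bx x) s : ℝ) / (Bx x).card)
      = ∑ s ∈ univ.filter (fun s => s ∈ V), μ s * ((A.card : ℝ) - stay A s) := by
    rw [Finset.sum_comm]
    refine Finset.sum_congr rfl fun s hs => ?_
    simp only [Finset.mem_filter, Finset.mem_univ, true_and] at hs
    rw [← Finset.mul_sum, Finset.sum_sub_distrib]
    congr 1
    rw [Finset.sum_const, nsmul_eq_mul, mul_one]
    congr 1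
    have h1 : ∀ x ∈ A, (stay (Bx x) s : ℝ) / (Bx x).card
        = ∑ z ∈ A, if z - x ∈ V ∧ z + s ∈ A then (1 : ℝ) / cnt A V z else 0 := by
      intro x _
      have h2 : (stay (Bx x) s : ℝ) = ∑ z ∈ A, if z - x ∈ V ∧ z + s ∈ A then (1 : ℝ) else 0 := by
        unfold stay
        rw [← Finset.sum_filter, Finset.sum_const, nsmul_eq_mul, mul_one]
        congr 2
        ext z
        simp only [Bx, Finset.mem_filter]
        constructor
        · rintro ⟨⟨h1, h2⟩, h3, _⟩
          exact ⟨h1, h2, h3⟩
        · rintro ⟨h1, h2, h3⟩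
          refine ⟨⟨h1, h2⟩, h3, ?_⟩
          have : z + s - x = (z - x) + s := by abel
          rw [this]; exact V.add_mem h2 hs
      rw [h2, Finset.sum_div]
      refine Finset.sum_congr rfl fun z _ => ?_
      split_ifs with h
      · have : (Bx x).card = cnt A V z := by
          have : (Bx x).card = cnt A V x := rfl
          rw [this]
          exact (cnt_congr A V z x h.1).symm
        rw [this]
      · simp
    rw [Finset.sum_congr rfl h1, Finset.sum_comm]
    have h3 : ∀ z ∈ A, (∑ x ∈ A, if z - x ∈ V ∧ z + s ∈ A then (1 : ℝ) / cnt A V z else 0)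
        = if z + s ∈ A then (1 : ℝ) else 0 := by
      intro z hz
      by_cases h : z + s ∈ A
      · simp only [h, and_true, if_true]
        rw [← Finset.sum_filter, Finset.sum_const, nsmul_eq_mul]
        have hc : (A.filter fun x => z - x ∈ V).card = cnt A V z := by
          unfold cnt
          congr 1
          ext x
          simp only [Finset.mem_filter]
          constructor
          · rintro ⟨h1, h2⟩
            refine ⟨h1, ?_⟩
            have : x - z = -(z - x) := by abel
            rw [this]; exact V.neg_mem h2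
          · rintro ⟨h1, h2⟩
            refine ⟨h1, ?_⟩
            have : z - x = -(x - z) := by abel
            rw [this]; exact V.neg_mem h2
        rw [hc]
        have : (cnt A V z : ℝ) ≠ 0 := by
          have := cnt_pos A V z hz
          positivity
        field_simp
      · simp [h]
    rw [Finset.sum_congr rfl h3]
    unfold stay
    rw [Finset.card_filter]; push_cast; rfl
  rw [hdouble] at hsum
  have h4 : ∑ s ∈ univ.filter (fun s => s ∈ V), μ s * ((A.card : ℝ) - stay A s)
      ≤ ∑ s, μ s * ((A.card : ℝ) - stay A s) := by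
    refine Finset.sum_le_sum_of_subset_of_nonneg (Finset.filter_subset _ _) (fun s _ _ => ?_)
    refine mul_nonneg (hμ s) ?_
    rw [sub_nonneg]
    exact_mod_cast stay_le_card A s
  have h5 : ∑ s, μ s * ((A.card : ℝ) - stay A s)
      = (∑ s, μ s * (1 - (stay A s : ℝ) / A.card)) * A.card := by
    rw [Finset.sum_mul]
    refine Finset.sum_congr rfl fun s _ => ?_
    field_simp
  rw [h5] at h4
  have h6 := mul_le_mul_of_nonneg_right hexp hA0.le
  linarith

/-- **The iteration.** -/
lemma iterate (μ : G → ℝ) (hμ : ∀ s, 0 ≤ μ s) (hinv : PowerClosed μ)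
    (A : Finset G) (hA : A.Nonempty) (eta : ℝ) (heta : 0 ≤ eta)
    (hexp : ∑ s, μ s * (1 - (stay A s : ℝ) / A.card) ≤ eta) :
    ∀ k : ℕ, ∃ f : Fin k → AddChar G ℂ, (∑ s, μ s) - 4 * eta * k ≤ mass μ (kers f) ∧
      (Nat.card (kers f) ≤ 2 * A.card ∨ 2 ^ k * Nat.card (kers f) ≤ Fintype.card G) := by
  intro k
  induction k with
  | zero =>
    refine ⟨fun i => i.elim0, ?_, Or.inr ?_⟩
    · have : kers (fun i : Fin 0 => (i.elim0 : AddChar G ℂ)) = ⊤ := by
        rw [AddSubgroup.eq_top_iff']
        intro x
        rw [mem_kers]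
        exact fun i => i.elim0
      rw [this]
      unfold mass
      simp
    · rw [pow_zero, one_mul, ← Nat.card_eq_fintype_card]
      exact AddSubgroup.card_le_card_addGroup _
  | succ k ih =>
    obtain ⟨f, hf, hcard⟩ := ih
    by_cases hsmall : Nat.card (kers f) ≤ 2 * A.card
    · refine ⟨Fin.cons 0 f, ?_, Or.inl ?_⟩
      · have : kers (Fin.cons 0 f : Fin (k + 1) → AddChar G ℂ) = kers f := by
          ext x
          rw [mem_kers, mem_kers, Fin.forall_fin_succ]
          simp
        rw [this]
        push_cast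
        nlinarith
      · have : kers (Fin.cons 0 f : Fin (k + 1) → AddChar G ℂ) = kers f := by
          ext x
          rw [mem_kers, mem_kers, Fin.forall_fin_succ]
          simp
        rw [this]; exact hsmall
    · have hcard' : 2 ^ k * Nat.card (kers f) ≤ Fintype.card G := by
        rcases hcard with h | h
        · exact absurd h hsmall
        · exact h
      push Not at hsmall
      obtain ⟨B, hB, hBA, hBexp⟩ := coset_step μ hμ A hA eta hexp (kers f)
      have hBc : B.card ≤ A.card := Finset.card_le_card hBA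
      obtain ⟨χ, hχ, hmu⟩ := fourier_step μ (kers f) B hB eta heta (by omega) hBexp
      have hle := muhat_le μ hμ hinv (kers f) χ
      have hk : kers (Fin.cons χ f : Fin (k + 1) → AddChar G ℂ) = kers f ⊓ ker χ := by
        ext x
        rw [mem_kers, AddSubgroup.mem_inf, mem_kers, Fin.forall_fin_succ, mem_ker]
        simp only [Fin.cons_zero, Fin.cons_succ]
        exact and_comm
      refine ⟨Fin.cons χ f, ?_, Or.inr ?_⟩
      · rw [hk]
        push_cast
        linarith
      · rw [hk]
        have hlt : kers f ⊓ ker χ ≤ kers f := inf_le_left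
        have hne : kers f ⊓ ker χ ≠ kers f := by
          intro h
          exact hχ (inf_eq_left.mp h)
        have hdvd : Nat.card (kers f ⊓ ker χ : AddSubgroup G) ∣ Nat.card (kers f) :=
          AddSubgroup.card_dvd_of_le hlt
        obtain ⟨c, hc⟩ := hdvd
        have hpos : 0 < Nat.card (kers f) := Nat.card_pos
        have hc2 : 2 ≤ c := by
          have hc0 : c ≠ 0 := by rintro rfl; omega
          have hc1 : c ≠ 1 := by
            rintro rfl
            rw [mul_one] at hc
            apply hne
            exact AddSubgroup.eq_of_le_of_card_ge hlt (le_of_eq hc)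
          omega
        have h2 : 2 * Nat.card (kers f ⊓ ker χ : AddSubgroup G) ≤ Nat.card (kers f) := by
          rw [hc]; nlinarith
        calc 2 ^ (k + 1) * Nat.card (kers f ⊓ ker χ : AddSubgroup G)
            = 2 ^ k * (2 * Nat.card (kers f ⊓ ker χ : AddSubgroup G)) := by ring
          _ ≤ 2 ^ k * Nat.card (kers f) := Nat.mul_le_mul_left _ h2
          _ ≤ _ := hcard'

/-- The weighted number of the pairs `x, x + s` in `B` with `s ∈ W`. -/
def pairs (μ : G → ℝ) (W : AddSubgroup G) (B : Finset G) : ℝ :=
  ∑ s ∈ univ.filter (fun s => s ∈ W), μ s * (stay B s : ℝ)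

/-- Removing one element. -/
lemma remove_one (μ : G → ℝ) (W : AddSubgroup G) (h0 : μ 0 = 0)
    (B : Finset G) (hB : B.Nonempty) :
    ∃ x ∈ B, ((B.card : ℝ) - 2) * pairs μ W B ≤ B.card * pairs μ W (B.erase x) := by
  have hB0 : (0 : ℝ) < B.card := by exact_mod_cast hB.card_pos
  -- stay of the smaller set
  have hst : ∀ x ∈ B, ∀ s : G, s ≠ 0 → (stay (B.erase x) s : ℝ)
      = stay B s - (if x + s ∈ B then 1 else 0) - (if x - s ∈ B then 1 else 0) := by
    intro x hx s hs
    have h1 : (B.erase x).filter (fun y => y + s ∈ B.erase x)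
        = ((B.filter fun y => y + s ∈ B).erase x).erase (x - s) := by
      ext y
      simp only [Finset.mem_filter, Finset.mem_erase]
      constructor
      · rintro ⟨⟨h1, h2⟩, h3, h4⟩
        refine ⟨?_, h1, h2, h4⟩
        intro h
        apply h3
        rw [h]; abel
      · rintro ⟨h1, h2, h3, h4⟩
        refine ⟨⟨h2, h3⟩, ?_, h4⟩
        intro h
        apply h1
        rw [← h]; abel
    unfold stay
    rw [h1]
    have hxs : x - s ≠ x := by
      intro h
      apply hs
      simpa using h
    have h2 : (((B.filter fun y => y + s ∈ B).erase x).card : ℝ)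
        = (B.filter fun y => y + s ∈ B).card - (if x + s ∈ B then 1 else 0) := by
      split_ifs with h
      · rw [Finset.card_erase_of_mem (by simp [hx, h]), Nat.cast_sub, Nat.cast_one]
        exact Finset.card_pos.mpr ⟨x, by simp [hx, h]⟩
      · rw [Finset.erase_eq_of_notMem (by simp [h]), sub_zero]
    rw [← h2]
    split_ifs with h
    · have hmem : x - s ∈ (B.filter fun y => y + s ∈ B).erase x := by
        simp only [Finset.mem_erase, Finset.mem_filter]
        exact ⟨hxs, h, by simpa using hx⟩
      rw [Finset.card_erase_of_mem hmem, Nat.cast_sub (Finset.card_pos.mpr ⟨_, hmem⟩), Nat.cast_one]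
    · have hmem : x - s ∉ (B.filter fun y => y + s ∈ B).erase x := by
        simp [h]
      rw [Finset.erase_eq_of_notMem hmem, sub_zero]
  -- the sum over x
  have hsum : ∑ x ∈ B, pairs μ W (B.erase x) = ((B.card : ℝ) - 2) * pairs μ W B := by
    unfold pairs
    rw [Finset.sum_comm, Finset.mul_sum]
    refine Finset.sum_congr rfl fun s _ => ?_
    by_cases hs : s = 0
    · subst hs; simp [h0]
    · rw [← Finset.mul_sum, Finset.sum_congr rfl (fun x hx => hst x hx s hs),
        Finset.sum_sub_distrib, Finset.sum_sub_distrib, Finset.sum_const, nsmul_eq_mul]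
      have e1 : (∑ x ∈ B, if x + s ∈ B then (1 : ℝ) else 0) = stay B s := by
        unfold stay
        rw [Finset.card_filter]; push_cast; rfl
      have e2 : (∑ x ∈ B, if x - s ∈ B then (1 : ℝ) else 0) = stay B s := by
        unfold stay
        rw [← Finset.sum_filter, Finset.sum_const, nsmul_eq_mul, mul_one]
        congr 1
        refine Finset.card_bij (fun y _ => y - s) ?_ ?_ ?_
        · intro y hy
          simp only [Finset.mem_filter] at hy ⊢
          exact ⟨hy.2, by simpa using hy.1⟩
        · intro a _ b _ h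
          simpa using h
        · intro b hb
          simp only [Finset.mem_filter] at hb
          exact ⟨b + s, by simpa using ⟨hb.2, hb.1⟩, by simp⟩
      rw [e1, e2]; ring
  by_contra hcon
  push Not at hcon
  have h1 : ∑ x ∈ B, (B.card : ℝ) * pairs μ W (B.erase x)
      < ∑ x ∈ B, ((B.card : ℝ) - 2) * pairs μ W B :=
    Finset.sum_lt_sum_of_nonempty hB hcon
  rw [← Finset.mul_sum, hsum, Finset.sum_const, nsmul_eq_mul] at h1
  exact lt_irrefl _ h1

/-- Subsets of a subgroup of any size with many pairs. -/
lemma subset_many (μ : G → ℝ) (W : AddSubgroup G) (h0 : μ 0 = 0) :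
    ∀ j : ℕ, j ≤ Nat.card W → ∃ B : Finset G, B.card = Nat.card W - j ∧
      mass μ W * ((Nat.card W : ℝ) - j) * ((Nat.card W : ℝ) - j - 1)
        ≤ ((Nat.card W : ℝ) - 1) * pairs μ W B := by
  intro j
  induction j with
  | zero =>
    intro _
    refine ⟨carrier W, by rw [card_carrier]; rfl, ?_⟩
    have : pairs μ W (carrier W) = mass μ W * Nat.card W := by
      unfold pairs mass
      rw [Finset.sum_mul]
      refine Finset.sum_congr rfl fun s hs => ?_
      simp only [Finset.mem_filter, Finset.mem_univ, true_and] at hs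
      congr 1
      rw [← card_carrier]
      unfold stay
      congr 2
      rw [Finset.filter_eq_self]
      intro x hx
      rw [mem_carrier] at hx ⊢
      exact W.add_mem hx hs
    rw [this]
    push_cast
    apply le_of_eq
    ring
  | succ j ih =>
    intro hj
    obtain ⟨B, hBc, hB⟩ := ih (by omega)
    have hBne : B.Nonempty := by
      rw [← Finset.card_pos, hBc]; omega
    obtain ⟨x, hx, hrem⟩ := remove_one μ W h0 B hBne
    refine ⟨B.erase x, by rw [Finset.card_erase_of_mem hx, hBc]; omega, ?_⟩
    have hw : (B.card : ℝ) = (Nat.card W : ℝ) - j := by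
      rw [hBc, Nat.cast_sub (by omega)]
    have hbpos : (0 : ℝ) < (Nat.card W : ℝ) - j := by
      rw [← hw]; exact_mod_cast hBne.card_pos
    have hw1 : (0 : ℝ) ≤ (Nat.card W : ℝ) - 1 := by
      have : 1 ≤ Nat.card W := Nat.card_pos
      have : (1 : ℝ) ≤ Nat.card W := by exact_mod_cast this
      linarith
    rw [hw] at hrem
    by_cases hlast : (Nat.card W : ℝ) - j - 1 - 1 < 0
    · -- the last step: the left side is zero
      have h1 : Nat.card W = j + 1 := by
        have h2 : (Nat.card W : ℝ) < j + 2 := by linarith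
        have h3 : Nat.card W < j + 2 := by exact_mod_cast h2
        omega
      have h4 : (Nat.card W : ℝ) - (j + 1 : ℕ) = 0 := by rw [h1]; push_cast; ring
      rw [h4]
      have hB2 : (B.erase x).card = 0 := by
        rw [Finset.card_erase_of_mem hx, hBc]; omega
      rw [Finset.card_eq_zero] at hB2
      rw [hB2]
      unfold pairs stay
      simp
    · push Not at hlast
      have h1 : mass μ W * ((Nat.card W : ℝ) - j) * ((Nat.card W : ℝ) - j - 1)
          * ((Nat.card W : ℝ) - j - 2) ≤ ((Nat.card W : ℝ) - 1) * pairs μ W B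
            * ((Nat.card W : ℝ) - j - 2) :=
        mul_le_mul_of_nonneg_right hB (by linarith)
      have h2 : ((Nat.card W : ℝ) - 1) * (((Nat.card W : ℝ) - j - 2) * pairs μ W B)
          ≤ ((Nat.card W : ℝ) - 1) * (((Nat.card W : ℝ) - j) * pairs μ W (B.erase x)) :=
        mul_le_mul_of_nonneg_left hrem hw1
      have h3 : ((Nat.card W : ℝ) - j) * (mass μ W * ((Nat.card W : ℝ) - (j + 1 : ℕ))
          * ((Nat.card W : ℝ) - (j + 1 : ℕ) - 1))
          ≤ ((Nat.card W : ℝ) - j) * (((Nat.card W : ℝ) - 1) * pairs μ W (B.erase x)) := by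
        push_cast
        nlinarith [h1, h2]
      exact le_of_mul_le_mul_left h3 hbpos

/-- A set of size `D` with many pairs, from a subgroup with at most `2 D` elements. -/
lemma many_pairs (μ : G → ℝ) (hμ : ∀ s, 0 ≤ μ s) (h0 : μ 0 = 0) (W : AddSubgroup G) (D : ℕ)
    (hD2 : 2 ≤ D) (hDG : D ≤ Fintype.card G) (hW : Nat.card W ≤ 2 * D) :
    ∃ B : Finset G, B.card = D ∧ mass μ W / 3 * D ≤ ∑ s, μ s * (stay B s : ℝ) := by
  have hm0 : 0 ≤ mass μ W := Finset.sum_nonneg fun s _ => hμ s
  have hle : ∀ B : Finset G, pairs μ W B ≤ ∑ s, μ s * (stay B s : ℝ) := fun B =>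
    Finset.sum_le_sum_of_subset_of_nonneg (Finset.filter_subset _ _)
      (fun s _ _ => mul_nonneg (hμ s) (Nat.cast_nonneg _))
  have hDR : (2 : ℝ) ≤ D := by exact_mod_cast hD2
  rcases Nat.lt_or_ge D (Nat.card W) with hlt | hge
  · -- the subgroup is bigger
    obtain ⟨B, hBc, hB⟩ := subset_many μ W h0 (Nat.card W - D) (by omega)
    have hBD : B.card = D := by rw [hBc]; omega
    refine ⟨B, hBD, le_trans ?_ (hle B)⟩
    have e : ((Nat.card W : ℝ) - ((Nat.card W - D : ℕ) : ℝ)) = D := by
      rw [Nat.cast_sub (by omega)]; ring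
    rw [e] at hB
    have hw : (Nat.card W : ℝ) ≤ 2 * D := by exact_mod_cast hW
    have hwD : (D : ℝ) < Nat.card W := by exact_mod_cast hlt
    have hw1 : (0 : ℝ) < (Nat.card W : ℝ) - 1 := by linarith
    have h3 : ((Nat.card W : ℝ) - 1) * (mass μ W / 3 * D)
        ≤ ((Nat.card W : ℝ) - 1) * pairs μ W B := by
      refine le_trans ?_ hB
      have h5 : ((Nat.card W : ℝ) - 1) * (1 / 3) ≤ (D : ℝ) - 1 := by linarith
      calc ((Nat.card W : ℝ) - 1) * (mass μ W / 3 * D)
          = (((Nat.card W : ℝ) - 1) * (1 / 3)) * (mass μ W * D) := by ring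
        _ ≤ ((D : ℝ) - 1) * (mass μ W * D) :=
            mul_le_mul_of_nonneg_right h5 (mul_nonneg hm0 (by linarith))
        _ = _ := by ring
    exact le_of_mul_le_mul_left h3 hw1
  · -- a union of cosets
    let P : Finset G → Prop := fun C => (∀ x ∈ C, ∀ w ∈ W, x + w ∈ C) ∧ C.card ≤ D
    have hne : (univ.filter fun C : Finset G => P C).Nonempty := by
      refine ⟨carrier W, ?_⟩
      simp only [Finset.mem_filter, Finset.mem_univ, true_and, P]
      refine ⟨fun x hx w hw => ?_, by rw [card_carrier]; exact hge⟩
      rw [mem_carrier] at hx ⊢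
      exact W.add_mem hx hw
    obtain ⟨C, hC, hmax⟩ := Finset.exists_max_image _ (fun C : Finset G => C.card) hne
    simp only [Finset.mem_filter, Finset.mem_univ, true_and, P] at hC hmax
    obtain ⟨hCW, hCD⟩ := hC
    have hCge : Nat.card W ≤ C.card := by
      have := hmax (carrier W) ⟨fun x hx w hw => by
        rw [mem_carrier] at hx ⊢
        exact W.add_mem hx hw, by rw [card_carrier]; exact hge⟩
      rwa [card_carrier] at this
    have hhalf : D ≤ 2 * C.card := by
      by_contra hcon
      push Not at hcon
      -- there is a point outside C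
      have hCu : C ≠ univ := by
        rintro rfl
        rw [Finset.card_univ] at hcon hCD
        omega
      obtain ⟨y, hy⟩ : ∃ y, y ∉ C := by
        by_contra h
        push Not at h
        exact hCu (Finset.eq_univ_iff_forall.mpr h)
      let E : Finset G := univ.filter fun z => z - y ∈ W
      have hEc : E.card = Nat.card W := cnt_univ W y
      have hdisj : Disjoint C E := by
        rw [Finset.disjoint_left]
        intro z hz hzE
        simp only [E, Finset.mem_filter, Finset.mem_univ, true_and] at hzE
        apply hy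
        have := hCW z hz (-(z - y)) (W.neg_mem hzE)
        have e : z + -(z - y) = y := by abel
        rwa [e] at this
      have h1 := hmax (C ∪ E) ⟨?_, ?_⟩
      · rw [Finset.card_union_of_disjoint hdisj, hEc] at h1
        have : 0 < Nat.card W := Nat.card_pos
        omega
      · intro x hx w hw
        rw [Finset.mem_union] at hx ⊢
        rcases hx with hx | hx
        · left; exact hCW x hx w hw
        · right
          simp only [E, Finset.mem_filter, Finset.mem_univ, true_and] at hx ⊢
          have : x + w - y = (x - y) + w := by abel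
          rw [this]; exact W.add_mem hx hw
      · rw [Finset.card_union_of_disjoint hdisj, hEc]
        omega
    obtain ⟨B, hCB, hBc⟩ : ∃ B : Finset G, C ⊆ B ∧ B.card = D := by
      obtain ⟨B, h1, _, h3⟩ := Finset.exists_subsuperset_card_eq (Finset.subset_univ C) hCD
        (by rw [Finset.card_univ]; exact hDG)
      exact ⟨B, h1, h3⟩
    refine ⟨B, hBc, le_trans ?_ (hle B)⟩
    unfold pairs
    have h2 : ∀ s ∈ univ.filter (fun s => s ∈ W), μ s * ((D : ℝ) / 2) ≤ μ s * (stay B s : ℝ) := by
      intro s hs
      simp only [Finset.mem_filter, Finset.mem_univ, true_and] at hs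
      refine mul_le_mul_of_nonneg_left ?_ (hμ s)
      have h3 : C.card ≤ stay B s := by
        unfold stay
        refine Finset.card_le_card ?_
        intro x hx
        rw [Finset.mem_filter]
        exact ⟨hCB hx, hCB (hCW x hx s hs)⟩
      have h4 : (D : ℝ) ≤ 2 * C.card := by exact_mod_cast hhalf
      have h5 : (C.card : ℝ) ≤ stay B s := by exact_mod_cast h3
      linarith
    have h3 := Finset.sum_le_sum h2
    rw [← Finset.sum_mul] at h3
    refine le_trans ?_ h3
    have : mass μ W = ∑ s ∈ univ.filter (fun s => s ∈ W), μ s := rfl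
    rw [← this]
    nlinarith

end

end Pool.Agent.V7H25.SSE
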